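import Pool.Agent.Lib.MP_b9166b_al.Rg.CharP

/-!
# MP_b9166b_al, REG: free elements

`Free p F`: an abelian `p`-subgroup `Y` normalized by `F` and an element `y` of `Y` whose conjugates
under `F` are independent modulo `p`, in the form of one coordinate function `χ`.
-/

set_option autoImplicit false

namespace Pool.Agent.Lib.MP_b9166b_al.Rg

variable {G : Type} [Group G]

/-- a free element for the subgroup `F` -/
structure Free (p : ℕ) (F : Subgroup G) where
  Y : Subgroup G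
  fin : Finite Y
  comm : ∀ a ∈ Y, ∀ b ∈ Y, a * b = b * a
  tors : ∀ a ∈ Y, ∃ n : ℕ, a ^ (p ^ n) = 1
  norm : ∀ h ∈ F, ∀ a ∈ Y, h * a * h⁻¹ ∈ Y
  χ : G → ZMod p
  add : ∀ a ∈ Y, ∀ b ∈ Y, χ (a * b) = χ a + χ b
  y : G
  hy : y ∈ Y
  χy : χ y = 1
  χh : ∀ h ∈ F, h ≠ 1 → χ (h * y * h⁻¹) = 0

/-- the norm `∏_{j < n} x ^ j u x ^ (-j)` -/
def nm (x u : G) : ℕ → G
  | 0 => 1
  | n + 1 => nm x u n * (x ^ n * u * (x ^ n)⁻¹)

theorem nm_conj (x u : G) (n : ℕ) : u * (x * nm x u n * x⁻¹) = nm x u (n + 1) := by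
  induction n with
  | zero => simp [nm]
  | succ n ih =>
    have h1 : x * nm x u (n + 1) * x⁻¹ =
        (x * nm x u n * x⁻¹) * (x ^ (n + 1) * u * (x ^ (n + 1))⁻¹) := by
      rw [nm, pow_succ' x n]
      group
    rw [h1, ← mul_assoc, ih]
    rfl

namespace Free

variable {p : ℕ} {F : Subgroup G} (f : Free p F)

theorem χ_one : f.χ 1 = 0 := by
  have h := f.add 1 f.Y.one_mem 1 f.Y.one_mem
  rw [mul_one] at h
  exact left_eq_add.1 h

theorem χ_inv {a : G} (ha : a ∈ f.Y) : f.χ a⁻¹ = - f.χ a := by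
  have h := f.add a ha a⁻¹ (f.Y.inv_mem ha)
  rw [mul_inv_cancel, f.χ_one] at h
  exact (neg_eq_of_add_eq_zero_right h.symm).symm

/-- the coordinate at `g` -/
def co (g u : G) : ZMod p := f.χ (g⁻¹ * u * g)

theorem conj_mem {g u : G} (hg : g ∈ F) (hu : u ∈ f.Y) : g⁻¹ * u * g ∈ f.Y := by
  have := f.norm g⁻¹ (F.inv_mem hg) u hu
  rwa [inv_inv] at this

theorem co_mul {g u v : G} (hg : g ∈ F) (hu : u ∈ f.Y) (hv : v ∈ f.Y) :
    f.co g (u * v) = f.co g u + f.co g v := by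
  unfold co
  rw [← f.add _ (f.conj_mem hg hu) _ (f.conj_mem hg hv)]
  congr 1
  group

theorem co_one (g : G) : f.co g 1 = 0 := by
  unfold co
  rw [mul_one, inv_mul_cancel, f.χ_one]

theorem co_inv {g u : G} (hg : g ∈ F) (hu : u ∈ f.Y) : f.co g u⁻¹ = - f.co g u := by
  unfold co
  rw [← f.χ_inv (f.conj_mem hg hu)]
  congr 1
  group

theorem co_conj (b g u : G) : f.co g (b * u * b⁻¹) = f.co (b⁻¹ * g) u := by
  unfold co
  congr 1
  group

theorem cm_mem {b u : G} (hb : b ∈ F) (hu : u ∈ f.Y) : cm b u ∈ f.Y :=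
  f.Y.mul_mem (f.norm b hb u hu) (f.Y.inv_mem hu)

theorem co_cm {b g u : G} (hb : b ∈ F) (hg : g ∈ F) (hu : u ∈ f.Y) :
    f.co g (cm b u) = f.co (b⁻¹ * g) u - f.co g u := by
  unfold cm
  rw [f.co_mul hg (f.norm b hb u hu) (f.Y.inv_mem hu), f.co_conj, f.co_inv hg hu, sub_eq_add_neg]

open Classical in
theorem co_y {g : G} (hg : g ∈ F) : f.co g f.y = if g = 1 then 1 else 0 := by
  split_ifs with h
  · rw [h]
    unfold co
    rw [inv_one, one_mul, mul_one, f.χy]
  · unfold co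
    have h1 := f.χh g⁻¹ (F.inv_mem hg) (fun h2 => h (inv_eq_one.1 h2))
    rwa [inv_inv] at h1

open Classical in
theorem co_ge {g g' : G} (hg : g ∈ F) (hg' : g' ∈ F) :
    f.co g (g' * f.y * g'⁻¹) = if g = g' then 1 else 0 := by
  rw [f.co_conj, f.co_y (F.mul_mem (F.inv_mem hg') hg)]
  have : g'⁻¹ * g = 1 ↔ g = g' := by
    rw [inv_mul_eq_one, eq_comm]
  simp only [this]

theorem nm_mem {x u : G} (hx : x ∈ F) (hu : u ∈ f.Y) (n : ℕ) : nm x u n ∈ f.Y := by
  induction n with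
  | zero => exact f.Y.one_mem
  | succ n ih => exact f.Y.mul_mem ih (f.norm _ (F.pow_mem hx n) u hu)

theorem nm_comm {x u : G} (hx : x ∈ F) (hu : u ∈ f.Y) :
    x * nm x u (orderOf x) * x⁻¹ = nm x u (orderOf x) := by
  have h1 := nm_conj x u (orderOf x)
  rw [nm, pow_orderOf_eq_one, one_mul, inv_one, mul_one,
    f.comm _ (f.nm_mem hx hu _) u hu] at h1
  exact mul_left_cancel h1

theorem co_nm {x u g : G} (hx : x ∈ F) (hg : g ∈ F) (hu : u ∈ f.Y) (n : ℕ) :
    f.co g (nm x u n) = ∑ j ∈ Finset.range n, f.co ((x ^ j)⁻¹ * g) u := by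
  induction n with
  | zero =>
    rw [nm, f.co_one, Finset.range_zero, Finset.sum_empty]
  | succ n ih =>
    rw [nm, f.co_mul hg (f.nm_mem hx hu n) (f.norm _ (F.pow_mem hx n) u hu), ih, f.co_conj,
      Finset.sum_range_succ]

/-- `Y` meets `F` trivially -/
theorem disj (hp : p.Prime) {h : G} (hF : h ∈ F) (hY : h ∈ f.Y) : h = 1 := by
  by_contra hne
  have h1 := f.χh h hF hne
  rw [f.comm h hY f.y f.hy, mul_inv_cancel_right, f.χy] at h1
  have : Fact p.Prime := ⟨hp⟩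
  exact one_ne_zero h1

/-- the norms `a g = ∏ x ^ j (g y g⁻¹) x ^ (-j)` -/
noncomputable def na (x g : G) : G := nm x (g * f.y * g⁻¹) (orderOf x)

theorem na_mem {x g : G} (hx : x ∈ F) (hg : g ∈ F) : f.na x g ∈ f.Y :=
  f.nm_mem hx (f.norm g hg _ f.hy) _

theorem na_comm {x g : G} (hx : x ∈ F) (hg : g ∈ F) : x * f.na x g * x⁻¹ = f.na x g :=
  f.nm_comm hx (f.norm g hg _ f.hy)

open Classical in
theorem co_na {x g g' : G} (hx : x ∈ F) (hg : g ∈ F) (hg' : g' ∈ F) :
    f.co g' (f.na x g) = ∑ j ∈ Finset.range (orderOf x), if g' = x ^ j * g then 1 else 0 := by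
  unfold na
  rw [f.co_nm hx hg' (f.norm g hg _ f.hy)]
  refine Finset.sum_congr rfl fun j _ => ?_
  rw [f.co_ge (F.mul_mem (F.inv_mem (F.pow_mem hx j)) hg') hg]
  have : (x ^ j)⁻¹ * g' = g ↔ g' = x ^ j * g := inv_mul_eq_iff_eq_mul
  simp only [this]

theorem co_na_self {x g : G} (hx : x ∈ F) (hg : g ∈ F) (h0 : 0 < orderOf x) :
    f.co g (f.na x g) = 1 := by
  classical
  rw [f.co_na hx hg hg, Finset.sum_eq_single 0]
  · rw [pow_zero, one_mul, if_pos rfl]
  · intro j hj hj0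
    rw [if_neg]
    intro h
    have h1 : x ^ j = 1 := (right_eq_mul.1 h)
    have h2 := orderOf_dvd_of_pow_eq_one h1
    exact absurd (Nat.le_of_dvd (Nat.pos_of_ne_zero hj0) h2)
      (not_le.2 (Finset.mem_range.1 hj))
  · intro h
    exact absurd (Finset.mem_range.2 h0) h

theorem co_na_zero {x g g' : G} (hx : x ∈ F) (hg : g ∈ F) (hg' : g' ∈ F)
    (h : ∀ j : ℕ, g' ≠ x ^ j * g) : f.co g' (f.na x g) = 0 := by
  classical
  rw [f.co_na hx hg hg']
  exact Finset.sum_eq_zero fun j _ => if_neg (h j)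

/-- the elements `e g = [c, a g]` -/
noncomputable def el (x c g : G) : G := cm c (f.na x g)

variable {x c : G}

theorem el_mem (hx : x ∈ F) (hc : c ∈ F) {g : G} (hg : g ∈ F) : f.el x c g ∈ f.Y :=
  f.cm_mem hc (f.na_mem hx hg)

theorem co_el_self (hx : x ∈ F) (hc : c ∈ F) (h0 : 0 < orderOf x) (hcx : ∀ j : ℕ, c⁻¹ ≠ x ^ j)
    {g : G} (hg : g ∈ F) : f.co g (f.el x c g) = -1 := by
  unfold el
  rw [f.co_cm hc hg (f.na_mem hx hg), f.co_na_self hx hg h0,
    f.co_na_zero hx hg (F.mul_mem (F.inv_mem hc) hg), zero_sub]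
  intro j h
  exact hcx j (mul_right_cancel h)

theorem co_el_zero (hx : x ∈ F) (hc : c ∈ F) {D : Subgroup G} (hxD : x ∈ D) (hcD : c ∈ D)
    {g g' : G} (hg : g ∈ F) (hg' : g' ∈ F) (h : g' * g⁻¹ ∉ D) : f.co g' (f.el x c g) = 0 := by
  unfold el
  rw [f.co_cm hc hg' (f.na_mem hx hg), f.co_na_zero hx hg hg',
    f.co_na_zero hx hg (F.mul_mem (F.inv_mem hc) hg'), sub_zero]
  · intro j hj
    apply h
    have : g' * g⁻¹ = c * x ^ j := by
      rw [mul_inv_eq_iff_eq_mul, mul_assoc, ← hj, mul_inv_cancel_left]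
    rw [this]
    exact D.mul_mem hcD (D.pow_mem hxD j)
  · intro j hj
    apply h
    rw [hj, mul_inv_cancel_right]
    exact D.pow_mem hxD j

/-- a new element of the centralizer of `x` -/
theorem na_notMem (hp : p.Prime) (hx : x ∈ F) (h0 : 0 < orderOf x) :
    f.na x 1 ∉ Subgroup.zpowers x := by
  intro h
  have h1 : f.na x 1 = 1 :=
    f.disj hp ((Subgroup.zpowers_le.2 hx) h) (f.na_mem hx F.one_mem)
  have h2 := f.co_na_self hx F.one_mem h0
  rw [h1, f.co_one] at h2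
  have : Fact p.Prime := ⟨hp⟩
  exact zero_ne_one h2

/-! ### The chain of subgroups -/

/-- the subgroup generated by `x` and the elements of a list -/
def Hl (x : G) : List G → Subgroup G
  | [] => Subgroup.zpowers x
  | b :: L => Hl x L ⊔ Subgroup.zpowers b

/-- every element of the list is outside of the group generated by `x` and the later ones -/
def Good (x : G) : List G → Prop
  | [] => True
  | b :: L => b ∉ Hl x L ∧ Good x L

theorem foldr_cm_mem {L : List G} (hL : ∀ b ∈ L, b ∈ F) {z : G} (hz : z ∈ f.Y) :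
    L.foldr cm z ∈ f.Y := by
  induction L with
  | nil => exact hz
  | cons b L ih =>
    rw [List.foldr_cons]
    exact f.cm_mem (hL b List.mem_cons_self) (ih fun c hc => hL c (List.mem_cons_of_mem _ hc))

theorem co_foldr {L : List G} (hx : x ∈ F) (h0 : 0 < orderOf x) (hp : p.Prime) :
    (∀ b ∈ L, b ∈ F) → Good x L →
    (∀ g ∈ F, g ∉ Hl x L → f.co g (L.foldr cm (f.na x 1)) = 0) ∧
      f.co 1 (L.foldr cm (f.na x 1)) ≠ 0 := by
  have : Fact p.Prime := ⟨hp⟩
  induction L with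
  | nil =>
    intro _ _
    refine ⟨fun g hg hgx => ?_, ?_⟩
    · refine f.co_na_zero hx F.one_mem hg fun j h => hgx ?_
      rw [h, mul_one]
      exact Subgroup.npow_mem_zpowers x j
    · rw [List.foldr_nil, f.co_na_self hx F.one_mem h0]
      exact one_ne_zero
  | cons b L ih =>
    intro hL hgood
    have hb : b ∈ F := hL b List.mem_cons_self
    have hL' : ∀ c ∈ L, c ∈ F := fun c hc => hL c (List.mem_cons_of_mem _ hc)
    obtain ⟨h1, h2⟩ := ih hL' hgood.2
    have hz : L.foldr cm (f.na x 1) ∈ f.Y := f.foldr_cm_mem hL' (f.na_mem hx F.one_mem)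
    refine ⟨fun g hg hgH => ?_, ?_⟩
    · rw [List.foldr_cons, f.co_cm hb hg hz]
      rw [h1 (b⁻¹ * g) (F.mul_mem (F.inv_mem hb) hg), h1 g hg, sub_zero]
      · intro h
        exact hgH (Subgroup.mem_sup_left h)
      · intro h
        apply hgH
        have h3 : g = b * (b⁻¹ * g) := (mul_inv_cancel_left b g).symm
        rw [h3]
        exact Subgroup.mul_mem _ (Subgroup.mem_sup_right (Subgroup.mem_zpowers b))
          (Subgroup.mem_sup_left h)
    · rw [List.foldr_cons, f.co_cm hb F.one_mem hz, mul_one,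
        h1 b⁻¹ (F.inv_mem hb) (fun h => hgood.1 (by simpa using Subgroup.inv_mem _ h)), zero_sub]
      exact neg_ne_zero.2 h2

end Free

end Pool.Agent.Lib.MP_b9166b_al.Rg
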