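import Pool.Agent.Lib.MP_b9166b_al.Rep

/-!
# MP_b9166b_al, REG: elementary abelian groups of linear maps, any prime

The statements of the file Rep for an arbitrary prime number `r`.
-/

set_option autoImplicit false

namespace Pool.Agent.Lib.MP_b9166b_al.Rg

open Pool.Agent.Lib.MP_b9166b_al

variable {F : Type} [Field F]

/-- commuting `a`, `b` of order dividing `r` on a space `W ≠ 0` in which `r` is invertible: some
`a ^ i * b ^ j` with `(i, j) ≠ (0, 0)` has a fixed vector `≠ 0` -/
theorem exists_fixed {W : Type} [AddCommGroup W] [Module F W] [Nontrivial W] {r : ℕ}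
    (hr2 : 2 ≤ r) (hr : (r : F) ≠ 0) {a b : W →ₗ[F] W} (hab : Commute a b)
    (ha : a ^ r = 1) (hb : b ^ r = 1) :
    ∃ i j : ℕ, i < r ∧ j < r ∧ ¬ (i = 0 ∧ j = 0) ∧
      LinearMap.ker (1 - a ^ i * b ^ j) ≠ ⊥ := by
  by_contra hc
  push Not at hc
  have hc' : ∀ i j : ℕ, i < r → j < r → ¬ (i = 0 ∧ j = 0) →
      LinearMap.ker (1 - a ^ i * b ^ j) = ⊥ := fun i j hi hj hij => hc i j hi hj (by tauto)
  have hN : ∀ e : W →ₗ[F] W, e ^ r = 1 → LinearMap.ker (1 - e) = ⊥ →
      ∑ i ∈ Finset.range r, e ^ i = 0 := by
    intro e he hk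
    ext v
    have h1 : (1 - e) ((∑ i ∈ Finset.range r, e ^ i) v) = 0 := by
      rw [← Module.End.mul_apply, mul_neg_geom_sum, he, sub_self, LinearMap.zero_apply]
    rw [← LinearMap.mem_ker, hk, Submodule.mem_bot] at h1
    rw [h1, LinearMap.zero_apply]
  have hcomm : ∀ i j : ℕ, Commute (a ^ i) (b ^ j) := fun i j => (hab.pow_left i).pow_right j
  have h1 : ∀ j ∈ Finset.range r, ∑ i ∈ Finset.range r, a ^ i * b ^ (i * j) = 0 := by
    intro j hj
    rw [Finset.mem_range] at hj
    have h2 : (a * b ^ j) ^ r = 1 := by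
      rw [(hab.pow_right j).mul_pow, ha, one_mul, ← pow_mul, mul_comm j r, pow_mul, hb, one_pow]
    have h3 := hN (a * b ^ j) h2
      (by simpa using hc' 1 j (by omega) hj (by simp))
    rw [← h3]
    refine Finset.sum_congr rfl fun i _ => ?_
    rw [(hab.pow_right j).mul_pow, ← pow_mul, mul_comm j i]
  have h2 : ∀ i ∈ Finset.range r, i ≠ 0 → ∑ j ∈ Finset.range r, a ^ i * b ^ (i * j) = 0 := by
    intro i hi hi0
    rw [Finset.mem_range] at hi
    have h3 : (b ^ i) ^ r = 1 := by rw [← pow_mul, mul_comm, pow_mul, hb, one_pow]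
    have h4 := hN (b ^ i) h3 (by simpa using hc' 0 i (by omega) hi (by simp [hi0]))
    rw [← Finset.mul_sum]
    have h5 : ∑ j ∈ Finset.range r, b ^ (i * j) = 0 := by
      rw [← h4]
      exact Finset.sum_congr rfl fun j _ => pow_mul _ _ _
    rw [h5, mul_zero]
  have h3 : ∑ i ∈ Finset.range r, ∑ j ∈ Finset.range r, a ^ i * b ^ (i * j) = 0 := by
    rw [Finset.sum_comm]
    exact Finset.sum_eq_zero h1
  have h4 : ∑ i ∈ Finset.range r, ∑ j ∈ Finset.range r, a ^ i * b ^ (i * j) =
      ∑ j ∈ Finset.range r, a ^ 0 * b ^ (0 * j) := by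
    refine Finset.sum_eq_single 0 (fun i hi hi0 => h2 i hi hi0) fun h => ?_
    exact absurd (Finset.mem_range.2 (by omega)) h
  rw [h3] at h4
  obtain ⟨w, hw⟩ := exists_ne (0 : W)
  have h5 : (r : F) • w = 0 := by
    have h6 := congrArg (fun f : W →ₗ[F] W => f w) h4
    simp only [zero_mul, pow_zero, mul_one, Finset.sum_const, Finset.card_range,
      LinearMap.zero_apply, LinearMap.smul_apply, Module.End.one_apply] at h6
    rw [Nat.cast_smul_eq_nsmul]
    exact h6.symm
  rcases smul_eq_zero.1 h5 with h | h
  · exact hr h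
  · exact hw h

theorem card_le_pow_aux {r : ℕ} (hrp : r.Prime) (hr : (r : F) ≠ 0) (n : ℕ) :
    ∀ (E : Type) [CommGroup E] [Finite E], (∀ e : E, e ^ r = 1) →
    ∀ (W : Type) [AddCommGroup W] [Module F W] [FiniteDimensional F W] (ψ : E →* (W →ₗ[F] W)ˣ),
      Function.Injective ψ → Module.finrank F W = n → Nat.card E ≤ r ^ n := by
  have hr2 : 2 ≤ r := hrp.two_le
  induction n using Nat.strong_induction_on with
  | _ n ih =>
    intro E _ _ hE W _ _ _ ψ hψ hn
    by_cases hW : Subsingleton W
    · have h1 : Subsingleton E := by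
        refine ⟨fun a b => hψ ?_⟩
        ext v
        exact Subsingleton.elim _ _
      rw [Nat.card_of_subsingleton (1 : E)]
      exact Nat.one_le_pow _ _ (by omega)
    rw [not_subsingleton_iff_nontrivial] at hW
    have hn0 : 0 < n := by
      rw [← hn]
      exact Module.finrank_pos
    by_cases hcard : Nat.card E ≤ r
    · exact hcard.trans (by
        calc r = r ^ 1 := (pow_one r).symm
          _ ≤ r ^ n := Nat.pow_le_pow_right (by omega) hn0)
    push Not at hcard
    -- two independent elements
    have hE1 : ∃ a : E, a ≠ 1 := by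
      by_contra hc
      push Not at hc
      have : Nat.card E = 1 := by
        rw [Nat.card_eq_one_iff_unique]
        exact ⟨⟨fun x y => by rw [hc x, hc y]⟩, ⟨1⟩⟩
      omega
    obtain ⟨a, ha⟩ := hE1
    have : Fact r.Prime := ⟨hrp⟩
    have hao : orderOf a = r := orderOf_eq_prime (hE a) ha
    have hE2 : ∃ b : E, b ∉ Subgroup.zpowers a := by
      by_contra hc
      push Not at hc
      have h1 : Subgroup.zpowers a = ⊤ := by
        rw [eq_top_iff]
        intro x _
        exact hc x
      have h2 : Nat.card (Subgroup.zpowers a) = r := by rw [Nat.card_zpowers, hao]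
      rw [h1, Subgroup.card_top] at h2
      omega
    obtain ⟨b, hb⟩ := hE2
    have hψpow : ∀ (e : E) (i : ℕ), ((ψ e).val) ^ i = (ψ (e ^ i)).val := by
      intro e i
      rw [map_pow, Units.val_pow_eq_pow_val]
    have hcomm : Commute (ψ a).val (ψ b).val := by
      unfold Commute SemiconjBy
      rw [← Units.val_mul, ← Units.val_mul, ← map_mul, ← map_mul, mul_comm a b]
    obtain ⟨i, j, hi, hj, hij, hker⟩ := exists_fixed (W := W) hr2 hr hcomm
      (by rw [hψpow, hE, map_one, Units.val_one]) (by rw [hψpow, hE, map_one, Units.val_one])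
    set e : E := a ^ i * b ^ j with he
    have hval : (ψ a).val ^ i * (ψ b).val ^ j = (ψ e).val := by
      rw [hψpow, hψpow, ← Units.val_mul, ← map_mul]
    rw [hval] at hker
    have he1 : e ≠ 1 := by
      intro h1
      by_cases hj0 : j = 0
      · have hi0 : i ≠ 0 := fun h => hij ⟨h, hj0⟩
        rw [he, hj0, pow_zero, mul_one] at h1
        have := orderOf_dvd_of_pow_eq_one h1
        rw [hao] at this
        exact absurd (Nat.le_of_dvd (by omega) this) (by omega)
      · have h2 : b ^ j ∈ Subgroup.zpowers a := by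
          have : b ^ j = (a ^ i)⁻¹ := by
            rw [eq_inv_iff_mul_eq_one, mul_comm]
            exact h1
          rw [this]
          exact Subgroup.inv_mem _ (Subgroup.npow_mem_zpowers a i)
        apply hb
        have hcop : Nat.Coprime j r := by
          rw [Nat.coprime_comm, hrp.coprime_iff_not_dvd]
          intro h
          exact absurd (Nat.le_of_dvd (by omega) h) (by omega)
        obtain ⟨k, hk⟩ := Nat.exists_mul_mod_eq_one_of_coprime hcop (by omega : 1 < r)
        have h3 : (b ^ j) ^ k = b := by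
          rw [← pow_mul]
          have h4 : b ^ (j * k) = b ^ ((j * k) % r) := by
            rw [pow_eq_pow_mod (j * k) (hE b)]
          rw [h4, hk.2, pow_one]
        rw [← h3]
        exact Subgroup.pow_mem _ h2 k
    -- the two invariant subspaces
    set f : W →ₗ[F] W := (ψ e).val with hf
    have hfr : f ^ r = 1 := by rw [hf, hψpow, hE, map_one, Units.val_one]
    have hcom : ∀ c : E, (ψ c).val * f = f * (ψ c).val := by
      intro c
      rw [hf, ← Units.val_mul, ← Units.val_mul, ← map_mul, ← map_mul, mul_comm c e]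
    have hcom' : ∀ (c : E) (v : W), (ψ c).val (f v) = f ((ψ c).val v) := by
      intro c v
      rw [← Module.End.mul_apply, hcom, Module.End.mul_apply]
    have hp1 : ∀ (c : E) (v : W), v ∈ LinearMap.ker (1 - f) →
        (ψ c).val v ∈ LinearMap.ker (1 - f) := by
      intro c v hv
      rw [LinearMap.mem_ker, LinearMap.sub_apply, Module.End.one_apply, sub_eq_zero] at hv ⊢
      rw [← hcom', ← hv]
    have hp2 : ∀ (c : E) (v : W), v ∈ LinearMap.range (1 - f) →
        (ψ c).val v ∈ LinearMap.range (1 - f) := by
      rintro c v ⟨w, rfl⟩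
      refine ⟨(ψ c).val w, ?_⟩
      rw [LinearMap.sub_apply, LinearMap.sub_apply, Module.End.one_apply, Module.End.one_apply,
        map_sub, hcom']
    have hdim : Module.finrank F (LinearMap.range (1 - f)) +
        Module.finrank F (LinearMap.ker (1 - f)) = n := by
      rw [LinearMap.finrank_range_add_finrank_ker, hn]
    have hk0 : 0 < Module.finrank F (LinearMap.ker (1 - f)) := by
      rw [Module.finrank_pos_iff, Submodule.nontrivial_iff_ne_bot]
      exact hker
    have hr0 : 0 < Module.finrank F (LinearMap.range (1 - f)) := by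
      rw [Module.finrank_pos_iff, Submodule.nontrivial_iff_ne_bot]
      intro h
      rw [LinearMap.range_eq_bot, sub_eq_zero] at h
      apply he1
      apply hψ
      rw [map_one]
      ext1
      rw [Units.val_one]
      exact h.symm
    set ψ1 := resHom ψ (LinearMap.ker (1 - f)) hp1 with hψ1
    set ψ2 := resHom ψ (LinearMap.range (1 - f)) hp2 with hψ2
    have hc1 : Nat.card (E ⧸ ψ1.ker) ≤ r ^ Module.finrank F (LinearMap.ker (1 - f)) := by
      refine ih _ (by omega) (E ⧸ ψ1.ker) (fun q => ?_) (LinearMap.ker (1 - f))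
        (QuotientGroup.kerLift ψ1) (QuotientGroup.kerLift_injective ψ1) rfl
      obtain ⟨c, rfl⟩ := QuotientGroup.mk_surjective q
      rw [← QuotientGroup.mk_pow, hE, QuotientGroup.mk_one]
    have hc2 : Nat.card ψ1.ker ≤ r ^ Module.finrank F (LinearMap.range (1 - f)) := by
      refine ih _ (by omega) ψ1.ker (fun c => ?_) (LinearMap.range (1 - f))
        (ψ2.comp ψ1.ker.subtype) ?_ rfl
      · ext
        rw [Subgroup.coe_pow, hE, Subgroup.coe_one]
      · rw [injective_iff_map_eq_one]
        rintro ⟨c, hc⟩ h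
        rw [MonoidHom.mem_ker, hψ1, resHom_eq_one] at hc
        rw [MonoidHom.comp_apply, Subgroup.coe_subtype, hψ2, resHom_eq_one] at h
        have h1 : c = 1 := by
          apply hψ
          rw [map_one]
          ext v
          have h2 : v = (v - avg r f v) + avg r f v := by abel
          rw [h2, map_add, h _ (sub_avg_mem hr v), hc _ (avg_mem_ker hfr v)]
          rfl
        ext
        exact h1
    rw [Subgroup.card_eq_card_quotient_mul_card_subgroup ψ1.ker, ← hdim, pow_add, mul_comm]
    exact Nat.mul_le_mul hc2 hc1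

/-- A finite group of exponent `r` of linear maps with `rank (1 - e) ≤ D` has at most `r ^ D`
elements. -/
theorem card_le_pow {r : ℕ} (hrp : r.Prime) (hr : (r : F) ≠ 0) {D : ℕ}
    {E : Type} [CommGroup E] [Finite E] (hE : ∀ e : E, e ^ r = 1)
    {V : Type} [AddCommGroup V] [Module F V] (ψ : E →* (V →ₗ[F] V)ˣ)
    (hψ : Function.Injective ψ)
    (hfin : ∀ e : E, FiniteDimensional F (LinearMap.range (1 - (ψ e).val)))
    (hD : ∀ e : E, Module.finrank F (LinearMap.range (1 - (ψ e).val)) ≤ D) :
    Nat.card E ≤ r ^ D := by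
  obtain ⟨e, he⟩ := Finite.exists_max
    fun e : E => Module.finrank F (LinearMap.range (1 - (ψ e).val))
  set f : V →ₗ[F] V := (ψ e).val with hf
  have hψpow : ∀ (e : E) (i : ℕ), ((ψ e).val) ^ i = (ψ (e ^ i)).val := by
    intro e i
    rw [map_pow, Units.val_pow_eq_pow_val]
  have hfr : f ^ r = 1 := by rw [hf, hψpow, hE, map_one, Units.val_one]
  have hcom : ∀ c : E, (ψ c).val * f = f * (ψ c).val := by
    intro c
    rw [hf, ← Units.val_mul, ← Units.val_mul, ← map_mul, ← map_mul, mul_comm c e]
  have hcom' : ∀ (c : E) (v : V), (ψ c).val (f v) = f ((ψ c).val v) := by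
    intro c v
    rw [← Module.End.mul_apply, hcom, Module.End.mul_apply]
  have hp2 : ∀ (c : E) (v : V), v ∈ LinearMap.range (1 - f) →
      (ψ c).val v ∈ LinearMap.range (1 - f) := by
    rintro c v ⟨w, rfl⟩
    refine ⟨(ψ c).val w, ?_⟩
    rw [LinearMap.sub_apply, LinearMap.sub_apply, Module.End.one_apply, Module.End.one_apply,
      map_sub, hcom']
  have := hfin e
  have hinj : Function.Injective (resHom ψ (LinearMap.range (1 - f)) hp2) := by
    rw [injective_iff_map_eq_one]
    intro c hc
    rw [resHom_eq_one] at hc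
    -- `c` is trivial on the fixed space of `f`
    have hker : ∀ v ∈ LinearMap.ker (1 - f), (ψ c).val v = v := by
      by_contra hcon
      push Not at hcon
      obtain ⟨v, hv, hcv⟩ := hcon
      have hv' : f v = v := by
        rw [LinearMap.mem_ker, LinearMap.sub_apply, Module.End.one_apply, sub_eq_zero] at hv
        exact hv.symm
      have h1 : LinearMap.range (1 - f) ≤ LinearMap.range (1 - (ψ (c * e)).val) := by
        rintro w ⟨y, rfl⟩
        -- the average of `y` is fixed, so we may replace `y` by `y - avg y` in the range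
        refine ⟨y - avg r f y, ?_⟩
        have h2 : y - avg r f y ∈ LinearMap.range (1 - f) := sub_avg_mem hr y
        have h3 : f (y - avg r f y) ∈ LinearMap.range (1 - f) := hp2 e _ h2
        rw [LinearMap.sub_apply, Module.End.one_apply, map_mul, Units.val_mul,
          Module.End.mul_apply, ← hf, hc _ h3, map_sub, ← Module.End.mul_apply f, mul_avg hfr,
          LinearMap.sub_apply, Module.End.one_apply]
        abel
      have h4 : v - (ψ c).val v ∈ LinearMap.range (1 - (ψ (c * e)).val) := by
        refine ⟨v, ?_⟩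
        rw [LinearMap.sub_apply, Module.End.one_apply, map_mul, Units.val_mul,
          Module.End.mul_apply, ← hf, hv']
      have h5 : v - (ψ c).val v ∉ LinearMap.range (1 - f) := by
        intro h6
        have h7 : v - (ψ c).val v ∈ LinearMap.ker (1 - f) := by
          rw [LinearMap.mem_ker, LinearMap.sub_apply, Module.End.one_apply, map_sub, ← hcom', hv',
            sub_self]
        have h8 := (Submodule.disjoint_def.1 (disjoint_ker_range hr hfr)) _ h7 h6
        rw [sub_eq_zero] at h8
        exact hcv h8.symm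
      have := hfin (c * e)
      have h9 : LinearMap.range (1 - f) < LinearMap.range (1 - (ψ (c * e)).val) :=
        lt_of_le_of_ne h1 fun h => h5 (by rw [h]; exact h4)
      have h10 := Submodule.finrank_lt_finrank_of_lt h9
      have h11 := he (c * e)
      omega
    apply hψ
    rw [map_one]
    ext v
    have h2 : v = (v - avg r f v) + avg r f v := by abel
    rw [h2, map_add, hc _ (sub_avg_mem hr v), hker _ (avg_mem_ker hfr v)]
    rfl
  refine (card_le_pow_aux hrp hr _ E hE _ _ hinj rfl).trans ?_
  apply Nat.pow_le_pow_right hrp.pos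
  exact hD e

end Pool.Agent.Lib.MP_b9166b_al.Rg
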