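import Pool.Agent.Lib.MP_b9166b_al.Rg.Blk

/-!
# MP_b9166b_al, REG: the functional in multiplicative form, and commutators with central values
-/

set_option autoImplicit false

namespace Pool.Agent.Lib.MP_b9166b_al.Rg

/-- the linear map of the additive group given by a multiplicative automorphism -/
def aut (p : ℕ) {M : Type} [CommGroup M] [Module (ZMod p) (Additive M)] :
    MulAut M →* Module.End (ZMod p) (Additive M) where
  toFun f := (MonoidHom.toAdditive f.toMonoidHom).toZModLinearMap p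
  map_one' := by
    ext x
    rfl
  map_mul' f g := by
    ext x
    rfl

namespace Blk

variable {A B : Type} [Group A] [DecidableEq B] {s : ℕ} (Δ : Blk A B s)

/-- the element and the functional, multiplicative form -/
theorem exists_char [Fintype B] (hs : 2 ≤ s) {p : ℕ} [hp : Fact p.Prime]
    (hsp : (s : ZMod p) ≠ 0) {M : Type} [CommGroup M] (hM : ∀ m : M, m ^ p = 1)
    (ρ₀ : A →* MulAut M) (hnt : ∃ (a : A) (m : M), ρ₀ a m ≠ m)
    {B₀ : Finset B} (hcard : B₀.card + 3 ≤ Fintype.card B) {b₀ : B} (hb₀ : b₀ ∉ B₀) :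
    ∃ m : M, (∀ b ∈ B₀, ρ₀ (Δ.e b) m = m) ∧ (∏ i ∈ Finset.range s, ρ₀ (Δ.e b₀ ^ i) m = 1) ∧
      ∃ χ : M → ZMod p, (∀ a b, χ (a * b) = χ a + χ b) ∧ χ m = 1 ∧
        ∀ u, ρ₀ (Δ.e b₀) u = u → χ u = 0 := by
  let _ : Module (ZMod p) (Additive M) := AddCommGroup.zmodModule (n := p) fun x => hM x.toMul
  obtain ⟨a, m₀, hm₀⟩ := hnt
  obtain ⟨m, h1, h2, χ, h3, h4⟩ := Δ.exists_functional (K := ZMod p) (V := Additive M)
    ((aut p).comp ρ₀) hs hsp ⟨a, Additive.ofMul m₀, fun h => hm₀ h⟩ hcard hb₀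
  refine ⟨m.toMul, fun b hb => h1 b hb, ?_, fun x => χ (Additive.ofMul x), ?_, h3,
    fun u hu => h4 (Additive.ofMul u) hu⟩
  · have h5 : Additive.ofMul (∏ i ∈ Finset.range s, ρ₀ (Δ.e b₀ ^ i) m.toMul) = 0 := by
      rw [ofMul_prod]
      exact h2
    exact h5
  · intro x y
    exact map_add χ (Additive.ofMul x) (Additive.ofMul y)

end Blk

section Comm

open scoped IsMulCommutative

variable {L : Type} [Group L]

/-- the elements which commute with `u` modulo the centre -/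
def kc (u : L) : Subgroup L where
  carrier := {a | a * u * a⁻¹ * u⁻¹ ∈ Subgroup.center L}
  one_mem' := by
    simp only [Set.mem_ofPred_eq, one_mul, inv_one, mul_one, mul_inv_cancel]
    exact Subgroup.one_mem _
  mul_mem' := by
    intro a b ha hb
    have h1 : a * b * u * (a * b)⁻¹ * u⁻¹ =
        (b * u * b⁻¹ * u⁻¹) * (a * u * a⁻¹ * u⁻¹) := by
      have h2 := (Subgroup.mem_center_iff.1 hb) a
      calc a * b * u * (a * b)⁻¹ * u⁻¹
          = (a * (b * u * b⁻¹ * u⁻¹)) * (u * a⁻¹ * u⁻¹) := by group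
        _ = ((b * u * b⁻¹ * u⁻¹) * a) * (u * a⁻¹ * u⁻¹) := by rw [h2]
        _ = _ := by group
    change a * b * u * (a * b)⁻¹ * u⁻¹ ∈ Subgroup.center L
    rw [h1]
    exact Subgroup.mul_mem _ hb ha
  inv_mem' := by
    intro a ha
    have h1 : a⁻¹ * u * a⁻¹⁻¹ * u⁻¹ = (a * u * a⁻¹ * u⁻¹)⁻¹ := by
      have h2 := (Subgroup.mem_center_iff.1 (Subgroup.inv_mem _ ha)) a
      have h3 : a * ((a * u * a⁻¹ * u⁻¹)⁻¹) = a * (a⁻¹ * u * a⁻¹⁻¹ * u⁻¹) := by
        rw [h2]
        group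
      exact (mul_left_cancel h3).symm
    change a⁻¹ * u * a⁻¹⁻¹ * u⁻¹ ∈ Subgroup.center L
    rw [h1]
    exact Subgroup.inv_mem _ ha

/-- the commutator with `u`, a homomorphism to the centre -/
def kh (u : L) : kc u →* Subgroup.center L where
  toFun a := ⟨a.1 * u * a.1⁻¹ * u⁻¹, a.2⟩
  map_one' := by
    apply Subtype.ext
    simp
  map_mul' a b := by
    apply Subtype.ext
    have h2 := (Subgroup.mem_center_iff.1 b.2) a.1
    have h3 := (Subgroup.mem_center_iff.1 b.2) (a.1 * u * a.1⁻¹ * u⁻¹)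
    change a.1 * b.1 * u * (a.1 * b.1)⁻¹ * u⁻¹ =
      (a.1 * u * a.1⁻¹ * u⁻¹) * (b.1 * u * b.1⁻¹ * u⁻¹)
    rw [h3]
    calc a.1 * b.1 * u * (a.1 * b.1)⁻¹ * u⁻¹
        = (a.1 * (b.1 * u * b.1⁻¹ * u⁻¹)) * (u * a.1⁻¹ * u⁻¹) := by group
      _ = ((b.1 * u * b.1⁻¹ * u⁻¹) * a.1) * (u * a.1⁻¹ * u⁻¹) := by rw [h2]
      _ = _ := by group

theorem kh_coe (u : L) (a : kc u) : (kh u a : L) = a.1 * u * a.1⁻¹ * u⁻¹ := rfl

theorem kh_eq_one_of_center {u : L} {a : kc u} (ha : a.1 ∈ Subgroup.center L) : kh u a = 1 := by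
  apply Subtype.ext
  rw [kh_coe, (Subgroup.mem_center_iff.1 ha u).symm]
  simp

/-- Gruen: in a perfect group an element which is central modulo the centre is central -/
theorem center_of_comm (hL : commutator L = ⊤) {x : L}
    (hx : ∀ g : L, g * x * g⁻¹ * x⁻¹ ∈ Subgroup.center L) : x ∈ Subgroup.center L := by
  let f : L →* Subgroup.center L := (kh x).comp
    { toFun := fun g => ⟨g, hx g⟩, map_one' := rfl, map_mul' := fun _ _ => rfl }
  have h1 : commutator L ≤ f.ker := Abelianization.commutator_subset_ker f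
  rw [hL] at h1
  rw [Subgroup.mem_center_iff]
  intro g
  have h2 : f g = 1 := h1 (Subgroup.mem_top g)
  have h3 : g * x * g⁻¹ * x⁻¹ = 1 := congrArg Subtype.val h2
  rw [mul_inv_eq_one, mul_inv_eq_iff_eq_mul] at h3
  exact h3

/-- a norm which is central forces commutation -/
theorem comm_of_norm {y u δ : L} {s p : ℕ} (hsp : Nat.Coprime s p)
    (hy : y * u * y⁻¹ * u⁻¹ ∈ Subgroup.center L) (hδ : δ * u * δ⁻¹ * u⁻¹ ∈ Subgroup.center L)
    (hN : (List.map (fun i => δ ^ i * y * (δ ^ i)⁻¹) (List.range s)).prod ∈ Subgroup.center L)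
    (hp : y ^ p ∈ Subgroup.center L) : Commute y u := by
  let Y : kc u := ⟨y, hy⟩
  let D : kc u := ⟨δ, hδ⟩
  have h1 : kh u Y ^ p = 1 := by
    rw [← map_pow]
    exact kh_eq_one_of_center hp
  have h2 : kh u Y ^ s = 1 := by
    have h3 : kh u ((List.map (fun i => D ^ i * Y * (D ^ i)⁻¹) (List.range s)).prod) = 1 := by
      apply kh_eq_one_of_center
      have h4 : (((List.map (fun i => D ^ i * Y * (D ^ i)⁻¹) (List.range s)).prod : kc u) : L) =
          (List.map (fun i => δ ^ i * y * (δ ^ i)⁻¹) (List.range s)).prod := by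
        rw [← Subgroup.coe_subtype, map_list_prod, List.map_map]
        rfl
      rw [h4]
      exact hN
    rw [map_list_prod, List.map_map] at h3
    have h5 : (kh u ∘ fun i => D ^ i * Y * (D ^ i)⁻¹) = fun _ => kh u Y := by
      funext i
      rw [Function.comp_apply, map_mul, map_mul, map_inv, mul_comm (kh u (D ^ i)),
        mul_assoc, mul_inv_cancel, mul_one]
    rw [h5, List.map_const', List.prod_replicate, List.length_range] at h3
    exact h3
  have h3 : kh u Y = 1 := by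
    have h4 : orderOf (kh u Y) ∣ Nat.gcd s p :=
      Nat.dvd_gcd (orderOf_dvd_of_pow_eq_one h2) (orderOf_dvd_of_pow_eq_one h1)
    rw [hsp, Nat.dvd_one] at h4
    exact orderOf_eq_one_iff.1 h4
  have h4 : y * u * y⁻¹ * u⁻¹ = 1 := congrArg Subtype.val h3
  rw [mul_inv_eq_one, mul_inv_eq_iff_eq_mul] at h4
  exact h4

end Comm

end Pool.Agent.Lib.MP_b9166b_al.Rg
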