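import Pool.Agent.Lib.MP_b9166b_al.Rg.CovA
import Pool.Agent.Lib.MP_b9166b_al.Rg.BlkM

/-!
# MP_b9166b_al, REG: covers with regular orbits, nilpotent kernel not in the centre
-/

set_option autoImplicit false

namespace Pool.Agent.Lib.MP_b9166b_al.Rg

open Equiv Equiv.Perm

theorem via_conj {X Ω : Type} [Fintype X] [DecidableEq X] [Fintype Ω] [DecidableEq Ω]
    (j : X ↪ Ω) {τ : Perm Ω} {Θ : Perm X} (h : ∀ x, τ (j x) = j (Θ x)) (d : Perm X) :
    τ * viaEmbeddingHom j d * τ⁻¹ = viaEmbeddingHom j (Θ * d * Θ⁻¹) := by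
  rw [mul_inv_eq_iff_eq_mul]
  apply Equiv.ext
  intro y
  rw [Perm.mul_apply, Perm.mul_apply]
  by_cases hy : ∃ x, j x = y
  · obtain ⟨x, rfl⟩ := hy
    rw [via_apply, h, h, via_apply, ← Perm.mul_apply (Θ * d * Θ⁻¹), inv_mul_cancel_right,
      Perm.mul_apply]
  · push Not at hy
    rw [via_apply_of_notMem j d hy, via_apply_of_notMem]
    intro x hx
    apply hy (Θ⁻¹ x)
    apply τ.injective
    rw [h, ← Perm.mul_apply, mul_inv_cancel, Perm.one_apply, hx]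

variable {Γ L : Type} [Group Γ] [Group L] [Fintype Γ] [DecidableEq Γ] {k : ℕ}

section Emb

variable {s : ℕ} (κ : (Fin 3 × (ZMod s × ZMod s)) ⊕ Bool ↪ Fin k)

/-- the embedding of the blocks -/
def jb : ((Γ × Fin 3) × (ZMod s × ZMod s)) ↪ Γ × Fin k :=
  ⟨fun x => (x.1.1, κ (Sum.inl (x.1.2, x.2))), by
    rintro ⟨⟨g, i⟩, e⟩ ⟨⟨g', i'⟩, e'⟩ h
    have h1 : g = g' := congrArg Prod.fst h
    have h2 := Sum.inl_injective (κ.injective (congrArg Prod.snd h))
    have h3 : i = i' := congrArg Prod.fst h2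
    have h4 : e = e' := congrArg Prod.snd h2
    rw [h1, h3, h4]⟩

theorem jb_ne (x : (Γ × Fin 3) × (ZMod s × ZMod s)) (t : Bool) :
    jb κ x ≠ ((1 : Γ), κ (Sum.inr t)) := by
  intro h
  have h1 := κ.injective (congrArg Prod.snd h)
  exact absurd h1 (by simp)

/-- the system of blocks of a cover -/
noncomputable def db [Fact s.Prime] (h5 : 5 ≤ Nat.card (Γ × Fin k)) :
    Blk (alternatingGroup (Γ × Fin k)) (Γ × Fin 3) s :=
  blkAlt (jb κ) (a := ((1 : Γ), κ (Sum.inr false))) (b := ((1 : Γ), κ (Sum.inr true)))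
    (fun h => absurd (κ.injective (congrArg Prod.snd h)) (by simp))
    (fun x => jb_ne κ x false) (fun x => jb_ne κ x true) h5

theorem db_e [Fact s.Prime] (h5 : 5 ≤ Nat.card (Γ × Fin k)) (b : Γ × Fin 3) :
    ((db κ h5).e b : Perm (Γ × Fin k)) = viaEmbeddingHom (jb κ) (bt (Pi.single b (1, 0))) := rfl

theorem db_tr [Fact s.Prime] (h5 : 5 ≤ Nat.card (Γ × Fin k)) (h g : Γ) (i : Fin 3) :
    tr h * ((db κ h5).e (g, i) : Perm (Γ × Fin k)) * (tr h)⁻¹ =
      ((db κ h5).e (h * g, i) : Perm (Γ × Fin k)) := by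
  rw [db_e, db_e, via_conj (jb κ) (Θ := Equiv.prodCongr (tr h : Perm (Γ × Fin 3)) (Equiv.refl _))
    (fun x => rfl), bt_perm]
  congr 2
  funext x
  rw [Function.comp_apply]
  by_cases hx : x = (h * g, i)
  · subst hx
    have h1 : (tr h : Perm (Γ × Fin 3)).symm (h * g, i) = (g, i) := by
      rw [Equiv.symm_apply_eq, tr_apply]
    rw [h1, Pi.single_eq_same, Pi.single_eq_same]
  · rw [Pi.single_eq_of_ne hx, Pi.single_eq_of_ne]
    intro h1
    apply hx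
    rw [Equiv.symm_apply_eq, tr_apply] at h1
    exact h1

end Emb

namespace Cov

variable (c : Cov Γ L k)

theorem ker_inv (h : Γ) {n : L} (hn : n ∈ c.π.ker) : c.φ h n ∈ c.π.ker := by
  rw [MonoidHom.mem_ker] at hn ⊢
  rw [c.equi, hn, mul_one, mul_inv_cancel]

theorem center_inv (h : Γ) {n : L} (hn : n ∈ Subgroup.center L) : c.φ h n ∈ Subgroup.center L := by
  rw [Subgroup.mem_center_iff] at hn ⊢
  intro g
  have h1 := hn ((c.φ h).symm g)
  have h2 := congrArg (c.φ h) h1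
  rwa [map_mul, map_mul, MulEquiv.apply_symm_apply] at h2

/-- the homomorphism to the alternating group -/
def πA : L →* alternatingGroup (Γ × Fin k) :=
  c.π.codRestrict (alternatingGroup (Γ × Fin k)) fun g => by
    rw [← c.range]
    exact ⟨g, rfl⟩

theorem πA_coe (g : L) : (c.πA g : Perm (Γ × Fin k)) = c.π g := rfl

theorem πA_surjective : Function.Surjective c.πA := by
  rintro ⟨σ, hσ⟩
  rw [← c.range] at hσ
  obtain ⟨g, hg⟩ := hσ
  exact ⟨g, Subtype.ext hg⟩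

/-- the automorphisms induced on the quotient by the centre -/
def ψ (h : Γ) : L ⧸ Subgroup.center L →* L ⧸ Subgroup.center L :=
  QuotientGroup.map _ _ (c.φ h).toMonoidHom fun _ hn => c.center_inv h hn

theorem ψ_mk (h : Γ) (x : L) :
    c.ψ h (QuotientGroup.mk' _ x) = QuotientGroup.mk' _ (c.φ h x) := rfl

/-- the image of the kernel in the quotient by the centre -/
def Pb : Subgroup (L ⧸ Subgroup.center L) := c.π.ker.map (QuotientGroup.mk' _)

theorem Pb_normal : c.Pb.Normal :=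
  Subgroup.Normal.map inferInstance _ (QuotientGroup.mk'_surjective _)

theorem ψ_Pb (h : Γ) {x : L ⧸ Subgroup.center L} (hx : x ∈ c.Pb) : c.ψ h x ∈ c.Pb := by
  obtain ⟨n, hn, rfl⟩ := hx
  rw [c.ψ_mk]
  exact ⟨_, c.ker_inv h hn, rfl⟩

theorem ψ_ψ (h h' : Γ) (x : L ⧸ Subgroup.center L) : c.ψ h (c.ψ h' x) = c.ψ (h * h') x := by
  obtain ⟨x, rfl⟩ := QuotientGroup.mk'_surjective _ x
  rw [c.ψ_mk, c.ψ_mk, c.ψ_mk, map_mul, MulAut.mul_apply]

theorem ψ_one (x : L ⧸ Subgroup.center L) : c.ψ 1 x = x := by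
  obtain ⟨x, rfl⟩ := QuotientGroup.mk'_surjective _ x
  rw [c.ψ_mk, map_one, MulAut.one_apply]

/-- the elements of order `p` in the centre of the image of the kernel -/
def M₀ (p : ℕ) : Subgroup (L ⧸ Subgroup.center L) where
  carrier := {x | x ∈ c.Pb ∧ (∀ r ∈ c.Pb, r * x = x * r) ∧ x ^ p = 1}
  one_mem' := ⟨c.Pb.one_mem, fun r _ => by rw [mul_one, one_mul], one_pow p⟩
  mul_mem' := by
    rintro a b ⟨ha, ha', ha''⟩ ⟨hb, hb', hb''⟩
    refine ⟨c.Pb.mul_mem ha hb, fun r hr => ?_, ?_⟩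
    · rw [← mul_assoc, ha' r hr, mul_assoc, hb' r hr, mul_assoc]
    · have h : Commute a b := hb' a ha
      rw [h.mul_pow, ha'', hb'', one_mul]
  inv_mem' := by
    rintro a ⟨ha, ha', ha''⟩
    refine ⟨c.Pb.inv_mem ha, fun r hr => ?_, ?_⟩
    · have h : Commute r a := ha' r hr
      exact h.inv_right.eq
    · rw [inv_pow, ha'', inv_one]

theorem M₀_normal (p : ℕ) : (c.M₀ p).Normal := by
  refine ⟨?_⟩
  rintro x ⟨hx, hx', hx''⟩ g
  refine ⟨c.Pb_normal.conj_mem x hx g, fun r hr => ?_, ?_⟩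
  · have h1 := hx' (g⁻¹ * r * g) (by
      have h2 := c.Pb_normal.conj_mem r hr g⁻¹
      rwa [inv_inv] at h2)
    calc r * (g * x * g⁻¹) = g * ((g⁻¹ * r * g) * x) * g⁻¹ := by group
      _ = g * (x * (g⁻¹ * r * g)) * g⁻¹ := by rw [h1]
      _ = _ := by group
  · rw [conj_pow, hx'', mul_one, mul_inv_cancel]

theorem M₀_comm (p : ℕ) {a b : L ⧸ Subgroup.center L} (ha : a ∈ c.M₀ p) (hb : b ∈ c.M₀ p) :
    a * b = b * a := hb.2.1 a ha.1

theorem ψ_M₀ (p : ℕ) (h : Γ) {x : L ⧸ Subgroup.center L} (hx : x ∈ c.M₀ p) :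
    c.ψ h x ∈ c.M₀ p := by
  refine ⟨c.ψ_Pb h hx.1, fun r hr => ?_, ?_⟩
  · have h1 := hx.2.1 (c.ψ h⁻¹ r) (c.ψ_Pb h⁻¹ hr)
    have h2 := congrArg (c.ψ h) h1
    rwa [map_mul, map_mul, c.ψ_ψ, mul_inv_cancel, c.ψ_one] at h2
  · rw [← map_pow, hx.2.2, map_one]

/-- the action on `M₀` -/
def ρL (p : ℕ) : L →* MulAut (c.M₀ p) :=
  haveI := c.M₀_normal p
  (MulAut.conjNormal (H := c.M₀ p)).comp (QuotientGroup.mk' _)

theorem ρL_coe (p : ℕ) (g : L) (m : c.M₀ p) :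
    ((c.ρL p g m : c.M₀ p) : L ⧸ Subgroup.center L) =
      QuotientGroup.mk' (Subgroup.center L) g * m * (QuotientGroup.mk' (Subgroup.center L) g)⁻¹ := by
  have := c.M₀_normal p
  exact MulAut.conjNormal_apply _ _

theorem ker_le (p : ℕ) : c.πA.ker ≤ (c.ρL p).ker := by
  intro n hn
  rw [MonoidHom.mem_ker] at hn ⊢
  have h1 : n ∈ c.π.ker := by
    rw [MonoidHom.mem_ker, ← πA_coe, hn]
    rfl
  ext m
  rw [ρL_coe, MulAut.one_apply, m.2.2.1 _ ⟨n, h1, rfl⟩, mul_inv_cancel_right]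

/-- the action of the alternating group on `M₀` -/
noncomputable def ρ₀ (p : ℕ) : alternatingGroup (Γ × Fin k) →* MulAut (c.M₀ p) :=
  c.πA.liftOfSurjective c.πA_surjective ⟨c.ρL p, c.ker_le p⟩

theorem ρ₀_apply (p : ℕ) (g : L) : c.ρ₀ p (c.πA g) = c.ρL p g :=
  MonoidHom.liftOfRightInverse_comp_apply _ _ _ _ _

theorem ρ₀_coe (p : ℕ) {g : L} {a : alternatingGroup (Γ × Fin k)} (h : c.π g = a) (m : c.M₀ p) :
    ((c.ρ₀ p a m : c.M₀ p) : L ⧸ Subgroup.center L) =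
      QuotientGroup.mk' (Subgroup.center L) g * m * (QuotientGroup.mk' (Subgroup.center L) g)⁻¹ := by
  have h1 : a = c.πA g := Subtype.ext h.symm
  rw [h1, c.ρ₀_apply, c.ρL_coe]

end Cov

end Pool.Agent.Lib.MP_b9166b_al.Rg
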