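import Pool.Agent.Lib.MP_b9166b_al.Rg.Reg

/-!
# MP_b9166b_al, REG: one regular orbit

In an infinite locally finite group one regular orbit for every finite subgroup gives any number of
regular orbits.
-/

set_option autoImplicit false

namespace Pool.Agent.Lib.MP_b9166b_al.Rg

open Equiv Equiv.Perm

variable {G : Type} [Group G]

/-- restriction to many regular orbits -/
theorem rc_of {F : Subgroup G} [Fintype F] [DecidableEq F] {k n : ℕ} (L : Subgroup G)
    [Finite L] (π : L →* Perm (Fin n)) (hrange : alternatingGroup (Fin n) ≤ π.range)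
    (hnil : Group.IsNilpotent π.ker) (θ : F →* Perm (Fin n))
    (hequi : ∀ (h : F) (g : L), ∃ hg : (h : G) * g * (h : G)⁻¹ ∈ L,
      π ⟨(h : G) * g * (h : G)⁻¹, hg⟩ = θ h * π g * (θ h)⁻¹)
    (ι : F × Fin k ↪ Fin n) (hι : ∀ (h : F) (x : F × Fin k), θ h (ι x) = ι (tr h x)) :
    Nonempty (Rc F k) := by
  classical
  let v : Perm (F × Fin k) →* Perm (Fin n) := viaEmbeddingHom ι
  have hv : Function.Injective v := viaEmbeddingHom_injective ι
  let W : Subgroup (Perm (Fin n)) := (alternatingGroup (F × Fin k)).map v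
  let L₁ : Subgroup G := (W.comap π).map L.subtype
  have hle : L₁ ≤ L := Subgroup.map_subtype_le _
  have hmem : ∀ g : L₁, π (Subgroup.inclusion hle g) ∈ W := by
    rintro ⟨_, ⟨g, hg, rfl⟩⟩
    exact hg
  let e : alternatingGroup (F × Fin k) ≃* W := Subgroup.equivMapOfInjective _ v hv
  let π₁ : L₁ →* Perm (F × Fin k) := (alternatingGroup (F × Fin k)).subtype.comp
    (e.symm.toMonoidHom.comp ((π.comp (Subgroup.inclusion hle)).codRestrict W hmem))
  have hπ₁ : ∀ g : L₁, v (π₁ g) = π (Subgroup.inclusion hle g) := by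
    intro g
    exact congrArg Subtype.val (e.apply_symm_apply ⟨π (Subgroup.inclusion hle g), hmem g⟩)
  have hπ₁' : ∀ g : L₁, π₁ g ∈ alternatingGroup (F × Fin k) := by
    intro g
    exact (e.symm ⟨π (Subgroup.inclusion hle g), hmem g⟩).2
  have hθ : ∀ (h : F) (d : Perm (F × Fin k)), θ h * v d * (θ h)⁻¹ = v (tr h * d * (tr h)⁻¹) :=
    fun h d => via_conj ι (hι h) d
  have hnorm : ∀ h ∈ F, ∀ g ∈ L₁, h * g * h⁻¹ ∈ L₁ := by
    rintro h hh _ ⟨g, ⟨d, hd, hd'⟩, rfl⟩
    obtain ⟨hg, h1⟩ := hequi ⟨h, hh⟩ g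
    refine ⟨⟨h * g * h⁻¹, hg⟩, ?_, rfl⟩
    refine ⟨tr ⟨h, hh⟩ * d * (tr ⟨h, hh⟩)⁻¹, ?_, ?_⟩
    · rw [SetLike.mem_coe, mem_alternatingGroup] at hd ⊢
      rw [Perm.sign_mul, Perm.sign_mul, Perm.sign_inv, hd, mul_one]
      exact Int.units_mul_self _
    · rw [← hθ, hd']
      exact h1.symm
  refine ⟨{
    L := L₁
    fin := Finite.of_injective (Subgroup.inclusion hle) (Subgroup.inclusion_injective hle)
    norm := hnorm
    π := π₁
    range := ?_
    nil := ?_
    equi := ?_ }⟩
  · ext σ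
    constructor
    · rintro ⟨g, rfl⟩
      exact hπ₁' g
    · intro hσ
      have h1 : v σ ∈ π.range := by
        apply hrange
        rw [mem_alternatingGroup] at hσ ⊢
        rw [sign_via, hσ]
      obtain ⟨g, hg⟩ := h1
      refine ⟨⟨g, ⟨g, ⟨σ, hσ, hg.symm⟩, rfl⟩⟩, ?_⟩
      apply hv
      rw [hπ₁]
      exact hg
  · have hk : ∀ x : π₁.ker, Subgroup.inclusion hle x.1 ∈ π.ker := by
      intro x
      rw [MonoidHom.mem_ker, ← hπ₁, MonoidHom.mem_ker.1 x.2, map_one]
    let f : π₁.ker →* π.ker := {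
      toFun := fun x => ⟨Subgroup.inclusion hle x.1, hk x⟩
      map_one' := rfl
      map_mul' := fun _ _ => rfl }
    have hf : Function.Injective f := by
      intro x x' hxx
      have h2 : Subgroup.inclusion hle x.1 = Subgroup.inclusion hle x'.1 :=
        congrArg Subtype.val hxx
      exact Subtype.ext (Subgroup.inclusion_injective hle h2)
    refine Subgroup.isNilpotent_of_ker_le_center f ?_
    rw [(MonoidHom.ker_eq_bot_iff f).2 hf]
    exact bot_le
  · intro h g
    apply hv
    rw [← hθ, hπ₁, hπ₁]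
    obtain ⟨hg, h1⟩ := hequi h (Subgroup.inclusion hle g)
    exact h1

theorem regAlt_free (hlf : LocFin G) [Infinite G] (hG : RegAlt G) (F : Subgroup G)
    (hF : Finite F) : ∃ p : ℕ, p.Prime ∧ Nonempty (Free p F) := by
  classical
  have := Fintype.ofFinite F
  obtain ⟨t, ht⟩ := exists_reps F
  let S : Finset G := (Set.toFinite (F : Set G)).toFinset ∪ (Finset.range 29).image t
  let F' : Subgroup G := Subgroup.closure (S : Set G)
  have hF' : Finite F' := hlf S
  have hle : F ≤ F' := by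
    intro x hx
    apply Subgroup.subset_closure
    simp only [S, Finset.coe_union, Set.Finite.coe_toFinset, Set.mem_union, SetLike.mem_coe]
    exact Or.inl hx
  have htF' : ∀ i : Fin 29, t i ∈ F' := by
    intro i
    apply Subgroup.subset_closure
    simp only [S, Finset.coe_union, Finset.coe_image, Set.mem_union]
    exact Or.inr ⟨i, Finset.mem_coe.2 (Finset.mem_range.2 i.2), rfl⟩
  obtain ⟨L, n, π, θ, hfin, hrange, hnil, hequi, w, hw⟩ := hG F' hF'
  have hinj : ∀ a b : F', θ a w = θ b w → a = b := by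
    intro a b hab
    have h1 : θ (b⁻¹ * a) w = w := by
      rw [map_mul, map_inv, Perm.mul_apply, hab, Perm.inv_eq_iff_eq]
    exact (inv_mul_eq_one.1 (hw _ h1)).symm
  let ι : F × Fin 29 ↪ Fin n := ⟨fun x => θ (⟨x.1, hle x.1.2⟩ * ⟨t x.2, htF' x.2⟩) w, by
    rintro ⟨a, i⟩ ⟨b, j⟩ hab
    have h1 := congrArg Subtype.val (hinj _ _ hab)
    change (a : G) * t i = b * t j at h1
    have h2 : t i * (t j)⁻¹ = (a : G)⁻¹ * b := by
      rw [mul_inv_eq_iff_eq_mul, mul_assoc, ← h1, inv_mul_cancel_left]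
    have h3 : i = j := by
      by_contra hij
      apply ht i j (fun h => hij (Fin.ext h))
      rw [h2]
      exact F.mul_mem (F.inv_mem a.2) b.2
    subst h3
    have h4 : a = b := Subtype.ext (mul_right_cancel h1)
    rw [h4]⟩
  obtain ⟨r⟩ := rc_of (F := F) (k := 29) L π hrange hnil (θ.comp (Subgroup.inclusion hle))
    (fun h g => hequi (Subgroup.inclusion hle h) g) ι (by
      rintro h ⟨a, i⟩
      change θ (Subgroup.inclusion hle h) (θ (⟨a, hle a.2⟩ * ⟨t i, htF' i⟩) w) =
        θ (⟨(h * a : F), hle (h * a).2⟩ * ⟨t i, htF' i⟩) w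
      rw [← Perm.mul_apply, ← map_mul, ← mul_assoc]
      rfl)
  exact Rc.exists_free le_rfl r

/-- REG: no element of an infinite locally finite group with regular alternating covers has a
finitary linear centralizer. -/
theorem regAlt (hlf : LocFin G) [Infinite G] (hG : RegAlt G) (x : G) :
    ¬ FinLin (Subgroup.centralizer ({x} : Set G)) :=
  no_finLin hlf (regAlt_free hlf hG) x

end Pool.Agent.Lib.MP_b9166b_al.Rg
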