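import Pool.Agent.Lib.MP_b9166b_al.Rg.Blk

/-!
# MP_b9166b_al, REG: blocks in alternating groups

For an embedding `j : B × (ZMod s × ZMod s) ↪ Ω` and two spare points, the translations of the
blocks form a system of blocks in the alternating group of `Ω`.
-/

set_option autoImplicit false

namespace Pool.Agent.Lib.MP_b9166b_al.Rg

open Equiv Equiv.Perm

theorem sign_addRight_two : ∀ v : ZMod 2 × ZMod 2,
    sign (Equiv.addRight v : Perm (ZMod 2 × ZMod 2)) = 1 := by decide

/-- the translations of the square of a cyclic group are even -/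
theorem sign_addRight {s : ℕ} [hs : Fact s.Prime] (v : ZMod s × ZMod s) :
    sign (Equiv.addRight v) = 1 := by
  rcases hs.1.eq_two_or_odd' with h | h
  · subst h
    convert sign_addRight_two v
  · have h1 : ∀ n : ℕ, (Equiv.addRight v : Perm (ZMod s × ZMod s)) ^ n =
        Equiv.addRight (n • v) := by
      intro n
      induction n with
      | zero =>
        ext x <;> simp
      | succ n ih =>
        rw [pow_succ, ih]
        apply Equiv.ext
        intro x
        rw [Perm.mul_apply, Equiv.coe_addRight, Equiv.coe_addRight, Equiv.coe_addRight, succ_nsmul]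
        change x + v + n • v = x + (n • v + v)
        rw [add_assoc, add_comm v]
    have h2 : (Equiv.addRight v : Perm (ZMod s × ZMod s)) ^ s = 1 := by
      rw [h1]
      have h3 : s • v = 0 := by
        ext <;> simp
      rw [h3]
      apply Equiv.ext
      intro x
      simp
    have h3 : sign (Equiv.addRight v : Perm (ZMod s × ZMod s)) ^ s = 1 := by
      rw [← map_pow, h2, map_one]
    rcases Int.units_eq_one_or (sign (Equiv.addRight v : Perm (ZMod s × ZMod s))) with h4 | h4
    · exact h4
    · rw [h4, h.neg_one_pow] at h3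
      exact absurd h3 (by decide)

/-- every vector `≠ 0` of the plane is moved to `(1, 0)` by an additive bijection -/
theorem exists_addEquiv {s : ℕ} [hs : Fact s.Prime] {v : ZMod s × ZMod s} (hv : v ≠ 0) :
    ∃ γ : (ZMod s × ZMod s) ≃+ (ZMod s × ZMod s), γ v = (1, 0) := by
  by_cases h1 : v.1 = 0
  · have h2 : v.2 ≠ 0 := fun h => hv (Prod.ext h1 h)
    refine ⟨{ toFun := fun x => (v.2⁻¹ * x.2, x.1)
              invFun := fun x => (x.2, v.2 * x.1)
              left_inv := fun x => by
                ext
                · rfl
                · simp only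
                  rw [← mul_assoc, mul_inv_cancel₀ h2, one_mul]
              right_inv := fun x => by
                ext
                · simp only
                  rw [← mul_assoc, inv_mul_cancel₀ h2, one_mul]
                · rfl
              map_add' := fun x y => by
                ext
                · simp only [Prod.fst_add, Prod.snd_add]
                  ring
                · rfl }, ?_⟩
    change (v.2⁻¹ * v.2, v.1) = (1, 0)
    rw [inv_mul_cancel₀ h2, h1]
  · refine ⟨{ toFun := fun x => (v.1⁻¹ * x.1, x.2 - v.1⁻¹ * v.2 * x.1)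
              invFun := fun x => (v.1 * x.1, x.2 + v.2 * x.1)
              left_inv := fun x => by
                ext
                · simp only
                  rw [← mul_assoc, mul_inv_cancel₀ h1, one_mul]
                · simp only
                  ring
              right_inv := fun x => by
                ext
                · simp only
                  rw [← mul_assoc, inv_mul_cancel₀ h1, one_mul]
                · simp only
                  have h3 : v.1⁻¹ * v.2 * (v.1 * x.1) = (v.1⁻¹ * v.1) * (v.2 * x.1) := by ring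
                  rw [h3, inv_mul_cancel₀ h1]
                  ring
              map_add' := fun x y => by
                ext
                · simp only [Prod.fst_add]
                  ring
                · simp only [Prod.fst_add, Prod.snd_add]
                  ring }, ?_⟩
    change (v.1⁻¹ * v.1, v.2 - v.1⁻¹ * v.2 * v.1) = (1, 0)
    have h3 : v.1⁻¹ * v.2 * v.1 = (v.1⁻¹ * v.1) * v.2 := by ring
    rw [h3, inv_mul_cancel₀ h1, one_mul, sub_self]

variable {B : Type} {s : ℕ}

/-- blockwise translation -/
def bt (w : B → ZMod s × ZMod s) : Perm (B × (ZMod s × ZMod s)) :=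
  Equiv.prodCongrRight fun b => Equiv.addRight (w b)

theorem bt_apply (w : B → ZMod s × ZMod s) (b : B) (x : ZMod s × ZMod s) :
    bt w (b, x) = (b, x + w b) := rfl

theorem bt_add (v w : B → ZMod s × ZMod s) : bt (v + w) = bt v * bt w := by
  apply Equiv.ext
  rintro ⟨b, x⟩
  rw [Perm.mul_apply, bt_apply, bt_apply, bt_apply, Pi.add_apply, add_assoc, add_comm (w b)]

theorem sign_bt [Fintype B] [DecidableEq B] [Fact s.Prime] (w : B → ZMod s × ZMod s) :
    sign (bt w) = 1 := by
  rw [bt, sign_prodCongrRight]
  exact Finset.prod_eq_one fun b _ => sign_addRight _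

/-- conjugation of a translation by a permutation of the blocks -/
theorem bt_perm (θ : Perm B) (w : B → ZMod s × ZMod s) :
    (Equiv.prodCongr θ (Equiv.refl _) : Perm (B × (ZMod s × ZMod s))) * bt w *
      (Equiv.prodCongr θ (Equiv.refl _) : Perm (B × (ZMod s × ZMod s)))⁻¹ = bt (w ∘ θ.symm) := by
  rw [mul_inv_eq_iff_eq_mul]
  apply Equiv.ext
  rintro ⟨b, x⟩
  rw [Perm.mul_apply, Perm.mul_apply, bt_apply]
  change (θ b, x + w b) = bt (w ∘ θ.symm) (θ b, x)
  rw [bt_apply, Function.comp_apply, Equiv.symm_apply_apply]

/-- conjugation of a translation by additive bijections of the blocks -/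
theorem bt_lin (γ : B → ((ZMod s × ZMod s) ≃+ (ZMod s × ZMod s))) (w : B → ZMod s × ZMod s) :
    (Equiv.prodCongrRight (fun b => (γ b).toEquiv) : Perm (B × (ZMod s × ZMod s))) * bt w *
      (Equiv.prodCongrRight (fun b => (γ b).toEquiv) : Perm (B × (ZMod s × ZMod s)))⁻¹ =
      bt (fun b => γ b (w b)) := by
  rw [mul_inv_eq_iff_eq_mul]
  apply Equiv.ext
  rintro ⟨b, x⟩
  rw [Perm.mul_apply, Perm.mul_apply, bt_apply]
  change (b, γ b (x + w b)) = bt (fun b => γ b (w b)) (b, γ b x)
  rw [bt_apply, map_add]

section

variable {X Ω : Type} [Fintype X] [DecidableEq X] [Fintype Ω] [DecidableEq Ω] (j : X ↪ Ω)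

theorem sign_via (d : Perm X) : sign (viaEmbeddingHom j d) = sign d := by
  rw [viaEmbeddingHom_apply, viaEmbedding, sign_extendDomain]

theorem via_apply (d : Perm X) (x : X) : viaEmbeddingHom j d (j x) = j (d x) := by
  rw [viaEmbeddingHom_apply, viaEmbedding_apply]

theorem via_apply_of_notMem (d : Perm X) {y : Ω} (hy : ∀ x, j x ≠ y) :
    viaEmbeddingHom j d y = y := by
  rw [viaEmbeddingHom_apply, viaEmbedding_apply_of_notMem]
  rintro ⟨x, hx⟩
  exact hy x hx

/-- every conjugation of the permutations of `X` is realized by an even permutation of `Ω` -/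
theorem exists_conj {a b : Ω} (hab : a ≠ b) (ha : ∀ x, j x ≠ a) (hb : ∀ x, j x ≠ b)
    (Θ : Perm X) : ∃ α ∈ alternatingGroup Ω, ∀ d : Perm X,
      α * viaEmbeddingHom j d * α⁻¹ = viaEmbeddingHom j (Θ * d * Θ⁻¹) := by
  rcases Int.units_eq_one_or (sign Θ) with h | h
  · refine ⟨viaEmbeddingHom j Θ, ?_, fun d => ?_⟩
    · rw [mem_alternatingGroup, sign_via, h]
    · rw [map_mul, map_mul, map_inv]
  · refine ⟨viaEmbeddingHom j Θ * swap a b, ?_, fun d => ?_⟩
    · rw [mem_alternatingGroup, Perm.sign_mul, sign_via, h, sign_swap hab]
      decide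
    · have h1 : swap a b * viaEmbeddingHom j d = viaEmbeddingHom j d * swap a b := by
        have h2 := Equiv.mul_swap_eq_swap_mul (viaEmbeddingHom j d) a b
        rw [via_apply_of_notMem j d ha, via_apply_of_notMem j d hb] at h2
        exact h2.symm
      rw [mul_inv_rev, mul_assoc (viaEmbeddingHom j Θ), h1, map_mul, map_mul, map_inv]
      group

end

variable {Ω : Type} [Fintype Ω] [DecidableEq Ω] [Fintype B] [DecidableEq B] [Fact s.Prime]
  (j : (B × (ZMod s × ZMod s)) ↪ Ω)

/-- the translations of the blocks in the alternating group -/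
noncomputable def blkAlt {a b : Ω} (hab : a ≠ b) (ha : ∀ x, j x ≠ a) (hb : ∀ x, j x ≠ b)
    (h5 : 5 ≤ Nat.card Ω) : Blk (alternatingGroup Ω) B s where
  d w := ⟨viaEmbeddingHom j (bt w), by rw [mem_alternatingGroup, sign_via, sign_bt]⟩
  add v w := by
    apply Subtype.ext
    change viaEmbeddingHom j (bt (v + w)) = viaEmbeddingHom j (bt v) * viaEmbeddingHom j (bt w)
    rw [bt_add, map_mul]
  perm θ := by
    obtain ⟨α, hα, h⟩ := exists_conj j hab ha hb
      (Equiv.prodCongr θ (Equiv.refl _) : Perm (B × (ZMod s × ZMod s)))
    refine ⟨⟨α, hα⟩, fun w => Subtype.ext ?_⟩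
    change α * viaEmbeddingHom j (bt w) * α⁻¹ = viaEmbeddingHom j (bt (w ∘ θ.symm))
    rw [← bt_perm, ← h]
  lin v hv := by
    choose γ hγ using fun b => exists_addEquiv (hv b)
    obtain ⟨α, hα, h⟩ := exists_conj j hab ha hb
      (Equiv.prodCongrRight (fun b => (γ b).toEquiv) : Perm (B × (ZMod s × ZMod s)))
    refine ⟨⟨α, hα⟩, fun b => Subtype.ext ?_⟩
    have h1 : (Pi.single b (1, 0) : B → ZMod s × ZMod s) =
        fun b' => γ b' ((Pi.single b (v b) : B → ZMod s × ZMod s) b') := by
      funext b'
      by_cases h2 : b' = b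
      · subst h2
        rw [Pi.single_eq_same, Pi.single_eq_same, hγ]
      · rw [Pi.single_eq_of_ne h2, Pi.single_eq_of_ne h2, map_zero]
    change α * viaEmbeddingHom j (bt (Pi.single b (v b))) * α⁻¹ =
      viaEmbeddingHom j (bt (Pi.single b (1, 0)))
    rw [h1, ← bt_lin, ← h]
  S := (fun x : alternatingGroup Ω => (x : Perm Ω)) ⁻¹' {σ | IsThreeCycle σ}
  gen := by
    rw [← closure_three_cycles_eq_alternating]
    exact Subgroup.closure_closure_coe_preimage
  avoid := by
    intro σ hσ
    have hσ' : IsThreeCycle (σ : Perm Ω) := hσ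
    classical
    refine ⟨Finset.univ.filter fun b => ∃ e, j (b, e) ∈ (σ : Perm Ω).support, ?_, ?_⟩
    · rw [← hσ'.card_support]
      have h : ∀ b ∈ Finset.univ.filter (fun b => ∃ e, j (b, e) ∈ (σ : Perm Ω).support),
          ∃ e, j (b, e) ∈ (σ : Perm Ω).support := fun b hb => (Finset.mem_filter.1 hb).2
      choose! e he using h
      apply Finset.card_le_card_of_injOn (fun b => j (b, e b))
      · intro b hb
        exact he b hb
      · intro b hb b' hb' hbb
        exact congrArg Prod.fst (j.injective hbb)
    · intro b hb v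
      have hdis : Perm.Disjoint (σ : Perm Ω) (viaEmbeddingHom j (bt (Pi.single b v))) := by
        intro x
        by_cases hx : (σ : Perm Ω) x = x
        · left
          exact hx
        · right
          by_cases hx' : ∃ y, j y = x
          · obtain ⟨⟨b', y⟩, rfl⟩ := hx'
            rw [via_apply, bt_apply]
            have h2 : b' ≠ b := by
              intro h3
              subst h3
              apply hb
              rw [Finset.mem_filter]
              exact ⟨Finset.mem_univ _, y, Perm.mem_support.2 hx⟩
            rw [Pi.single_eq_of_ne h2, add_zero]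
          · push Not at hx'
            exact via_apply_of_notMem j _ hx'
      have h := hdis.commute
      exact Subtype.ext h.eq
  simp N hN b hb := by
    have : IsSimpleGroup (alternatingGroup Ω) := alternatingGroup.isSimpleGroup h5
    rcases hN.eq_bot_or_eq_top with h | h
    · exfalso
      rw [h, Subgroup.mem_bot] at hb
      have h1 := congrArg Subtype.val hb
      have h2 : viaEmbeddingHom j (bt (Pi.single b ((1 : ZMod s), (0 : ZMod s)))) = 1 := h1
      have h3 := congrArg (fun f : Perm Ω => f (j (b, 0))) h2
      simp only [via_apply, bt_apply, Pi.single_eq_same, zero_add, Perm.coe_one, id_eq] at h3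
      have h4 := j.injective h3
      have h5 : ((1 : ZMod s), (0 : ZMod s)) = (0 : ZMod s × ZMod s) := congrArg Prod.snd h4
      have h6 : (1 : ZMod s) = 0 := congrArg Prod.fst h5
      exact one_ne_zero h6
    · exact h

end Pool.Agent.Lib.MP_b9166b_al.Rg
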