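import Pool.Agent.Lib.MP_b9166b_al.Rg.Prime

/-!
# MP_b9166b_al, REG: groups with a system of blocks

`Blk A B s`: a group `A` with commuting subgroups `E_b = ZMod s × ZMod s` indexed by the blocks
`b : B`, which behave as the translations of disjoint blocks in an alternating group. Fixed vectors
in modules of characteristic prime to `s`.
-/

set_option autoImplicit false

namespace Pool.Agent.Lib.MP_b9166b_al.Rg

open Equiv

/-- a system of blocks in the group `A` -/
structure Blk (A B : Type) [Group A] [DecidableEq B] (s : ℕ) where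
  d : (B → ZMod s × ZMod s) → A
  add : ∀ v w, d (v + w) = d v * d w
  perm : ∀ θ : Perm B, ∃ α : A, ∀ w, α * d w * α⁻¹ = d (w ∘ θ.symm)
  lin : ∀ v : B → ZMod s × ZMod s, (∀ b, v b ≠ 0) →
    ∃ α : A, ∀ b, α * d (Pi.single b (v b)) * α⁻¹ = d (Pi.single b (1, 0))
  S : Set A
  gen : Subgroup.closure S = ⊤
  avoid : ∀ σ ∈ S, ∃ T : Finset B, T.card ≤ 3 ∧ ∀ b ∉ T, ∀ v, Commute σ (d (Pi.single b v))
  simp : ∀ N : Subgroup A, N.Normal → ∀ b, d (Pi.single b (1, 0)) ∈ N → N = ⊤

namespace Blk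

variable {A B : Type} [Group A] [DecidableEq B] {s : ℕ} (Δ : Blk A B s)

/-- the distinguished element of the block `b` -/
def e (b : B) : A := Δ.d (Pi.single b (1, 0))

theorem d_zero : Δ.d 0 = 1 := by
  have h := Δ.add 0 0
  rw [add_zero] at h
  exact left_eq_mul.1 h

theorem d_comm (v w : B → ZMod s × ZMod s) : Commute (Δ.d v) (Δ.d w) := by
  change Δ.d v * Δ.d w = Δ.d w * Δ.d v
  rw [← Δ.add, ← Δ.add, add_comm]

theorem d_pow (v : B → ZMod s × ZMod s) (n : ℕ) : Δ.d v ^ n = Δ.d (n • v) := by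
  induction n with
  | zero => rw [pow_zero, zero_smul, Δ.d_zero]
  | succ n ih => rw [pow_succ, ih, ← Δ.add, succ_nsmul]

theorem d_pow_s (v : B → ZMod s × ZMod s) : Δ.d v ^ s = 1 := by
  rw [Δ.d_pow]
  have h : s • v = 0 := by
    ext b <;> simp
  rw [h, Δ.d_zero]

variable {K V : Type} [Field K] [AddCommGroup V] [Module K V] (ρ : A →* Module.End K V)

theorem rho_mul (a b : A) (v : V) : ρ (a * b) v = ρ a (ρ b v) := by
  rw [map_mul, Module.End.mul_apply]

theorem rho_inv (a : A) (v : V) : ρ a⁻¹ (ρ a v) = v := by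
  rw [← rho_mul, inv_mul_cancel, map_one, Module.End.one_apply]

theorem rho_inv' (a : A) (v : V) : ρ a (ρ a⁻¹ v) = v := by
  rw [← rho_mul, mul_inv_cancel, map_one, Module.End.one_apply]

/-- vectors fixed by one element `≠ 0` of each block of `T` -/
theorem fixed_aux (hs : 2 ≤ s) (hsK : (s : K) ≠ 0) [Nontrivial V] (T : Finset B) :
    ∃ v : B → ZMod s × ZMod s, (∀ b, v b ≠ 0) ∧
      ∃ w : V, w ≠ 0 ∧ ∀ b ∈ T, ρ (Δ.d (Pi.single b (v b))) w = w := by
  have : Fact (1 < s) := ⟨by omega⟩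
  induction T using Finset.induction_on with
  | empty =>
    obtain ⟨w, hw⟩ := exists_ne (0 : V)
    exact ⟨fun _ => (1, 0), fun _ h => one_ne_zero (congrArg Prod.fst h), w, hw, by simp⟩
  | insert b T hb ih =>
    obtain ⟨v, hv, w₀, hw₀, hfix⟩ := ih
    let W : Submodule K V := {
      carrier := {w | ∀ b ∈ T, ρ (Δ.d (Pi.single b (v b))) w = w}
      zero_mem' := fun b _ => map_zero _
      add_mem' := fun {x y} hx hy b hb => by rw [map_add, hx b hb, hy b hb]
      smul_mem' := fun c x hx b hb => by rw [map_smul, hx b hb] }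
    have hW : ∀ (u : B → ZMod s × ZMod s), ∀ x ∈ W, ρ (Δ.d u) x ∈ W := by
      intro u x hx b hb
      rw [← rho_mul, (Δ.d_comm _ _).eq, rho_mul, hx b hb]
    have hWn : Nontrivial W := ⟨⟨⟨w₀, hfix⟩, 0, fun h => hw₀ (congrArg Subtype.val h)⟩⟩
    let r : (B → ZMod s × ZMod s) → (W →ₗ[K] W) := fun u =>
      (ρ (Δ.d u)).restrict (hW u)
    have hr_mul : ∀ u u', r u * r u' = r (u + u') := by
      intro u u'
      ext x
      simp only [r, Module.End.mul_apply, LinearMap.coe_restrict_apply]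
      rw [Δ.add, rho_mul]
    have hr_zero : r 0 = 1 := by
      ext x
      simp only [r, LinearMap.coe_restrict_apply, Δ.d_zero, map_one, Module.End.one_apply]
    have hr_pow : ∀ u (n : ℕ), r u ^ n = r (n • u) := by
      intro u n
      induction n with
      | zero => rw [pow_zero, zero_smul, hr_zero]
      | succ n ih => rw [pow_succ, ih, hr_mul, succ_nsmul]
    have hr_s : ∀ u, r u ^ s = 1 := by
      intro u
      rw [hr_pow]
      have h : s • u = 0 := by
        ext b <;> simp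
      rw [h, hr_zero]
    obtain ⟨i, j, hi, hj, hij, hker⟩ := exists_fixed (F := K) (W := W) hs hsK
      (a := r (Pi.single b (1, 0))) (b := r (Pi.single b (0, 1)))
      (by change _ * _ = _ * _; rw [hr_mul, hr_mul, add_comm]) (hr_s _) (hr_s _)
    obtain ⟨x, hx, hx0⟩ := (Submodule.ne_bot_iff _).1 hker
    have hx1 : r (Pi.single b ((i : ZMod s), (j : ZMod s))) x = x := by
      rw [LinearMap.mem_ker, LinearMap.sub_apply, Module.End.one_apply, sub_eq_zero, hr_pow,
        hr_pow, hr_mul] at hx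
      have h : i • (Pi.single b ((1 : ZMod s), (0 : ZMod s)) : B → ZMod s × ZMod s) +
          j • Pi.single b ((0 : ZMod s), (1 : ZMod s)) =
          Pi.single b ((i : ZMod s), (j : ZMod s)) := by
        rw [← Pi.single_smul', ← Pi.single_smul', ← Pi.single_add]
        congr 1
        ext <;> simp
      rw [h] at hx
      exact hx.symm
    refine ⟨Function.update v b ((i : ZMod s), (j : ZMod s)), ?_, x, ?_, ?_⟩
    · intro b'
      by_cases h : b' = b
      · subst h
        rw [Function.update_self]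
        intro h0
        apply hij
        have h1 := congrArg Prod.fst h0
        have h2 := congrArg Prod.snd h0
        simp only [Prod.fst_zero, Prod.snd_zero, ZMod.natCast_eq_zero_iff] at h1 h2
        exact ⟨Nat.eq_zero_of_dvd_of_lt h1 hi, Nat.eq_zero_of_dvd_of_lt h2 hj⟩
      · rw [Function.update_of_ne h]
        exact hv b'
    · intro h
      exact hx0 (Subtype.ext h)
    · intro b' hb'
      rcases Finset.mem_insert.1 hb' with h | h
      · subst h
        rw [Function.update_self]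
        have h2 := congrArg Subtype.val hx1
        simpa only [r, LinearMap.coe_restrict_apply] using h2
      · have h3 : b' ≠ b := fun h4 => hb (h4 ▸ h)
        rw [Function.update_of_ne h3]
        exact x.2 b' h

/-- a vector fixed by the distinguished elements of all blocks -/
theorem fixed [Fintype B] (hs : 2 ≤ s) (hsK : (s : K) ≠ 0) [Nontrivial V] :
    ∃ w : V, w ≠ 0 ∧ ∀ b, ρ (Δ.e b) w = w := by
  obtain ⟨v, hv, w, hw, hfix⟩ := Δ.fixed_aux ρ hs hsK Finset.univ
  obtain ⟨α, hα⟩ := Δ.lin v hv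
  refine ⟨ρ α w, ?_, ?_⟩
  · intro h
    apply hw
    rw [← rho_inv ρ α w, h, map_zero]
  · intro b
    rw [e, ← hα b, ← rho_mul, inv_mul_cancel_right, rho_mul, hfix b (Finset.mem_univ b)]

/-- a vector fixed by the distinguished elements of given blocks and moved by the one of another
block -/
theorem exists_vec [Fintype B] (hs : 2 ≤ s) (hsK : (s : K) ≠ 0)
    (hnt : ∃ (a : A) (v : V), ρ a v ≠ v) {B₀ : Finset B} (hcard : B₀.card + 3 ≤ Fintype.card B)
    {b₀ : B} (hb₀ : b₀ ∉ B₀) :
    ∃ m : V, (∀ b ∈ B₀, ρ (Δ.e b) m = m) ∧ ρ (Δ.e b₀) m ≠ m := by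
  by_contra hcon
  push Not at hcon
  -- the same for all sets of the same size
  have H : ∀ B₁ : Finset B, B₁.card = B₀.card → ∀ b₁ ∉ B₁, ∀ m : V,
      (∀ b ∈ B₁, ρ (Δ.e b) m = m) → ρ (Δ.e b₁) m = m := by
    intro B₁ h1 b₁ hb₁ m hm
    let θ₁ : Perm B := (Finset.equivOfCardEq h1).extendSubtype
    have hθ₁ : ∀ b ∈ B₁, θ₁ b ∈ B₀ := fun b hb => Equiv.extendSubtype_mem _ b hb
    have hθ₁' : ∀ b ∉ B₁, θ₁ b ∉ B₀ := fun b hb => Equiv.extendSubtype_not_mem _ b hb
    let θ : Perm B := Equiv.swap (θ₁ b₁) b₀ * θ₁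
    have hθ : ∀ b ∈ B₁, θ b ∈ B₀ := by
      intro b hb
      have h2 : θ b = θ₁ b := by
        change Equiv.swap (θ₁ b₁) b₀ (θ₁ b) = θ₁ b
        apply Equiv.swap_apply_of_ne_of_ne
        · intro h3
          exact hb₁ ((θ₁.injective h3) ▸ hb)
        · intro h3
          exact hb₀ (h3 ▸ hθ₁ b hb)
      rw [h2]
      exact hθ₁ b hb
    have hθb : θ b₁ = b₀ := by
      change Equiv.swap (θ₁ b₁) b₀ (θ₁ b₁) = b₀
      exact Equiv.swap_apply_left _ _
    have hθB : ∀ b ∈ B₀, θ.symm b ∈ B₁ := by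
      have h2 : B₁.image θ = B₀ := by
        apply Finset.eq_of_subset_of_card_le
        · intro b hb
          obtain ⟨b', hb', rfl⟩ := Finset.mem_image.1 hb
          exact hθ b' hb'
        · rw [Finset.card_image_of_injective _ θ.injective, h1]
      intro b hb
      rw [← h2, Finset.mem_image] at hb
      obtain ⟨b', hb', rfl⟩ := hb
      rwa [Equiv.symm_apply_apply]
    obtain ⟨α, hα⟩ := Δ.perm θ
    have hα' : ∀ b, α * Δ.e b * α⁻¹ = Δ.e (θ b) := by
      intro b
      rw [e, hα, e]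
      congr 1
      funext b'
      rw [Function.comp_apply]
      by_cases h2 : b' = θ b
      · subst h2
        rw [Equiv.symm_apply_apply, Pi.single_eq_same, Pi.single_eq_same]
      · rw [Pi.single_eq_of_ne h2, Pi.single_eq_of_ne]
        intro h3
        exact h2 (by rw [← h3, Equiv.apply_symm_apply])
    have hα'' : ∀ b, (ρ (Δ.e b) m = m ↔ ρ (Δ.e (θ b)) (ρ α m) = ρ α m) := by
      intro b
      rw [← hα' b, ← rho_mul, inv_mul_cancel_right, rho_mul]
      constructor
      · intro h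
        rw [h]
      · intro h
        rw [← rho_inv ρ α (ρ (Δ.e b) m), h, rho_inv]
    rw [hα'', hθb]
    apply hcon
    intro b hb
    have h4 := (hα'' (θ.symm b)).1 (hm _ (hθB b hb))
    rwa [Equiv.apply_symm_apply] at h4
  let C : Submodule K V := {
    carrier := {m | ∀ b, ρ (Δ.e b) m = m}
    zero_mem' := fun b => map_zero _
    add_mem' := fun {x y} hx hy b => by rw [map_add, hx b, hy b]
    smul_mem' := fun c x hx b => by rw [map_smul, hx b] }
  have hC : ∀ B₁ : Finset B, B₁.card = B₀.card → ∀ m : V, (∀ b ∈ B₁, ρ (Δ.e b) m = m) → m ∈ C := by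
    intro B₁ h1 m hm b
    by_cases hb : b ∈ B₁
    · exact hm b hb
    · exact H B₁ h1 b hb m hm
  -- `C` is invariant
  have hinv : ∀ σ : A, (∀ m ∈ C, ρ σ m ∈ C) ∧ (∀ m ∈ C, ρ σ⁻¹ m ∈ C) := by
    intro σ
    have hσ : σ ∈ Subgroup.closure Δ.S := by rw [Δ.gen]; trivial
    induction hσ using Subgroup.closure_induction with
    | mem σ hσ =>
      obtain ⟨T, hT, hcomm⟩ := Δ.avoid σ hσ
      have h2 : B₀.card ≤ (Finset.univ \ T).card := by
        rw [Finset.card_sdiff_of_subset (Finset.subset_univ T), Finset.card_univ]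
        omega
      obtain ⟨B₁, hB₁, hcard₁⟩ := Finset.exists_subset_card_eq h2
      have h3 : ∀ b ∈ B₁, b ∉ T := fun b hb => (Finset.mem_sdiff.1 (hB₁ hb)).2
      constructor
      · intro m hm
        apply hC B₁ hcard₁
        intro b hb
        have h4 : Commute σ (Δ.e b) := hcomm b (h3 b hb) _
        rw [← rho_mul, ← h4.eq, rho_mul, hm b]
      · intro m hm
        apply hC B₁ hcard₁
        intro b hb
        have h4 : Commute σ⁻¹ (Δ.e b) := (hcomm b (h3 b hb) _).inv_left
        rw [← rho_mul, ← h4.eq, rho_mul, hm b]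
    | one => simp
    | mul x y _ _ hx hy =>
      constructor
      · intro m hm
        rw [rho_mul]
        exact hx.1 _ (hy.1 _ hm)
      · intro m hm
        rw [mul_inv_rev, rho_mul]
        exact hy.2 _ (hx.2 _ hm)
    | inv x _ hx => exact ⟨hx.2, by rw [inv_inv]; exact hx.1⟩
  -- `A` acts trivially on `C`
  let N : Subgroup A := {
    carrier := {σ | ∀ m ∈ C, ρ σ m = m}
    one_mem' := fun m _ => by rw [map_one, Module.End.one_apply]
    mul_mem' := fun {x y} hx hy m hm => by rw [rho_mul, hy m hm, hx m hm]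
    inv_mem' := fun {x} hx m hm => by
      have h := rho_inv ρ x m
      rwa [hx m hm] at h }
  have hN : N.Normal := by
    refine ⟨fun n hn g m hm => ?_⟩
    rw [rho_mul, rho_mul, hn _ ((hinv g).2 m hm), rho_inv']
  have hNt : N = ⊤ := Δ.simp N hN b₀ fun m hm => hm b₀
  have htriv : ∀ (σ : A), ∀ m ∈ C, ρ σ m = m := by
    intro σ
    have h : σ ∈ N := by rw [hNt]; trivial
    exact h
  -- the quotient
  have hne : C ≠ ⊤ := by
    intro h
    obtain ⟨a, v, hav⟩ := hnt
    exact hav (htriv a v (h ▸ Submodule.mem_top))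
  have hQ : Nontrivial (V ⧸ C) := Submodule.Quotient.nontrivial_iff.2 hne
  let ρ' : A →* Module.End K (V ⧸ C) := {
    toFun := fun a => C.mapQ C (ρ a) (fun m hm => (hinv a).1 m hm)
    map_one' := by
      ext x
      simp
    map_mul' := fun a b => by
      ext x
      simp }
  obtain ⟨w, hw, hfix⟩ := Δ.fixed ρ' hs hsK
  obtain ⟨m, rfl⟩ := C.mkQ_surjective w
  apply hw
  rw [Submodule.mkQ_apply, Submodule.Quotient.mk_eq_zero]
  intro b
  have h1 := hfix b
  change C.mapQ C (ρ (Δ.e b)) (fun m hm => (hinv (Δ.e b)).1 m hm) (Submodule.Quotient.mk m) = Submodule.Quotient.mk m at h1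
  rw [Submodule.mapQ_apply, Submodule.Quotient.eq] at h1
  have h2 : ρ (Δ.e b) (ρ (Δ.e b) m - m) = ρ (Δ.e b) m - m := h1 b
  have h3 : ∀ n : ℕ, ρ (Δ.e b ^ n) m = m + (n : K) • (ρ (Δ.e b) m - m) := by
    intro n
    induction n with
    | zero => simp
    | succ n ih =>
      rw [pow_succ', rho_mul, ih, map_add, map_smul, h2]
      push_cast
      rw [add_smul, one_smul]
      abel
  have h4 := h3 s
  rw [e, Δ.d_pow_s, map_one, Module.End.one_apply, left_eq_add, smul_eq_zero] at h4
  rcases h4 with h4 | h4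
  · exact absurd h4 hsK
  · exact sub_eq_zero.1 h4

/-- the vector and the functional -/
theorem exists_functional [Fintype B] (hs : 2 ≤ s) (hsK : (s : K) ≠ 0)
    (hnt : ∃ (a : A) (v : V), ρ a v ≠ v) {B₀ : Finset B} (hcard : B₀.card + 3 ≤ Fintype.card B)
    {b₀ : B} (hb₀ : b₀ ∉ B₀) :
    ∃ m : V, (∀ b ∈ B₀, ρ (Δ.e b) m = m) ∧ (∑ i ∈ Finset.range s, ρ (Δ.e b₀ ^ i) m = 0) ∧
      ∃ χ : V →ₗ[K] K, χ m = 1 ∧ ∀ u, ρ (Δ.e b₀) u = u → χ u = 0 := by
  obtain ⟨m, hm, hm₀⟩ := Δ.exists_vec ρ hs hsK hnt hcard hb₀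
  set N : V → V := fun v => ∑ i ∈ Finset.range s, ρ (Δ.e b₀ ^ i) v with hN
  have hNfix : ∀ v, ρ (Δ.e b₀) (N v) = N v := by
    intro v
    rw [hN]
    simp only [map_sum]
    have h1 : ∀ i ∈ Finset.range s, ρ (Δ.e b₀) (ρ (Δ.e b₀ ^ i) v) = ρ (Δ.e b₀ ^ (i + 1)) v := by
      intro i _
      rw [pow_succ', rho_mul]
    rw [Finset.sum_congr rfl h1]
    have h2 := Finset.sum_range_succ' (fun i => ρ (Δ.e b₀ ^ i) v) s
    have h3 := Finset.sum_range_succ (fun i => ρ (Δ.e b₀ ^ i) v) s
    rw [h3] at h2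
    have h4 : ρ (Δ.e b₀ ^ s) v = ρ (Δ.e b₀ ^ 0) v := by
      rw [e, Δ.d_pow_s, pow_zero]
    rw [h4] at h2
    exact (add_right_cancel h2).symm
  have hNof : ∀ v, ρ (Δ.e b₀) v = v → N v = (s : K) • v := by
    intro v hv
    have h1 : ∀ i : ℕ, ρ (Δ.e b₀ ^ i) v = v := by
      intro i
      induction i with
      | zero => simp
      | succ i ih => rw [pow_succ, rho_mul, hv, ih]
    rw [hN]
    simp only [h1, Finset.sum_const, Finset.card_range]
    rw [Nat.cast_smul_eq_nsmul]
  have hNsub : ∀ v w, N (v - w) = N v - N w := by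
    intro v w
    rw [hN]
    simp only [map_sub, Finset.sum_sub_distrib]
  have hNsmul : ∀ (c : K) v, N (c • v) = c • N v := by
    intro c v
    rw [hN]
    simp only [map_smul, Finset.smul_sum]
  set m' : V := (s : K) • m - N m with hm'
  have hNm' : N m' = 0 := by
    rw [hm', hNsub, hNsmul, hNof (N m) (hNfix m), sub_self]
  have hm'0 : m' ≠ 0 := by
    intro h
    rw [hm', sub_eq_zero] at h
    apply hm₀
    have h1 : m = (s : K)⁻¹ • N m := by
      rw [← h, smul_smul, inv_mul_cancel₀ hsK, one_smul]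
    rw [h1, map_smul, hNfix]
  refine ⟨m', ?_, hNm', ?_⟩
  · intro b hb
    have h1 : ρ (Δ.e b) (N m) = N m := by
      rw [hN]
      simp only [map_sum]
      refine Finset.sum_congr rfl fun i _ => ?_
      have h2 : Commute (Δ.e b) (Δ.e b₀ ^ i) := (Δ.d_comm _ _).pow_right i
      rw [← rho_mul, h2.eq, rho_mul, hm b hb]
    rw [hm', map_sub, map_smul, hm b hb, h1]
  · let U : Submodule K V := LinearMap.ker (ρ (Δ.e b₀) - 1)
    have hU : m' ∉ U := by
      intro h
      rw [LinearMap.mem_ker, LinearMap.sub_apply, Module.End.one_apply, sub_eq_zero] at h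
      have h1 := hNof m' h
      rw [hNm'] at h1
      rcases smul_eq_zero.1 h1.symm with h2 | h2
      · exact hsK h2
      · exact hm'0 h2
    obtain ⟨f, hf, hfU⟩ := Submodule.exists_le_ker_of_notMem hU
    refine ⟨(f m')⁻¹ • f, ?_, ?_⟩
    · rw [LinearMap.smul_apply, smul_eq_mul, inv_mul_cancel₀ hf]
    · intro u hu
      have h1 : u ∈ U := by
        rw [LinearMap.mem_ker, LinearMap.sub_apply, Module.End.one_apply, hu, sub_self]
      rw [LinearMap.smul_apply, LinearMap.mem_ker.1 (hfU h1), smul_zero]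

end Blk

end Pool.Agent.Lib.MP_b9166b_al.Rg
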