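import Pool.Agent.Lib.MP_b9166b_al.Germ

/-!
# MP_b9166b_al, REG: the two definitions of the statement
-/

set_option autoImplicit false

namespace Pool.Agent.Lib.MP_b9166b_al.Rg

open Equiv Equiv.Perm

/-- `G` is locally finite: every finite subset generates a finite subgroup -/
def LocFin (G : Type) [Group G] : Prop := ∀ S : Finset G, Finite (Subgroup.closure (S : Set G))

/-- Every finite subgroup `F` of `G` normalizes a finite subgroup `L` of `G` which has, for some
`n`, a homomorphism `π` to the symmetric group of degree `n` whose image contains the alternating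
group and whose kernel is nilpotent, and `F` acts on the `n` points by a homomorphism `θ` such that
`π (h g h⁻¹) = θ h (π g) (θ h)⁻¹` for `h ∈ F`, `g ∈ L`, and such that some point has trivial
stabilizer in `F` (in other words, `F` has a regular orbit). For instance `F ≤ L` and `θ = π` on
`F`. -/
def RegAlt (G : Type) [Group G] : Prop :=
  ∀ F : Subgroup G, Finite F → ∃ (L : Subgroup G) (n : ℕ) (π : L →* Perm (Fin n))
    (θ : F →* Perm (Fin n)), Finite L ∧ alternatingGroup (Fin n) ≤ π.range ∧
      Group.IsNilpotent π.ker ∧
      (∀ (h : F) (g : L), ∃ hg : (h : G) * g * (h : G)⁻¹ ∈ L,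
        π ⟨(h : G) * g * (h : G)⁻¹, hg⟩ = θ h * π g * (θ h)⁻¹) ∧
      ∃ w : Fin n, ∀ h : F, θ h w = w → h = 1

end Pool.Agent.Lib.MP_b9166b_al.Rg
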