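import Pool.Agent.Lib.MP_b9166b_al.Rg.CoreB
import Pool.Agent.Lib.MP_b9166b_al.Rg.Defs

/-!
# MP_b9166b_al, REG: locally finite groups with free elements for all finite subgroups
-/

set_option autoImplicit false

namespace Pool.Agent.Lib.MP_b9166b_al.Rg

open Pool.Agent.Lib.MP_b9166b_al

variable {G : Type} [Group G]

/-- representatives of different right cosets of a finite subgroup -/
theorem exists_reps [Infinite G] (D : Subgroup G) [Finite D] :
    ∃ g : ℕ → G, ∀ i j, i ≠ j → g i * (g j)⁻¹ ∉ D := by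
  have hinf : Infinite (G ⧸ D) := by
    by_contra hc
    rw [not_infinite_iff_finite] at hc
    have h1 : D.FiniteIndex := Subgroup.finiteIndex_of_finite_quotient
    have h2 : Nat.card D * D.index = Nat.card G := D.card_mul_index
    rw [Nat.card_eq_zero_of_infinite (α := G), mul_eq_zero] at h2
    rcases h2 with h2 | h2
    · exact (Nat.card_pos (α := D)).ne' h2
    · exact h1.index_ne_zero h2
  refine ⟨fun i => (Quotient.out (Infinite.natEmbedding (G ⧸ D) i))⁻¹, fun i j hij h => hij ?_⟩
  rw [inv_inv] at h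
  have h3 : (QuotientGroup.mk (Quotient.out (Infinite.natEmbedding (G ⧸ D) i)) : G ⧸ D) =
      QuotientGroup.mk (Quotient.out (Infinite.natEmbedding (G ⧸ D) j)) := QuotientGroup.eq.2 h
  rw [QuotientGroup.out_eq', QuotientGroup.out_eq'] at h3
  exact (Infinite.natEmbedding (G ⧸ D)).injective h3

theorem no_finLin (hlf : LocFin G) [Infinite G]
    (hfree : ∀ F : Subgroup G, Finite F → ∃ p : ℕ, p.Prime ∧ Nonempty (Free p F)) (x : G) :
    ¬ FinLin (Subgroup.centralizer ({x} : Set G)) := by
  classical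
  rintro ⟨K, _, V, _, _, hV, ρ, hρ, hfin⟩
  have hVn : Nontrivial V := by
    rw [← not_subsingleton_iff_nontrivial]
    intro h
    exact hV inferInstance
  -- the order of `x`
  have hxfin : Finite (Subgroup.zpowers x) := by
    have h1 := hlf {x}
    rw [Finset.coe_singleton, ← Subgroup.zpowers_eq_closure] at h1
    exact h1
  have h0 : 0 < orderOf x := by
    rw [← Nat.card_zpowers]
    exact Nat.card_pos
  -- a second element of the centralizer
  obtain ⟨p₀, hp₀, ⟨f₀⟩⟩ := hfree (Subgroup.zpowers x) hxfin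
  have hx₀ : x ∈ Subgroup.zpowers x := Subgroup.mem_zpowers x
  set c : G := f₀.na x 1 with hc
  have hcC : c ∈ Subgroup.centralizer ({x} : Set G) := f₀.cen hx₀ (Subgroup.one_mem _)
  have hcx : c ∉ Subgroup.zpowers x := f₀.na_notMem hp₀ hx₀ h0
  set d₀ : ℕ := Module.finrank K (LinearMap.range (1 - (ρ ⟨c, hcC⟩).val)) with hd₀
  have hd : Deg (ρ ⟨c, hcC⟩).val d₀ := ⟨hfin _, le_rfl⟩
  set D : Subgroup G := Subgroup.closure (({x, c} : Finset G) : Set G) with hD
  have hDfin : Finite D := hlf _
  have hxD : x ∈ D := Subgroup.subset_closure (by simp)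
  have hcD : c ∈ D := Subgroup.subset_closure (by simp)
  obtain ⟨g, hgD⟩ := exists_reps D
  set k : ℕ := (2 * (2 * d₀)) * (2 * (2 * d₀) + 1) + 1 + 2 * d₀ with hk
  -- modify `g` beyond `k`
  set g' : ℕ → G := fun i => if i < k then g i else g 0 with hg'
  have hgD' : ∀ i < k, ∀ j < k, i ≠ j → g' i * (g' j)⁻¹ ∉ D := by
    intro i hi j hj hij
    rw [hg']
    simp only [if_pos hi, if_pos hj]
    exact hgD i j hij
  set S₁ : Finset G := {x, c} ∪ (Finset.range (k + 1)).image g with hS₁
  set F₁ : Subgroup G := Subgroup.closure (S₁ : Set G) with hF₁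
  have hgF₁ : ∀ i, g' i ∈ F₁ := by
    intro i
    apply Subgroup.subset_closure
    rw [hS₁, Finset.mem_coe, Finset.mem_union, Finset.mem_image]
    right
    by_cases hi : i < k
    · exact ⟨i, Finset.mem_range.2 (by omega), by rw [hg']; simp only [if_pos hi]⟩
    · exact ⟨0, Finset.mem_range.2 (by omega), by rw [hg']; simp only [if_neg hi]⟩
  have hxF₁ : x ∈ F₁ := Subgroup.subset_closure (by simp [hS₁])
  have hcF₁ : c ∈ F₁ := Subgroup.subset_closure (by simp [hS₁])
  have hF₁fin : Finite F₁ := hlf S₁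
  -- the characteristic is the prime of every free element for a group containing `F₁`
  have hchar : ∀ (p : ℕ) (F : Subgroup G), p.Prime → F₁ ≤ F → Free p F → (p : K) = 0 := by
    intro p F hp hle f
    by_contra hpK
    have := f.bound hp hpK (hle hxF₁) (hle hcF₁) h0 hcC hcx hxD hcD
      (k := k) (fun i => g' i) (fun i => hle (hgF₁ i))
      (fun i j hij => hgD' i i.2 j j.2 fun h => hij (Fin.ext h)) ρ hρ hd
    omega
  obtain ⟨p, hp, ⟨f₁⟩⟩ := hfree F₁ hF₁fin
  have hpK : (p : K) = 0 := hchar p F₁ hp le_rfl f₁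
  have hpchar : CharP K p := by
    obtain ⟨q, hq⟩ := CharP.exists K
    have h1 : q ∣ p := (CharP.cast_eq_zero_iff K q p).1 hpK
    rcases (Nat.dvd_prime hp).1 h1 with h2 | h2
    · subst h2
      exact absurd rfl (CharP.ringChar_ne_one (R := K) |> fun h => by
        rw [← ringChar.eq K 1] at h
        exact h)
    · rw [← h2]
      exact hq
  set S₂ : Finset G := S₁ ∪ (Finset.range (k + 1)).image (fun i => f₁.el x c (g i)) with hS₂
  set F₂ : Subgroup G := Subgroup.closure (S₂ : Set G) with hF₂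
  have hF₂fin : Finite F₂ := hlf S₂
  have hle : F₁ ≤ F₂ := Subgroup.closure_mono (by
    rw [hS₂]
    exact_mod_cast Finset.subset_union_left)
  have hel : ∀ i, f₁.el x c (g' i) ∈ F₂ := by
    intro i
    apply Subgroup.subset_closure
    rw [hS₂, Finset.mem_coe, Finset.mem_union, Finset.mem_image]
    right
    by_cases hi : i < k
    · exact ⟨i, Finset.mem_range.2 (by omega), by rw [hg']; simp only [if_pos hi]⟩
    · exact ⟨0, Finset.mem_range.2 (by omega), by rw [hg']; simp only [if_neg hi]⟩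
  obtain ⟨p', hp', ⟨f₂⟩⟩ := hfree F₂ hF₂fin
  have hp'K : (p' : K) = 0 := hchar p' F₂ hp' hle f₂
  have hpp : p = p' := by
    have h1 : p ∣ p' := (CharP.cast_eq_zero_iff K p p').1 hp'K
    exact (Nat.prime_dvd_prime_iff_eq hp hp').1 h1
  subst hpp
  exact Free.contra hp f₁ f₂ hxF₁ hcF₁ (hle hxF₁) h0 rfl hcC hcx hxD hcD hgF₁ hgD' hel ρ hρ hd
    (by omega)

end Pool.Agent.Lib.MP_b9166b_al.Rg
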