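import Pool.Agent.Lib.MP_b9166b_al.Rg.CovC
import Pool.Agent.Lib.MP_b9166b_al.Rg.CoreC

/-!
# MP_b9166b_al, REG: free elements from covers with many regular orbits

`Rc F k`: the finite subgroup `F` of `G` normalizes a finite subgroup `L` with a nilpotent normal
subgroup whose quotient is the alternating group of `F × Fin k`, `F` acting by left translation.
For `k ≥ 29` this gives a free element for `F`.
-/

set_option autoImplicit false

namespace Pool.Agent.Lib.MP_b9166b_al.Rg

open Equiv Equiv.Perm

variable {G : Type} [Group G]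

/-- a free element from an element which commutes with its conjugates -/
theorem free_of {p : ℕ} (hp : p.Prime) {F : Subgroup G} (X : Subgroup G) [Finite X]
    (χ : G → ZMod p) (hadd : ∀ a ∈ X, ∀ b ∈ X, χ (a * b) = χ a + χ b) (y : G)
    (hX : ∀ h ∈ F, h * y * h⁻¹ ∈ X) (hc : ∀ h ∈ F, Commute y (h * y * h⁻¹)) (hχ : χ y = 1)
    (h0 : ∀ h ∈ F, h ≠ 1 → χ (h * y * h⁻¹) = 0) : Nonempty (Free p F) := by
  have hpF : Fact p.Prime := ⟨hp⟩
  have hyX : y ∈ X := by
    have h1 := hX 1 F.one_mem
    rwa [one_mul, inv_one, mul_one] at h1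
  have hyo : 0 < orderOf y := by
    have h1 : 0 < orderOf (⟨y, hyX⟩ : X) := orderOf_pos _
    rwa [Subgroup.orderOf_mk] at h1
  obtain ⟨a, m, hm, ham⟩ := Nat.exists_eq_pow_mul_and_not_dvd hyo.ne' p hp.ne_one
  have hχ1 : χ 1 = 0 := by
    have h1 := hadd 1 X.one_mem 1 X.one_mem
    rw [mul_one] at h1
    exact left_eq_add.1 h1
  have hχpow : ∀ z ∈ X, ∀ n : ℕ, χ (z ^ n) = n * χ z := by
    intro z hz n
    induction n with
    | zero => simp [hχ1]
    | succ n ih =>
      rw [pow_succ, hadd _ (X.pow_mem hz n) _ hz, ih]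
      push_cast
      ring
  set e : ℕ := m ^ (p - 1) with he
  have heχ : (e : ZMod p) = 1 := by
    rw [he, Nat.cast_pow]
    apply ZMod.pow_card_sub_one_eq_one
    rw [Ne, ZMod.natCast_eq_zero_iff]
    exact hm
  have hye : ∀ h : G, (h * (y ^ e) * h⁻¹) ^ (p ^ a) = 1 := by
    intro h
    have h1 : (y ^ e) ^ (p ^ a) = 1 := by
      rw [← pow_mul]
      apply orderOf_dvd_iff_pow_eq_one.1
      rw [ham, mul_comm (p ^ a)]
      apply Nat.mul_dvd_mul_right
      rw [he]
      exact dvd_pow_self m (by have := hp.two_le; omega)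
    rw [conj_pow, h1, mul_one, mul_inv_cancel]
  set S : Set G := {z | ∃ h ∈ F, z = h * (y ^ e) * h⁻¹} with hS
  set Y : Subgroup G := Subgroup.closure S with hY
  have hYX : Y ≤ X := by
    rw [hY, Subgroup.closure_le]
    rintro z ⟨h, hh, rfl⟩
    rw [SetLike.mem_coe, ← conj_pow]
    exact X.pow_mem (hX h hh) e
  have hScomm : ∀ z ∈ S, ∀ z' ∈ S, z * z' = z' * z := by
    rintro z ⟨h, hh, rfl⟩ z' ⟨h', hh', rfl⟩
    have h1 : Commute (y ^ e) (((h⁻¹ * h') * y * (h⁻¹ * h')⁻¹) ^ e) :=
      (hc _ (F.mul_mem (F.inv_mem hh) hh')).pow_pow e e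
    rw [conj_pow] at h1
    calc h * y ^ e * h⁻¹ * (h' * y ^ e * h'⁻¹)
        = h * (y ^ e * ((h⁻¹ * h') * y ^ e * (h⁻¹ * h')⁻¹)) * h⁻¹ := by group
      _ = h * (((h⁻¹ * h') * y ^ e * (h⁻¹ * h')⁻¹) * y ^ e) * h⁻¹ := by rw [h1.eq]
      _ = h' * y ^ e * h'⁻¹ * (h * y ^ e * h⁻¹) := by group
  have h1 : Y ≤ Subgroup.centralizer S := by
    rw [hY, Subgroup.closure_le]
    intro z hz
    rw [SetLike.mem_coe, Subgroup.mem_centralizer_iff]
    intro z' hz'
    exact hScomm z' hz' z hz
  have h2 : Y ≤ Subgroup.centralizer (Y : Set G) := by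
    conv_lhs => rw [hY]
    rw [Subgroup.closure_le]
    intro z hz
    rw [SetLike.mem_coe, Subgroup.mem_centralizer_iff]
    intro z' hz'
    exact ((Subgroup.mem_centralizer_iff.1 (h1 hz')) z hz).symm
  have hYcomm : ∀ u ∈ Y, ∀ v ∈ Y, u * v = v * u := by
    intro u hu v hv
    exact (Subgroup.mem_centralizer_iff.1 (h2 hv)) u hu
  have hYfin : Finite Y := Finite.of_injective (Subgroup.inclusion hYX)
    (Subgroup.inclusion_injective hYX)
  exact ⟨{
    Y := Y
    fin := hYfin
    comm := hYcomm
    tors := by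
      intro u hu
      refine ⟨a, ?_⟩
      induction hu using Subgroup.closure_induction with
      | mem z hz =>
        obtain ⟨h, _, rfl⟩ := hz
        exact hye h
      | one => exact one_pow _
      | mul u v hu hv ihu ihv =>
        have h3 : Commute u v := hYcomm u hu v hv
        rw [h3.mul_pow, ihu, ihv, one_mul]
      | inv u hu ihu => rw [inv_pow, ihu, inv_one]
    norm := by
      intro h hh u hu
      induction hu using Subgroup.closure_induction with
      | mem z hz =>
        obtain ⟨h', hh', rfl⟩ := hz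
        apply Subgroup.subset_closure
        exact ⟨h * h', F.mul_mem hh hh', by group⟩
      | one =>
        rw [mul_one, mul_inv_cancel]
        exact Y.one_mem
      | mul u v hu hv ihu ihv =>
        have h3 : h * (u * v) * h⁻¹ = (h * u * h⁻¹) * (h * v * h⁻¹) := by group
        rw [h3]
        exact Y.mul_mem ihu ihv
      | inv u hu ihu =>
        have h3 : h * u⁻¹ * h⁻¹ = (h * u * h⁻¹)⁻¹ := by group
        rw [h3]
        exact Y.inv_mem ihu
    χ := χ
    add := fun u hu v hv => hadd u (hYX hu) v (hYX hv)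
    y := y ^ e
    hy := Subgroup.subset_closure ⟨1, F.one_mem, by group⟩
    χy := by rw [hχpow y hyX, heχ, hχ, one_mul]
    χh := by
      intro h hh hne
      rw [← conj_pow, hχpow _ (hX h hh), h0 h hh hne, mul_zero] }⟩

/-- a regular cover for the subgroup `F` -/
structure Rc (F : Subgroup G) [Fintype F] [DecidableEq F] (k : ℕ) where
  L : Subgroup G
  fin : Finite L
  norm : ∀ h ∈ F, ∀ g ∈ L, h * g * h⁻¹ ∈ L
  π : L →* Perm (F × Fin k)
  range : π.range = alternatingGroup (F × Fin k)
  nil : Group.IsNilpotent π.ker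
  equi : ∀ (h : F) (g : L), π ⟨h * g * h⁻¹, norm h h.2 g g.2⟩ = tr h * π g * (tr h)⁻¹

namespace Rc

variable {F : Subgroup G} [Fintype F] [DecidableEq F] {k : ℕ}

/-- the group `L` can be taken perfect -/
theorem exists_perfect (hk : 5 ≤ k) (r : Rc F k) : ∃ r' : Rc F k, commutator r'.L = ⊤ := by
  induction hn : Nat.card r.L using Nat.strong_induction_on generalizing r with
  | _ n ih =>
    by_cases hperf : commutator r.L = ⊤
    · exact ⟨r, hperf⟩
    · have := r.fin
      set L' : Subgroup G := (commutator r.L).map r.L.subtype with hL'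
      have hle : L' ≤ r.L := Subgroup.map_subtype_le _
      have hlt : Nat.card L' < n := by
        rw [← hn]
        have h1 : Nat.card L' = Nat.card (commutator r.L) :=
          Nat.card_congr (Subgroup.equivMapOfInjective _ _ r.L.subtype_injective).symm.toEquiv
        rw [h1]
        refine lt_of_le_of_ne (Subgroup.card_le_card_group _) fun h => hperf ?_
        exact Subgroup.eq_top_of_card_eq _ h
      have hA : 5 ≤ Nat.card (F × Fin k) := by
        rw [Nat.card_prod, Nat.card_eq_fintype_card (α := Fin k), Fintype.card_fin]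
        have h1 : 1 ≤ Nat.card F := Nat.card_pos
        nlinarith
      have hfin : Finite L' := Finite.of_injective (Subgroup.inclusion hle)
        (Subgroup.inclusion_injective hle)
      have hnorm : ∀ h ∈ F, ∀ g ∈ L', h * g * h⁻¹ ∈ L' := by
        rintro h hh g ⟨g', hg', rfl⟩
        rw [commutator_eq_closure] at hg'
        induction hg' using Subgroup.closure_induction with
        | mem x hx =>
          obtain ⟨a, b, rfl⟩ := hx
          refine ⟨⟨h * a * h⁻¹, r.norm h hh a a.2⟩ * ⟨h * b * h⁻¹, r.norm h hh b b.2⟩ *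
            ⟨h * a * h⁻¹, r.norm h hh a a.2⟩⁻¹ * ⟨h * b * h⁻¹, r.norm h hh b b.2⟩⁻¹, ?_, ?_⟩
          · rw [commutator_eq_closure]
            exact Subgroup.subset_closure ⟨_, _, rfl⟩
          · change (h * a * h⁻¹) * (h * b * h⁻¹) * (h * a * h⁻¹)⁻¹ * (h * b * h⁻¹)⁻¹ =
              h * ((a : G) * b * (a : G)⁻¹ * (b : G)⁻¹) * h⁻¹
            group
        | one =>
          rw [map_one, mul_one, mul_inv_cancel]
          exact L'.one_mem
        | mul u v hu hv ihu ihv =>
          rw [map_mul]
          have h3 : h * (r.L.subtype u * r.L.subtype v) * h⁻¹ =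
              (h * r.L.subtype u * h⁻¹) * (h * r.L.subtype v * h⁻¹) := by group
          rw [h3]
          exact L'.mul_mem ihu ihv
        | inv u hu ihu =>
          rw [map_inv]
          have h3 : h * (r.L.subtype u)⁻¹ * h⁻¹ = (h * r.L.subtype u * h⁻¹)⁻¹ := by group
          rw [h3]
          exact L'.inv_mem ihu
      let π' : L' →* Perm (F × Fin k) := r.π.comp (Subgroup.inclusion hle)
      have hrange : π'.range = alternatingGroup (F × Fin k) := by
        have h1 : π'.range = (commutator r.L).map r.π := by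
          ext σ
          constructor
          · rintro ⟨⟨_, ⟨g, hg, rfl⟩⟩, rfl⟩
            exact ⟨g, hg, rfl⟩
          · rintro ⟨g, hg, rfl⟩
            exact ⟨⟨g, ⟨g, hg, rfl⟩⟩, rfl⟩
        rw [h1, commutator_def, Subgroup.map_commutator, ← MonoidHom.range_eq_map, r.range]
        exact commutator_alternatingGroup_eq_self hA
      have hnil : Group.IsNilpotent π'.ker := by
        have hmem : ∀ x : π'.ker, Subgroup.inclusion hle x.1 ∈ r.π.ker := fun x => x.2
        let f : π'.ker →* r.π.ker := {
          toFun := fun x => ⟨Subgroup.inclusion hle x.1, hmem x⟩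
          map_one' := rfl
          map_mul' := fun _ _ => rfl }
        have hf : Function.Injective f := by
          intro x x' hxx
          have h2 : Subgroup.inclusion hle x.1 = Subgroup.inclusion hle x'.1 :=
            congrArg Subtype.val hxx
          exact Subtype.ext (Subgroup.inclusion_injective hle h2)
        have hnil' := r.nil
        refine Subgroup.isNilpotent_of_ker_le_center f ?_
        rw [(MonoidHom.ker_eq_bot_iff f).2 hf]
        exact bot_le
      exact ih (Nat.card L') hlt ⟨L', hfin, hnorm, π', hrange, hnil,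
        fun h g => r.equi h (Subgroup.inclusion hle g)⟩ rfl

/-- the abstract cover -/
def cov (r : Rc F k) : Cov F r.L k where
  φ :=
    { toFun := fun h =>
        { toFun := fun g => ⟨h * g * (h : G)⁻¹, r.norm h h.2 g g.2⟩
          invFun := fun g => ⟨(h : G)⁻¹ * g * h, by
            have h1 := r.norm (h : G)⁻¹ (F.inv_mem h.2) g g.2
            rwa [inv_inv] at h1⟩
          left_inv := fun g => by
            apply Subtype.ext
            change (h : G)⁻¹ * (h * g * (h : G)⁻¹) * h = g
            group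
          right_inv := fun g => by
            apply Subtype.ext
            change (h : G) * ((h : G)⁻¹ * g * h) * (h : G)⁻¹ = g
            group
          map_mul' := fun a b => by
            apply Subtype.ext
            change (h : G) * (a * b) * (h : G)⁻¹ = (h * a * (h : G)⁻¹) * (h * b * (h : G)⁻¹)
            group }
      map_one' := by
        ext g
        change ((1 : F) : G) * g * ((1 : F) : G)⁻¹ = g
        simp
      map_mul' := fun a b => by
        ext g
        change ((a * b : F) : G) * g * ((a * b : F) : G)⁻¹ = a * (b * g * (b : G)⁻¹) * (a : G)⁻¹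
        rw [Subgroup.coe_mul]
        group }
  π := r.π
  range := r.range
  equi := fun h g => r.equi h g

theorem cov_φ (r : Rc F k) (h : F) (g : r.L) : ((r.cov.φ h g : r.L) : G) = h * g * (h : G)⁻¹ :=
  rfl

/-- free elements -/
theorem exists_free (hk : 29 ≤ k) (r : Rc F k) : ∃ p : ℕ, p.Prime ∧ Nonempty (Free p F) := by
  obtain ⟨r, hperf⟩ := exists_perfect (by omega) r
  have := r.fin
  have hT : r.cov.Target := by
    by_cases hP : r.cov.π.ker ≤ Subgroup.center r.L
    · exact r.cov.central (by omega) hP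
    · exact r.cov.modular hk hperf r.nil hP
  obtain ⟨p, hp, X, χ, y, hadd, hX, hc, hχ, h0⟩ := hT
  classical
  refine ⟨p, hp, ?_⟩
  let χ' : G → ZMod p := fun g => if h : g ∈ r.L then χ ⟨g, h⟩ else 0
  have hχ' : ∀ g : r.L, χ' g = χ g := fun g => dif_pos g.2
  have hfin : Finite (X.map r.L.subtype) := by
    have hle : X.map r.L.subtype ≤ r.L := Subgroup.map_subtype_le _
    exact Finite.of_injective (Subgroup.inclusion hle) (Subgroup.inclusion_injective hle)
  refine free_of hp (X.map r.L.subtype) χ' ?_ (y : G) ?_ ?_ ?_ ?_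
  · rintro _ ⟨a, ha, rfl⟩ _ ⟨b, hb, rfl⟩
    rw [← map_mul]
    change χ' (a * b : r.L) = χ' a + χ' b
    rw [hχ', hχ', hχ']
    exact hadd a ha b hb
  · intro h hh
    exact ⟨r.cov.φ ⟨h, hh⟩ y, hX ⟨h, hh⟩, rfl⟩
  · intro h hh
    exact congrArg Subtype.val (hc ⟨h, hh⟩).eq
  · rw [hχ', hχ]
  · intro h hh hne
    have h1 := hχ' (r.cov.φ ⟨h, hh⟩ y)
    rw [cov_φ, h0 ⟨h, hh⟩ (fun h2 => hne (congrArg Subtype.val h2))] at h1
    exact h1

end Rc

end Pool.Agent.Lib.MP_b9166b_al.Rg
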