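import Pool.Agent.Lib.MP_b9166b_al.Rg.BlkAlt
import Pool.Agent.Lib.MP_b9166b_al.Rg.Free

/-!
# MP_b9166b_al, REG: covers with regular orbits, central kernel

`Cov Γ L k`: the group `Γ` acts on the group `L`, which has the alternating group of `Γ × Fin k` as
a quotient, where `Γ` acts by left translation. `Target`: a free element.
-/

set_option autoImplicit false

namespace Pool.Agent.Lib.MP_b9166b_al.Rg

open Equiv Equiv.Perm

/-- left translation on `k` regular orbits -/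
def tr {Γ : Type} [Group Γ] {k : ℕ} (h : Γ) : Perm (Γ × Fin k) :=
  Equiv.prodCongr (Equiv.mulLeft h) (Equiv.refl _)

theorem tr_apply {Γ : Type} [Group Γ] {k : ℕ} (h g : Γ) (i : Fin k) :
    tr h (g, i) = (h * g, i) := rfl

theorem tr_inv_apply {Γ : Type} [Group Γ] {k : ℕ} (h g : Γ) (i : Fin k) :
    (tr h)⁻¹ (g, i) = (h⁻¹ * g, i) := by
  rw [Perm.inv_eq_iff_eq, tr_apply, mul_inv_cancel_left]

theorem tr_inv {Γ : Type} [Group Γ] {k : ℕ} (h : Γ) :
    (tr h : Perm (Γ × Fin k))⁻¹ = tr h⁻¹ := by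
  apply Equiv.ext
  rintro ⟨g, i⟩
  rw [tr_inv_apply, tr_apply]

variable {Γ L : Type} [Group Γ] [Group L] [Fintype Γ] [DecidableEq Γ] {k : ℕ}

/-- a cover with regular orbits -/
structure Cov (Γ L : Type) [Group Γ] [Group L] [Fintype Γ] [DecidableEq Γ] (k : ℕ) where
  φ : Γ →* MulAut L
  π : L →* Perm (Γ × Fin k)
  range : π.range = alternatingGroup (Γ × Fin k)
  equi : ∀ h g, π (φ h g) = tr h * π g * (tr h)⁻¹

namespace Cov

variable (c : Cov Γ L k)

/-- a free element, abstract form -/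
def Target : Prop := ∃ p : ℕ, p.Prime ∧ ∃ (X : Subgroup L) (χ : L → ZMod p) (y : L),
  (∀ a ∈ X, ∀ b ∈ X, χ (a * b) = χ a + χ b) ∧ (∀ h, c.φ h y ∈ X) ∧
    (∀ h, Commute y (c.φ h y)) ∧ χ y = 1 ∧ ∀ h, h ≠ 1 → χ (c.φ h y) = 0

theorem exists_lift {σ : Perm (Γ × Fin k)} (h : sign σ = 1) : ∃ g, c.π g = σ := by
  have h1 : σ ∈ c.π.range := by
    rw [c.range, mem_alternatingGroup, h]
  exact h1

/-- the three moved points -/
def pt : ZMod 3 → Fin 5 := ![2, 0, 3]

theorem pt_injective : Function.Injective pt := by decide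

theorem exists_comm : ∃ α β : Perm (Fin 5), sign α = 1 ∧ sign β = 1 ∧
    ∀ i, (cm α β) (pt i) = pt (i + 1) := by
  refine ⟨c[0, 1, 2], c[2, 3, 4], ?_, ?_, ?_⟩ <;> decide

/-- five points of one regular orbit -/
def em (hk : 5 ≤ k) : Fin 5 ↪ Γ × Fin k :=
  ⟨fun i => (1, Fin.castLE hk i), fun i j h =>
    Fin.castLE_injective hk (congrArg Prod.snd h)⟩

theorem em_apply (hk : 5 ≤ k) (i : Fin 5) : (em hk i : Γ × Fin k) = (1, Fin.castLE hk i) := rfl

theorem via_em_of_ne (hk : 5 ≤ k) (d : Perm (Fin 5)) {x : Γ × Fin k} (hx : x.1 ≠ 1) :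
    viaEmbeddingHom (em hk) d x = x := by
  apply via_apply_of_notMem
  intro i hi
  apply hx
  rw [← hi]
  rfl

theorem comm_via (hk : 5 ≤ k) (d : Perm (Fin 5)) {σ : Perm (Γ × Fin k)}
    (hσ : ∀ x : Γ × Fin k, x.1 = 1 → σ x = x) : Commute σ (viaEmbeddingHom (em hk) d) := by
  apply Perm.Disjoint.commute
  intro x
  by_cases h : x.1 = 1
  · exact Or.inl (hσ x h)
  · exact Or.inr (via_em_of_ne hk d h)

theorem central (hk : 5 ≤ k) (hP : c.π.ker ≤ Subgroup.center L) : c.Target := by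
  obtain ⟨α, β, hα, hβ, hαβ⟩ := exists_comm
  obtain ⟨v, hv⟩ := c.exists_lift (σ := viaEmbeddingHom (em hk) α) (by rw [sign_via, hα])
  obtain ⟨w, hw⟩ := c.exists_lift (σ := viaEmbeddingHom (em hk) β) (by rw [sign_via, hβ])
  set y : L := cm v w with hy
  have hπy : c.π y = viaEmbeddingHom (em hk) (cm α β) := by
    rw [hy, cm, cm]
    simp only [map_mul, map_inv, hv, hw]
  let P : ZMod 3 → Γ × Fin k := fun i => em hk (pt i)
  have hPinj : Function.Injective P := fun i j h => pt_injective ((em hk).injective h)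
  let X : Subgroup L := {
    carrier := {u | ∃ e : ZMod 3, ∀ i, c.π u (P i) = P (i + e)}
    one_mem' := ⟨0, fun i => by rw [map_one, Perm.one_apply, add_zero]⟩
    mul_mem' := by
      rintro a b ⟨e, he⟩ ⟨e', he'⟩
      exact ⟨e' + e, fun i => by rw [map_mul, Perm.mul_apply, he', he, add_assoc]⟩
    inv_mem' := by
      rintro a ⟨e, he⟩
      refine ⟨-e, fun i => ?_⟩
      rw [map_inv, Perm.inv_eq_iff_eq, he, neg_add_cancel_right] }
  classical
  let χ : L → ZMod 3 := fun u => if h : ∃ e : ZMod 3, ∀ i, c.π u (P i) = P (i + e) then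
    h.choose else 0
  have hχ : ∀ (u : L) (e : ZMod 3), (∀ i, c.π u (P i) = P (i + e)) → χ u = e := by
    intro u e he
    have h : ∃ e : ZMod 3, ∀ i, c.π u (P i) = P (i + e) := ⟨e, he⟩
    have h1 : χ u = h.choose := dif_pos h
    have h2 := h.choose_spec 0
    rw [he, zero_add, zero_add] at h2
    rw [h1]
    exact (hPinj h2).symm
  have hfix : ∀ h : Γ, h ≠ 1 → ∀ x : Γ × Fin k, x.1 = 1 → c.π (c.φ h y) x = x := by
    rintro h hh ⟨g, i⟩ hg
    change g = 1 at hg
    subst hg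
    rw [c.equi, Perm.mul_apply, Perm.mul_apply, tr_inv_apply, hπy, via_em_of_ne, tr_apply,
      mul_inv_cancel_left]
    rw [mul_one]
    exact inv_ne_one.2 hh
  have hyX : ∀ i, c.π y (P i) = P (i + 1) := by
    intro i
    rw [hπy]
    change viaEmbeddingHom (em hk) (cm α β) (em hk (pt i)) = em hk (pt (i + 1))
    rw [via_apply, hαβ]
  have hhX : ∀ h : Γ, h ≠ 1 → ∀ i, c.π (c.φ h y) (P i) = P (i + 0) := by
    intro h hh i
    rw [hfix h hh _ rfl, add_zero]
  refine ⟨3, Nat.prime_three, X, χ, y, ?_, ?_, ?_, hχ y 1 hyX, fun h hh => hχ _ 0 (hhX h hh)⟩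
  · rintro a ⟨e, he⟩ b ⟨e', he'⟩
    rw [hχ a e he, hχ b e' he']
    apply hχ
    intro i
    rw [map_mul, Perm.mul_apply, he', he, add_assoc, add_comm e']
  · intro h
    by_cases hh : h = 1
    · subst hh
      rw [map_one, MulAut.one_apply]
      exact ⟨1, hyX⟩
    · exact ⟨0, hhX h hh⟩
  · intro h
    by_cases hh : h = 1
    · subst hh
      rw [map_one, MulAut.one_apply]
    · -- the commutators with `v` and `w` are central
      have hz : ∀ x : L, Commute (c.π (c.φ h y)) (c.π x) →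
          ∃ z ∈ Subgroup.center L, c.φ h y * x * (c.φ h y)⁻¹ = z * x := by
        intro x hx
        refine ⟨c.φ h y * x * (c.φ h y)⁻¹ * x⁻¹, hP ?_, by group⟩
        rw [MonoidHom.mem_ker, map_mul, map_mul, map_mul, map_inv, map_inv, hx.eq]
        group
      obtain ⟨z, hz1, hz2⟩ := hz v (by
        rw [hv]
        exact comm_via hk α (hfix h hh))
      obtain ⟨z', hz1', hz2'⟩ := hz w (by
        rw [hw]
        exact comm_via hk β (hfix h hh))
      have h1 : c.φ h y * y * (c.φ h y)⁻¹ = y := by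
        have h2 : c.φ h y * y * (c.φ h y)⁻¹ =
            cm (c.φ h y * v * (c.φ h y)⁻¹) (c.φ h y * w * (c.φ h y)⁻¹) := by
          have h3 : ∀ g a b : L, g * cm a b * g⁻¹ = cm (g * a * g⁻¹) (g * b * g⁻¹) := by
            intro g a b
            rw [cm, cm]
            group
          exact h3 _ _ _
        rw [h2, hz2, hz2', hy, cm, cm]
        have hzc : ∀ g, z * g = g * z := fun g => (Subgroup.mem_center_iff.1 hz1 g).symm
        have hzc' : ∀ g, z' * g = g * z' := fun g => (Subgroup.mem_center_iff.1 hz1' g).symm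
        rw [mul_inv_rev, mul_inv_rev]
        calc z * v * (z' * w) * (v⁻¹ * z⁻¹) * (w⁻¹ * z'⁻¹)
            = z * (v * z' * w * v⁻¹) * z⁻¹ * w⁻¹ * z'⁻¹ := by group
          _ = (v * z' * w * v⁻¹) * z * z⁻¹ * w⁻¹ * z'⁻¹ := by rw [hzc]
          _ = v * (z' * (w * v⁻¹ * w⁻¹)) * z'⁻¹ := by group
          _ = v * ((w * v⁻¹ * w⁻¹) * z') * z'⁻¹ := by rw [hzc']
          _ = v * w * v⁻¹ * w⁻¹ := by group
      change y * c.φ h y = c.φ h y * y
      exact (mul_inv_eq_iff_eq_mul.1 h1).symm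

end Cov

end Pool.Agent.Lib.MP_b9166b_al.Rg
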