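import Pool.Agent.Lib.MP_b9166b_al.Rg.Nil

/-!
# MP_b9166b_al, REG: long commutators vanish in unipotent groups of bounded degree

`D` is an abelian group of unipotent maps of degree at most `e`, normalized by pairwise commuting
unipotent maps `b` of degree at most `d`. Then `[b_m, …, [b_1, δ]] = 1` for `m ≥ e (2 d + 1)`.
-/

set_option autoImplicit false

namespace Pool.Agent.Lib.MP_b9166b_al.Rg

variable {K V Γ : Type} [Field K] [AddCommGroup V] [Module K V] [Group Γ]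

/-- the series `V ≥ (D - 1) V ≥ (D - 1)² V ≥ …` -/
def Vs (ρ : Γ →* (V →ₗ[K] V)ˣ) (D : Subgroup Γ) : ℕ → Submodule K V
  | 0 => ⊤
  | j + 1 => ⨆ δ : D, (Vs ρ D j).map ((ρ δ).val - 1)

variable {ρ : Γ →* (V →ₗ[K] V)ˣ} {D : Subgroup Γ}

theorem vs_succ_mem {j : ℕ} {δ : Γ} (hδ : δ ∈ D) {v : V} (hv : v ∈ Vs ρ D j) :
    ((ρ δ).val - 1) v ∈ Vs ρ D (j + 1) :=
  Submodule.mem_iSup_of_mem (p := fun δ : D => (Vs ρ D j).map ((ρ δ).val - 1)) ⟨δ, hδ⟩
    (Submodule.mem_map_of_mem hv)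

theorem vs_succ_le {j : ℕ} {W : Submodule K V}
    (h : ∀ δ ∈ D, ∀ v ∈ Vs ρ D j, ((ρ δ).val - 1) v ∈ W) : Vs ρ D (j + 1) ≤ W := by
  refine iSup_le fun δ => ?_
  rw [Submodule.map_le_iff_le_comap]
  intro v hv
  exact h δ δ.2 v hv

theorem vs_inv {g : Γ} (hg : ∀ δ ∈ D, g * δ * g⁻¹ ∈ D) (j : ℕ) :
    ∀ v ∈ Vs ρ D j, (ρ g).val v ∈ Vs ρ D j := by
  induction j with
  | zero => intro v _; exact Submodule.mem_top
  | succ j ih =>
    have : Vs ρ D (j + 1) ≤ (Vs ρ D (j + 1)).comap (ρ g).val := by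
      refine vs_succ_le fun δ hδ v hv => ?_
      rw [Submodule.mem_comap]
      have h1 : (ρ g).val (((ρ δ).val - 1) v) = ((ρ (g * δ * g⁻¹)).val - 1) ((ρ g).val v) := by
        have h2 : (ρ (g * δ * g⁻¹)).val * (ρ g).val = (ρ g).val * (ρ δ).val := by
          rw [← Units.val_mul, ← map_mul, inv_mul_cancel_right, map_mul, Units.val_mul]
        rw [LinearMap.sub_apply, LinearMap.sub_apply, map_sub, Module.End.one_apply,
          Module.End.one_apply, ← Module.End.mul_apply, ← Module.End.mul_apply, h2]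
      rw [h1]
      exact vs_succ_mem (hg δ hδ) (ih v hv)
    exact this

theorem vs_anti (j : ℕ) : Vs ρ D (j + 1) ≤ Vs ρ D j := by
  refine vs_succ_le fun δ hδ v hv => ?_
  rw [LinearMap.sub_apply, Module.End.one_apply]
  exact Submodule.sub_mem _
    (vs_inv (fun δ' hδ' => D.mul_mem (D.mul_mem hδ hδ') (D.inv_mem hδ)) j v hv) hv

theorem vs_eq_bot {e : ℕ} (hD : ∀ δ ∈ D, NilRank e ((ρ δ).val - 1))
    (hc : ∀ δ ∈ D, ∀ δ' ∈ D, Commute δ δ') : Vs ρ D (e + 1) = ⊥ := by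
  set B : Set (V →ₗ[K] V) := {β | ∃ δ ∈ D, β = (ρ δ).val - 1} with hBdef
  have hB : ∀ β ∈ B, NilRank e β := by
    rintro β ⟨δ, hδ, rfl⟩
    exact hD δ hδ
  have hBc : ∀ β ∈ B, ∀ β' ∈ B, Commute β β' := by
    rintro β ⟨δ, hδ, rfl⟩ β' ⟨δ', hδ', rfl⟩
    have h1 : Commute (ρ δ).val (ρ δ').val := by
      have := (hc δ hδ δ' hδ').map ρ
      unfold Commute SemiconjBy at this ⊢
      rw [← Units.val_mul, this, Units.val_mul]
    exact (h1.sub_right (Commute.one_right _)).sub_left (Commute.one_left _)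
  have key : ∀ (j : ℕ) (l : List (V →ₗ[K] V)), (∀ β ∈ l, β ∈ B) → e < l.length + j →
      ∀ v ∈ Vs ρ D j, l.prod v = 0 := by
    intro j
    induction j with
    | zero =>
      intro l hl hlen v _
      rw [list_prod_eq_zero hB hBc hl (by omega)]
      rfl
    | succ j ih =>
      intro l hl hlen
      have : Vs ρ D (j + 1) ≤ LinearMap.ker l.prod := by
        refine vs_succ_le fun δ hδ v hv => ?_
        rw [LinearMap.mem_ker, ← Module.End.mul_apply]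
        have h1 : l.prod * ((ρ δ).val - 1) = (l ++ [(ρ δ).val - 1]).prod := by
          rw [List.prod_append, List.prod_singleton]
        rw [h1]
        refine ih _ ?_ ?_ v hv
        · intro β hβ
          rcases List.mem_append.1 hβ with h | h
          · exact hl β h
          · rw [List.mem_singleton] at h
            exact ⟨δ, hδ, h⟩
        · rw [List.length_append, List.length_singleton]
          omega
      intro v hv
      exact this hv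
  rw [eq_bot_iff]
  intro v hv
  have := key (e + 1) [] (by simp) (by simp) v hv
  simpa using this

/-- the maps sending `V_j` to `V_{j+k}` for all `j` -/
def Uf (ρ : Γ →* (V →ₗ[K] V)ˣ) (D : Subgroup Γ) (k : ℕ) : Submodule K (V →ₗ[K] V) where
  carrier := {T | ∀ j, ∀ v ∈ Vs ρ D j, T v ∈ Vs ρ D (j + k)}
  add_mem' := fun hS hT j v hv => Submodule.add_mem _ (hS j v hv) (hT j v hv)
  zero_mem' := fun _ _ _ => Submodule.zero_mem _
  smul_mem' := fun c _ hT j v hv => Submodule.smul_mem _ c (hT j v hv)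

theorem uf_mul {k l : ℕ} {S T : V →ₗ[K] V} (hS : S ∈ Uf ρ D k) (hT : T ∈ Uf ρ D l) :
    S * T ∈ Uf ρ D (l + k) := by
  intro j v hv
  have := hS (j + l) (T v) (hT j v hv)
  rw [← add_assoc]
  exact this

theorem uf_anti (k : ℕ) : Uf ρ D (k + 1) ≤ Uf ρ D k := by
  intro T hT j v hv
  exact vs_anti (j + k) (hT j v hv)

theorem uf_anti_le {k l : ℕ} (h : k ≤ l) : Uf ρ D l ≤ Uf ρ D k := by
  induction l, h using Nat.le_induction with
  | base => exact le_rfl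
  | succ l _ ih => exact (uf_anti l).trans ih

theorem uf_of_norm {g : Γ} (hg : ∀ δ ∈ D, g * δ * g⁻¹ ∈ D) : (ρ g).val ∈ Uf ρ D 0 :=
  fun j v hv => vs_inv hg j v hv

theorem uf_D {δ : Γ} (hδ : δ ∈ D) : (ρ δ).val - 1 ∈ Uf ρ D 1 :=
  fun _ _ hv => vs_succ_mem hδ hv

theorem norm_D {δ : Γ} (hδ : δ ∈ D) : ∀ δ' ∈ D, δ * δ' * δ⁻¹ ∈ D :=
  fun _ h => D.mul_mem (D.mul_mem hδ h) (D.inv_mem hδ)

/-- the commutator `b δ b⁻¹ δ⁻¹` -/
def cm (b δ : Γ) : Γ := b * δ * b⁻¹ * δ⁻¹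

theorem th_mem {b : Γ} (hb : ∀ δ ∈ D, b * δ * b⁻¹ ∈ D) (hb' : ∀ δ ∈ D, b⁻¹ * δ * b ∈ D)
    {k : ℕ} {T : V →ₗ[K] V} (hT : T ∈ Uf ρ D k) : Th (ρ b) T ∈ Uf ρ D k := by
  unfold Th
  refine Submodule.sub_mem _ ?_ hT
  have h1 : ((ρ b)⁻¹).val ∈ Uf ρ D 0 := by
    rw [← map_inv]
    exact uf_of_norm (by simpa using hb')
  have h2 := uf_mul (uf_mul (uf_of_norm (ρ := ρ) hb) hT) h1
  simpa using h2

theorem cm_step {b : Γ} (hb : ∀ δ ∈ D, b * δ * b⁻¹ ∈ D) (hb' : ∀ δ ∈ D, b⁻¹ * δ * b ∈ D)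
    {k : ℕ} {δ : Γ} (hδ : δ ∈ D) (h : (ρ δ).val - 1 ∈ Uf ρ D k) :
    cm b δ ∈ D ∧ (ρ (cm b δ)).val - 1 ∈ Uf ρ D k ∧
      (ρ (cm b δ)).val - 1 - Th (ρ b) ((ρ δ).val - 1) ∈ Uf ρ D (k + 1) := by
  have h1 : (ρ (cm b δ)).val - 1 = Th (ρ b) ((ρ δ).val - 1) * (ρ δ⁻¹).val := by
    unfold cm Th
    have e1 : (ρ (b * δ * b⁻¹ * δ⁻¹)).val =
        (ρ b).val * (ρ δ).val * ((ρ b)⁻¹).val * (ρ δ⁻¹).val := by
      rw [map_mul, map_mul, map_mul, map_inv ρ b, Units.val_mul, Units.val_mul, Units.val_mul]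
    have e2 : (ρ b).val * ((ρ b)⁻¹).val = 1 := Units.mul_inv _
    have e3 : (ρ δ).val * (ρ δ⁻¹).val = 1 := by
      rw [map_inv]
      exact Units.mul_inv _
    have e4 : ((ρ b).val * ((ρ δ).val - 1) * ((ρ b)⁻¹).val - ((ρ δ).val - 1)) =
        (ρ b).val * (ρ δ).val * ((ρ b)⁻¹).val - (ρ δ).val := by
      rw [mul_sub, sub_mul, mul_one, e2]
      abel
    rw [e1, e4, sub_mul, e3]
  have hTh := th_mem hb hb' h
  have h0 : (ρ δ⁻¹).val ∈ Uf ρ D 0 := uf_of_norm (norm_D (D.inv_mem hδ))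
  have h2 : (ρ (cm b δ)).val - 1 ∈ Uf ρ D k := by
    rw [h1]
    have := uf_mul hTh h0
    rwa [zero_add] at this
  refine ⟨D.mul_mem (hb δ hδ) (D.inv_mem hδ), h2, ?_⟩
  have h3 : (ρ (cm b δ)).val - 1 - Th (ρ b) ((ρ δ).val - 1) =
      Th (ρ b) ((ρ δ).val - 1) * ((ρ δ⁻¹).val - 1) := by
    rw [h1, mul_sub, mul_one]
  rw [h3]
  have h4 := uf_mul hTh (uf_D (ρ := ρ) (D.inv_mem hδ))
  rwa [add_comm 1 k] at h4

theorem th_sub (b : (V →ₗ[K] V)ˣ) (S T : V →ₗ[K] V) : Th b S - Th b T = Th b (S - T) := by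
  unfold Th
  rw [mul_sub, sub_mul]
  abel

theorem foldr_step {U : Set Γ} (hU1 : ∀ b ∈ U, ∀ δ ∈ D, b * δ * b⁻¹ ∈ D)
    (hU2 : ∀ b ∈ U, ∀ δ ∈ D, b⁻¹ * δ * b ∈ D) {k : ℕ} {δ : Γ} (hδ : δ ∈ D)
    (h : (ρ δ).val - 1 ∈ Uf ρ D k) (L : List Γ) : (∀ b ∈ L, b ∈ U) →
    L.foldr cm δ ∈ D ∧ (ρ (L.foldr cm δ)).val - 1 ∈ Uf ρ D k ∧
      (ρ (L.foldr cm δ)).val - 1 - (L.map ρ).foldr Th ((ρ δ).val - 1) ∈ Uf ρ D (k + 1) := by
  induction L with
  | nil =>
    intro _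
    refine ⟨hδ, h, ?_⟩
    simp
  | cons b L ih =>
    intro hL
    have hb : b ∈ U := hL b List.mem_cons_self
    obtain ⟨h1, h2, h3⟩ := ih fun c hc => hL c (List.mem_cons_of_mem _ hc)
    obtain ⟨h4, h5, h6⟩ := cm_step (hU1 b hb) (hU2 b hb) h1 h2
    rw [List.foldr_cons, List.map_cons, List.foldr_cons]
    refine ⟨h4, h5, ?_⟩
    have h7 := th_mem (hU1 b hb) (hU2 b hb) h3
    rw [← th_sub] at h7
    have h8 := Submodule.add_mem _ h6 h7
    have h9 : ∀ a b c : V →ₗ[K] V, a - b + (b - c) = a - c := by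
      intro a b c
      abel
    rw [h9] at h8
    exact h8

theorem foldr_cm_eq_one {d e : ℕ} {U : Set Γ} (hU1 : ∀ b ∈ U, ∀ δ ∈ D, b * δ * b⁻¹ ∈ D)
    (hU2 : ∀ b ∈ U, ∀ δ ∈ D, b⁻¹ * δ * b ∈ D) (hU3 : ∀ b ∈ U, ∀ b' ∈ U, Commute b b')
    (hU4 : ∀ b ∈ U, NilRank d ((ρ b).val - 1)) (hD : ∀ δ ∈ D, NilRank e ((ρ δ).val - 1))
    (hc : ∀ δ ∈ D, ∀ δ' ∈ D, Commute δ δ') (hρ : Function.Injective ρ)
    {δ : Γ} (hδ : δ ∈ D) {L : List Γ} (hL : ∀ b ∈ L, b ∈ U)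
    (hlen : e * (2 * d + 1) ≤ L.length) : L.foldr cm δ = 1 := by
  have key : ∀ (k : ℕ) (L : List Γ), (∀ b ∈ L, b ∈ U) → k * (2 * d + 1) ≤ L.length →
      L.foldr cm δ ∈ D ∧ (ρ (L.foldr cm δ)).val - 1 ∈ Uf ρ D (k + 1) := by
    intro k
    induction k with
    | zero =>
      intro L hL _
      obtain ⟨h1, h2, -⟩ := foldr_step (ρ := ρ) hU1 hU2 hδ (uf_D hδ) L hL
      exact ⟨h1, h2⟩
    | succ k ih =>
      intro L hL hlen
      have hsp : L = L.take (2 * d + 1) ++ L.drop (2 * d + 1) := (List.take_append_drop _ _).symm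
      have hk : (k + 1) * (2 * d + 1) = k * (2 * d + 1) + (2 * d + 1) := by ring
      have hl1 : (L.take (2 * d + 1)).length = 2 * d + 1 := by
        rw [List.length_take]
        omega
      have hl2 : k * (2 * d + 1) ≤ (L.drop (2 * d + 1)).length := by
        rw [List.length_drop]
        omega
      obtain ⟨h1, h2⟩ := ih (L.drop (2 * d + 1)) (fun b hb => hL b (List.mem_of_mem_drop hb)) hl2
      obtain ⟨h3, h4, h5⟩ := foldr_step (ρ := ρ) hU1 hU2 h1 h2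
        (L.take (2 * d + 1)) fun b hb => hL b (List.mem_of_mem_take hb)
      have h6 : ((L.take (2 * d + 1)).map ρ).foldr Th
          ((ρ ((L.drop (2 * d + 1)).foldr cm δ)).val - 1) = 0 := by
        refine foldr_Th_eq_zero (d := d) (U := ρ '' U) ?_ ?_ _ ?_ ?_
        · rintro _ ⟨b, hb, rfl⟩ _ ⟨b', hb', rfl⟩
          exact (hU3 b hb b' hb').map ρ
        · rintro _ ⟨b, hb, rfl⟩
          exact hU4 b hb
        · intro b hb
          obtain ⟨c, hc, rfl⟩ := List.mem_map.1 hb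
          exact ⟨c, hL c (List.mem_of_mem_take hc), rfl⟩
        · rw [List.length_map, hl1]
      rw [h6, sub_zero, ← List.foldr_append, ← hsp] at h5
      rw [← List.foldr_append, ← hsp] at h3
      exact ⟨h3, h5⟩
  obtain ⟨-, h⟩ := key e L hL hlen
  apply hρ
  rw [map_one]
  ext v
  have h1 := h 0 v Submodule.mem_top
  rw [zero_add, vs_eq_bot hD hc, Submodule.mem_bot, LinearMap.sub_apply, Module.End.one_apply,
    sub_eq_zero] at h1
  exact h1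

end Pool.Agent.Lib.MP_b9166b_al.Rg
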