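import Pool.Agent.Lib.MP_b9166b_al.Rg.Free
import Pool.Agent.Lib.MP_b9166b_al.Rg.Prime
import Pool.Agent.Lib.MP_b9166b_al.Deg

/-!
# MP_b9166b_al, REG: the characteristic of the representation is the prime of every free element
-/

set_option autoImplicit false

namespace Pool.Agent.Lib.MP_b9166b_al.Rg

open Pool.Agent.Lib.MP_b9166b_al

/-- in a finite commutative group `E` with a homomorphism onto `(ℤ/p)^k` there are at least `p ^ k`
elements with `e ^ p = 1` -/
theorem card_torsion {E : Type} [CommGroup E] [Finite E] {p k : ℕ}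
    (Θ : E →* Multiplicative (Fin k → ZMod p)) (hΘ : Function.Surjective Θ) :
    p ^ k ≤ Nat.card (powMonoidHom p : E →* E).ker := by
  have h1 : Nat.card Θ.ker * Nat.card (Multiplicative (Fin k → ZMod p)) = Nat.card E := by
    rw [← Subgroup.card_mul_index Θ.ker, Subgroup.index_ker,
      MonoidHom.range_eq_top.2 hΘ, Subgroup.card_top]
  have h2 : Nat.card (powMonoidHom p : E →* E).ker *
      Nat.card (powMonoidHom p : E →* E).range = Nat.card E := by
    rw [← Subgroup.card_mul_index (powMonoidHom p : E →* E).ker, Subgroup.index_ker]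
  have h3 : (powMonoidHom p : E →* E).range ≤ Θ.ker := by
    rintro _ ⟨e, rfl⟩
    rw [MonoidHom.mem_ker, powMonoidHom_apply, map_pow]
    apply Multiplicative.toAdd.injective
    rw [toAdd_pow, toAdd_one]
    ext i
    rw [Pi.smul_apply, Pi.zero_apply, nsmul_eq_mul, CharP.cast_eq_zero, zero_mul]
  have h4 : Nat.card (Multiplicative (Fin k → ZMod p)) = p ^ k := by
    have : Nat.card (Multiplicative (Fin k → ZMod p)) = Nat.card (Fin k → ZMod p) := rfl
    rw [this, Nat.card_fun, Nat.card_zmod, Nat.card_eq_fintype_card, Fintype.card_fin]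
  have h5 : Nat.card (powMonoidHom p : E →* E).range ≤ Nat.card Θ.ker :=
    Nat.card_le_card_of_injective _ (Subgroup.inclusion_injective h3)
  have h6 : 0 < Nat.card Θ.ker := Nat.card_pos
  rw [h4] at h1
  have h7 : p ^ k * Nat.card Θ.ker ≤
      Nat.card (powMonoidHom p : E →* E).ker * Nat.card Θ.ker := by
    calc p ^ k * Nat.card Θ.ker = Nat.card Θ.ker * p ^ k := mul_comm _ _
      _ = Nat.card (powMonoidHom p : E →* E).ker *
          Nat.card (powMonoidHom p : E →* E).range := by rw [h1, h2]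
      _ ≤ _ := Nat.mul_le_mul_left _ h5
  exact Nat.le_of_mul_le_mul_right h7 h6

variable {G : Type} [Group G] {K V : Type} [Field K] [AddCommGroup V] [Module K V]

/-- bounded rank if the characteristic is not `p` -/
theorem Free.bound {p : ℕ} (hp : p.Prime) (hpK : (p : K) ≠ 0) {F : Subgroup G} (f : Free p F)
    {x c : G} (hx : x ∈ F) (hc : c ∈ F) (h0 : 0 < orderOf x) (hcC : c ∈ Subgroup.centralizer {x})
    (hcx : c ∉ Subgroup.zpowers x)
    {D : Subgroup G} (hxD : x ∈ D) (hcD : c ∈ D) {k : ℕ} (g : Fin k → G) (hg : ∀ i, g i ∈ F)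
    (hgD : ∀ i j, i ≠ j → g i * (g j)⁻¹ ∉ D)
    (ρ : Subgroup.centralizer ({x} : Set G) →* (V →ₗ[K] V)ˣ) (hρ : Function.Injective ρ)
    {d : ℕ} (hd : Deg (ρ ⟨c, hcC⟩).val d) : k ≤ 2 * d := by
  classical
  set A : Subgroup G := f.Y ⊓ Subgroup.centralizer ({x} : Set G) with hA
  have hAY : ∀ a ∈ A, a ∈ f.Y := fun a ha => ha.1
  have hAC : ∀ a ∈ A, a ∈ Subgroup.centralizer ({x} : Set G) := fun a ha => ha.2
  let _ : CommGroup A := { (inferInstance : Group A) with
    mul_comm := fun a b => Subtype.ext (f.comm a (hAY a a.2) b (hAY b b.2)) }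
  have := f.fin
  have hfinA : Finite A := Finite.of_injective (Subgroup.inclusion (inf_le_left : A ≤ f.Y))
    (Subgroup.inclusion_injective _)
  have hcm : ∀ a ∈ A, cm c a ∈ A := fun a ha => ⟨f.cm_mem hc (hAY a ha),
    Subgroup.mul_mem _ (Subgroup.mul_mem _ (Subgroup.mul_mem _ hcC (hAC a ha))
      (Subgroup.inv_mem _ hcC)) (Subgroup.inv_mem _ (hAC a ha))⟩
  set φ : A →* A :=
    { toFun := fun a => ⟨cm c a, hcm a a.2⟩
      map_one' := by
        ext
        simp [cm]
      map_mul' := fun a b => by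
        ext
        change cm c ((a : G) * b) = cm c a * cm c b
        unfold cm
        have h1 : c * ((a : G) * b) * c⁻¹ = (c * a * c⁻¹) * (c * b * c⁻¹) := by group
        rw [h1, mul_inv_rev]
        have h2 := f.norm c hc a (hAY a a.2)
        have h3 := f.norm c hc b (hAY b b.2)
        have h4 := f.Y.inv_mem (hAY a a.2)
        have h5 := f.Y.inv_mem (hAY b b.2)
        rw [f.comm _ h5 _ h4]
        calc c * ↑a * c⁻¹ * (c * ↑b * c⁻¹) * ((↑a)⁻¹ * (↑b)⁻¹)
            = c * ↑a * c⁻¹ * ((c * ↑b * c⁻¹) * (↑a)⁻¹) * (↑b)⁻¹ := by group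
          _ = c * ↑a * c⁻¹ * ((↑a)⁻¹ * (c * ↑b * c⁻¹)) * (↑b)⁻¹ := by
            rw [f.comm _ h3 _ h4]
          _ = c * ↑a * c⁻¹ * (↑a)⁻¹ * (c * ↑b * c⁻¹ * (↑b)⁻¹) := by group } with hφ
  -- the coordinate homomorphism
  set Θ : φ.range →* Multiplicative (Fin k → ZMod p) :=
    { toFun := fun e => Multiplicative.ofAdd fun i => f.co (g i) ((e : A) : G)
      map_one' := by
        apply Multiplicative.toAdd.injective
        ext i
        exact f.co_one _
      map_mul' := fun a b => by
        apply Multiplicative.toAdd.injective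
        ext i
        exact f.co_mul (hg i) (hAY _ (a : A).2) (hAY _ (b : A).2) } with hΘ
  have hna : ∀ i, f.na x (g i) ∈ A := by
    intro i
    refine ⟨f.na_mem hx (hg i), ?_⟩
    change f.na x (g i) ∈ Subgroup.centralizer ({x} : Set G)
    rw [Subgroup.mem_centralizer_singleton_iff]
    have h1 := f.na_comm hx (hg i)
    rw [mul_inv_eq_iff_eq_mul] at h1
    exact h1.symm
  have hcx' : ∀ j : ℕ, c⁻¹ ≠ x ^ j := by
    intro j h
    apply hcx
    rw [← inv_inv c, h]
    exact Subgroup.inv_mem _ (Subgroup.npow_mem_zpowers x j)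
  set e : Fin k → φ.range := fun i => ⟨φ ⟨f.na x (g i), hna i⟩, ⟨_, rfl⟩⟩ with he
  have hΘe : ∀ i, Multiplicative.toAdd (Θ (e i)) = - Pi.single i 1 := by
    intro i
    ext j
    change f.co (g j) (f.el x c (g i)) = _
    by_cases hij : j = i
    · subst hij
      rw [f.co_el_self hx hc h0 hcx' (hg j)]
      simp
    · rw [f.co_el_zero hx hc hxD hcD (hg i) (hg j) (hgD j i hij)]
      simp [hij]
  have hsurj : Function.Surjective Θ := by
    intro v
    have : NeZero p := ⟨hp.ne_zero⟩
    refine ⟨∏ i, (e i) ^ (-(Multiplicative.toAdd v i)).val, ?_⟩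
    apply Multiplicative.toAdd.injective
    rw [map_prod, toAdd_prod]
    ext j
    rw [Finset.sum_apply, Finset.sum_eq_single j]
    · rw [map_pow, toAdd_pow, hΘe, Pi.smul_apply, Pi.neg_apply, Pi.single_eq_same, nsmul_eq_mul,
        ZMod.natCast_val, ZMod.cast_id]
      ring
    · intro i _ hij
      rw [map_pow, toAdd_pow, hΘe, Pi.smul_apply, Pi.neg_apply, Pi.single_eq_of_ne hij.symm,
        neg_zero, smul_zero]
    · intro h
      exact absurd (Finset.mem_univ j) h
  have hcard := card_torsion Θ hsurj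
  -- the representation of the torsion
  set B := (powMonoidHom p : φ.range →* φ.range).ker with hB
  set ι : B →* Subgroup.centralizer ({x} : Set G) :=
    { toFun := fun b => ⟨(((b : φ.range) : A) : G), hAC _ ((b : φ.range) : A).2⟩
      map_one' := rfl
      map_mul' := fun _ _ => rfl } with hι
  have hιinj : Function.Injective ι := by
    intro a b hab
    ext
    exact congrArg (fun z : Subgroup.centralizer ({x} : Set G) => (z : G)) hab
  have hdeg : ∀ b : B, Deg ((ρ.comp ι) b).val (2 * d) := by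
    rintro ⟨⟨b, ⟨a, rfl⟩⟩, hb⟩
    have h1 : ι ⟨⟨φ a, ⟨a, rfl⟩⟩, hb⟩ = ⟨c, hcC⟩ * ⟨a, hAC _ a.2⟩ * ⟨c, hcC⟩⁻¹ *
        (⟨a, hAC _ a.2⟩ : Subgroup.centralizer ({x} : Set G))⁻¹ := rfl
    rw [MonoidHom.comp_apply, h1, map_mul, map_mul, map_mul, map_inv, map_inv]
    exact hd.comm
  have hle := card_le_pow (F := K) hp hpK (E := B) (D := 2 * d)
    (fun b => by
      have h1 : (b : φ.range) ^ p = 1 := MonoidHom.mem_ker.1 b.2
      exact Subtype.ext h1)
    (ρ.comp ι) (hρ.comp hιinj) (fun b => (hdeg b).1) (fun b => (hdeg b).2)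
  exact (Nat.pow_le_pow_iff_right hp.one_lt).1 (hcard.trans hle)

end Pool.Agent.Lib.MP_b9166b_al.Rg
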