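import Pool.Agent.Lib.MP_b9166b_al.Rg.CoreA
import Pool.Agent.Lib.MP_b9166b_al.Germ

/-!
# MP_b9166b_al, REG: no finitary representation if there are free elements for all finite subgroups
-/

set_option autoImplicit false

namespace Pool.Agent.Lib.MP_b9166b_al.Rg

open Pool.Agent.Lib.MP_b9166b_al

/-- the list `[E (n - 1), …, E 0]` -/
def Ls {α : Type} (E : ℕ → α) : ℕ → List α
  | 0 => []
  | n + 1 => E n :: Ls E n

theorem ls_succ {α : Type} (E : ℕ → α) (n : ℕ) : Ls E (n + 1) = Ls (fun i => E (i + 1)) n ++ [E 0] := by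
  induction n with
  | zero => rfl
  | succ n ih =>
    change E (n + 1) :: Ls E (n + 1) = _
    rw [ih]
    rfl

theorem mem_ls {α : Type} {E : ℕ → α} {n : ℕ} {a : α} (h : a ∈ Ls E n) : ∃ i < n, a = E i := by
  induction n with
  | zero => simp [Ls] at h
  | succ n ih =>
    rcases List.mem_cons.1 h with h | h
    · exact ⟨n, Nat.lt_succ_self n, h⟩
    · obtain ⟨i, hi, h1⟩ := ih h
      exact ⟨i, Nat.lt_succ_of_lt hi, h1⟩

theorem length_ls {α : Type} (E : ℕ → α) (n : ℕ) : (Ls E n).length = n := by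
  induction n with
  | zero => rfl
  | succ n ih => rw [Ls, List.length_cons, ih]

variable {G : Type} [Group G] {K V : Type} [Field K] [AddCommGroup V] [Module K V]

theorem coe_foldr {C : Subgroup G} (L : List C) (z : C) :
    ((L.foldr cm z : C) : G) = (L.map (fun a : C => (a : G))).foldr cm (z : G) := by
  induction L with
  | nil => rfl
  | cons b L ih =>
    rw [List.foldr_cons, List.map_cons, List.foldr_cons, ← ih]
    rfl

theorem map_ls {α β : Type} (φ : α → β) (E : ℕ → α) (n : ℕ) :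
    (Ls E n).map φ = Ls (fun i => φ (E i)) n := by
  induction n with
  | zero => rfl
  | succ n ih => rw [Ls, List.map_cons, ih]; rfl

theorem Free.cen {p : ℕ} {F : Subgroup G} (f : Free p F) {x g : G} (hx : x ∈ F) (hg : g ∈ F) :
    f.na x g ∈ Subgroup.centralizer ({x} : Set G) := by
  rw [Subgroup.mem_centralizer_singleton_iff]
  have h1 := f.na_comm hx hg
  rw [mul_inv_eq_iff_eq_mul] at h1
  exact h1.symm

theorem Free.el_cen {p : ℕ} {F : Subgroup G} (f : Free p F) {x c g : G} (hx : x ∈ F) (hg : g ∈ F)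
    (hcC : c ∈ Subgroup.centralizer ({x} : Set G)) :
    f.el x c g ∈ Subgroup.centralizer ({x} : Set G) :=
  Subgroup.mul_mem _ (Subgroup.mul_mem _ (Subgroup.mul_mem _ hcC (f.cen hx hg))
    (Subgroup.inv_mem _ hcC)) (Subgroup.inv_mem _ (f.cen hx hg))

/-- the elements `e (g n), …, e (g 0)` form a good list -/
theorem Free.good {p : ℕ} (hp : p.Prime) {F : Subgroup G} (f : Free p F)
    {x c : G} (hx : x ∈ F) (hc : c ∈ F) (h0 : 0 < orderOf x)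
    (hcC : c ∈ Subgroup.centralizer ({x} : Set G))
    (hcx : c ∉ Subgroup.zpowers x)
    {D : Subgroup G} (hxD : x ∈ D) (hcD : c ∈ D) {g : ℕ → G} (hg : ∀ i, g i ∈ F) {k : ℕ}
    (hgD : ∀ i < k, ∀ j < k, i ≠ j → g i * (g j)⁻¹ ∉ D) {n : ℕ} (hn : n ≤ k) :
    Free.Good x (Ls (fun i => f.el x c (g i)) n) := by
  have : Fact p.Prime := ⟨hp⟩
  have hcx' : ∀ j : ℕ, c⁻¹ ≠ x ^ j := by
    intro j h
    apply hcx
    rw [← inv_inv c, h]
    exact Subgroup.inv_mem _ (Subgroup.npow_mem_zpowers x j)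
  induction n with
  | zero => trivial
  | succ n ih =>
    refine ⟨?_, ih (by omega)⟩
    -- the subgroup of the elements with trivial coordinate
    set P : Subgroup G :=
      { carrier := {z | ∃ s ∈ Subgroup.zpowers x, ∃ u ∈ f.Y ⊓ Subgroup.centralizer ({x} : Set G),
          f.co (g n) u = 0 ∧ z = s * u}
        one_mem' := ⟨1, Subgroup.one_mem _, 1, Subgroup.one_mem _, f.co_one _, (mul_one _).symm⟩
        mul_mem' := by
          rintro _ _ ⟨s, hs, u, hu, h1, rfl⟩ ⟨s', hs', u', hu', h2, rfl⟩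
          refine ⟨s * s', Subgroup.mul_mem _ hs hs', u * u', Subgroup.mul_mem _ hu hu', ?_, ?_⟩
          · rw [f.co_mul (hg n) hu.1 hu'.1, h1, h2, add_zero]
          · obtain ⟨i, rfl⟩ := Subgroup.mem_zpowers_iff.1 hs'
            have h3 : Commute u x := (Subgroup.mem_centralizer_singleton_iff.1 hu.2)
            have h4 : u * x ^ i = x ^ i * u := (h3.zpow_right i).eq
            calc s * u * (x ^ i * u') = s * (u * x ^ i) * u' := by group
              _ = s * (x ^ i * u) * u' := by rw [h4]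
              _ = s * x ^ i * (u * u') := by group
        inv_mem' := by
          rintro _ ⟨s, hs, u, hu, h1, rfl⟩
          refine ⟨s⁻¹, Subgroup.inv_mem _ hs, u⁻¹, Subgroup.inv_mem _ hu, ?_, ?_⟩
          · rw [f.co_inv (hg n) hu.1, h1, neg_zero]
          · obtain ⟨i, rfl⟩ := Subgroup.mem_zpowers_iff.1 hs
            have h3 : Commute u x := (Subgroup.mem_centralizer_singleton_iff.1 hu.2)
            have h4 : u⁻¹ * (x ^ i)⁻¹ = (x ^ i)⁻¹ * u⁻¹ :=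
              ((h3.zpow_right i).inv_inv).eq
            rw [mul_inv_rev, h4] } with hP
    have hle : ∀ m ≤ n, Free.Hl x (Ls (fun i => f.el x c (g i)) m) ≤ P := by
      intro m hm
      induction m with
      | zero =>
        intro s hs
        exact ⟨s, hs, 1, Subgroup.one_mem _, f.co_one _, (mul_one _).symm⟩
      | succ m ihm =>
        refine sup_le (ihm (by omega)) ?_
        rw [Subgroup.zpowers_le]
        refine ⟨1, Subgroup.one_mem _, f.el x c (g m), ⟨f.el_mem hx hc (hg m),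
          f.el_cen hx (hg m) hcC⟩, ?_, (one_mul _).symm⟩
        exact f.co_el_zero hx hc hxD hcD (hg m) (hg n)
          (hgD n (by omega) m (by omega) (by omega))
    intro hmem
    obtain ⟨s, hs, u, hu, h1, h2⟩ := hle n le_rfl hmem
    change f.el x c (g n) = s * u at h2
    have h3 : s ∈ f.Y := by
      have : s = f.el x c (g n) * u⁻¹ := by rw [h2, mul_inv_cancel_right]
      rw [this]
      exact f.Y.mul_mem (f.el_mem hx hc (hg n)) (f.Y.inv_mem hu.1)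
    have h4 : s = 1 := f.disj hp ((Subgroup.zpowers_le.2 hx) hs) h3
    rw [h4, one_mul] at h2
    have h5 := f.co_el_self hx hc h0 hcx' (hg n)
    rw [h2, h1] at h5
    exact zero_ne_one (neg_eq_zero.1 h5.symm).symm

/-- unipotent elements of bounded degree -/
theorem nilRank_of {p : ℕ} (hp : p.Prime) [CharP K p] [Nontrivial V] {u : (V →ₗ[K] V)ˣ} {d : ℕ}
    (hd : Deg u.val d) {n : ℕ} (hu : u ^ (p ^ n) = 1) : NilRank d (u.val - 1) := by
  have : Fact p.Prime := ⟨hp⟩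
  have : CharP (V →ₗ[K] V) p :=
    charP_of_injective_algebraMap (algebraMap K (Module.End K V)).injective p
  have hneg : LinearMap.range (u.val - 1) = LinearMap.range (1 - u.val) := by
    rw [← LinearMap.range_neg, neg_sub]
  refine ⟨⟨p ^ n, ?_⟩, ?_, ?_⟩
  · rw [sub_pow_char_pow_of_commute _ _ (Commute.one_right _), one_pow,
      ← Units.val_pow_eq_pow_val, hu, Units.val_one, sub_self]
  · rw [hneg]
    exact hd.1
  · rw [hneg]
    exact hd.2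

theorem deg_cm {C : Subgroup G} (ρ : C →* (V →ₗ[K] V)ˣ) {b : C} {d : ℕ} (hd : Deg (ρ b).val d)
    (a : C) : Deg (ρ (cm b a)).val (2 * d) := by
  unfold cm
  rw [map_mul, map_mul, map_mul, map_inv, map_inv]
  exact hd.comm

/-- the second step: long commutators give a contradiction in characteristic `p` -/
theorem Free.contra {p : ℕ} (hp : p.Prime) [CharP K p] [Nontrivial V] {F₁ F₂ : Subgroup G}
    (f₁ : Free p F₁) (f₂ : Free p F₂)
    {x c : G} (hx₁ : x ∈ F₁) (hc₁ : c ∈ F₁) (hx₂ : x ∈ F₂) (h0 : 0 < orderOf x)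
    {C : Subgroup G} (hCd : C = Subgroup.centralizer ({x} : Set G))
    (hcC : c ∈ C) (hcx : c ∉ Subgroup.zpowers x)
    {D : Subgroup G} (hxD : x ∈ D) (hcD : c ∈ D) {g : ℕ → G} (hg : ∀ i, g i ∈ F₁) {k : ℕ}
    (hgD : ∀ i < k, ∀ j < k, i ≠ j → g i * (g j)⁻¹ ∉ D)
    (hF₂ : ∀ i, f₁.el x c (g i) ∈ F₂)
    (ρ : C →* (V →ₗ[K] V)ˣ) (hρ : Function.Injective ρ)
    {d₀ : ℕ} (hd : Deg (ρ ⟨c, hcC⟩).val d₀)
    (hk : (2 * (2 * d₀)) * (2 * (2 * d₀) + 1) + 1 ≤ k) : False := by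
  classical
  have hcen : ∀ a, a ∈ Subgroup.centralizer ({x} : Set G) → a ∈ C := fun a ha => by
    rw [hCd]
    exact ha
  set E : ℕ → C := fun i => cm ⟨c, hcC⟩ ⟨f₁.na x (g i), hcen _ (f₁.cen hx₁ (hg i))⟩ with hE
  have hEY : ∀ i, (E i : G) ∈ f₁.Y := fun i => f₁.el_mem hx₁ hc₁ (hg i)
  have hdegE : ∀ i, Deg (ρ (E i)).val (2 * d₀) := by
    intro i
    exact deg_cm ρ hd _
  have htorC : ∀ {q : ℕ} {F : Subgroup G} (f : Free q F) (a : C), (a : G) ∈ f.Y →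
      ∃ n : ℕ, (ρ a) ^ (q ^ n) = 1 := by
    intro q F f a ha
    obtain ⟨n, hn⟩ := f.tors a ha
    refine ⟨n, ?_⟩
    rw [← map_pow]
    have : a ^ (q ^ n) = 1 := Subtype.ext hn
    rw [this, map_one]
  -- the group `D'` of the commutators `[E 0, u]`
  have hnorm0 : ∀ u : C, (u : G) ∈ f₂.Y → ((E 0 * u * (E 0)⁻¹ : C) : G) ∈ f₂.Y :=
    fun u hu => f₂.norm _ (hF₂ 0) _ hu
  have hcomm2 : ∀ a b : C, (a : G) ∈ f₂.Y → (b : G) ∈ f₂.Y → a * b = b * a :=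
    fun a b ha hb => Subtype.ext (f₂.comm a ha b hb)
  have hcm : ∀ u v : C, (u : G) ∈ f₂.Y → (v : G) ∈ f₂.Y →
      cm (E 0) (u * v) = cm (E 0) u * cm (E 0) v := by
    intro u v hu hv
    unfold cm
    have h1 : E 0 * (u * v) * (E 0)⁻¹ = (E 0 * u * (E 0)⁻¹) * (E 0 * v * (E 0)⁻¹) := by group
    rw [h1, mul_inv_rev, hcomm2 v⁻¹ u⁻¹ (f₂.Y.inv_mem hv) (f₂.Y.inv_mem hu)]
    calc E 0 * u * (E 0)⁻¹ * (E 0 * v * (E 0)⁻¹) * (u⁻¹ * v⁻¹)
        = E 0 * u * (E 0)⁻¹ * ((E 0 * v * (E 0)⁻¹) * u⁻¹) * v⁻¹ := by group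
      _ = E 0 * u * (E 0)⁻¹ * (u⁻¹ * (E 0 * v * (E 0)⁻¹)) * v⁻¹ := by
        rw [hcomm2 (E 0 * v * (E 0)⁻¹) u⁻¹ (hnorm0 v hv) (f₂.Y.inv_mem hu)]
      _ = E 0 * u * (E 0)⁻¹ * u⁻¹ * (E 0 * v * (E 0)⁻¹ * v⁻¹) := by group
  set D' : Subgroup C :=
    { carrier := {δ | ∃ u : C, (u : G) ∈ f₂.Y ∧ δ = cm (E 0) u}
      one_mem' := ⟨1, f₂.Y.one_mem, by simp [cm]⟩
      mul_mem' := by
        rintro _ _ ⟨u, hu, rfl⟩ ⟨v, hv, rfl⟩
        exact ⟨u * v, f₂.Y.mul_mem hu hv, (hcm u v hu hv).symm⟩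
      inv_mem' := by
        rintro _ ⟨u, hu, rfl⟩
        refine ⟨u⁻¹, f₂.Y.inv_mem hu, ?_⟩
        rw [inv_eq_iff_mul_eq_one, ← hcm u u⁻¹ hu (f₂.Y.inv_mem hu), mul_inv_cancel]
        simp [cm] } with hD'
  have hD'Y : ∀ δ ∈ D', (δ : G) ∈ f₂.Y := by
    rintro _ ⟨u, hu, rfl⟩
    exact f₂.Y.mul_mem (hnorm0 u hu) (f₂.Y.inv_mem hu)
  -- the pairwise commuting elements
  set U : Set C := Set.range E with hU
  have hUcomm : ∀ b ∈ U, ∀ b' ∈ U, Commute b b' := by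
    rintro _ ⟨i, rfl⟩ _ ⟨j, rfl⟩
    exact Subtype.ext (f₁.comm _ (hEY i) _ (hEY j))
  have hconj : ∀ i, ∀ δ ∈ D', E i * δ * (E i)⁻¹ ∈ D' := by
    rintro i _ ⟨u, hu, rfl⟩
    refine ⟨E i * u * (E i)⁻¹, f₂.norm _ (hF₂ i) _ hu, ?_⟩
    unfold cm
    have h1 : E i * E 0 = E 0 * E i := (hUcomm _ ⟨i, rfl⟩ _ ⟨0, rfl⟩).eq
    have h2 : (E 0)⁻¹ * (E i)⁻¹ = (E i)⁻¹ * (E 0)⁻¹ := by
      rw [← mul_inv_rev, h1, mul_inv_rev]
    calc E i * (E 0 * u * (E 0)⁻¹ * u⁻¹) * (E i)⁻¹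
        = (E i * E 0) * u * ((E 0)⁻¹ * (E i)⁻¹) * E i * u⁻¹ * (E i)⁻¹ := by group
      _ = (E 0 * E i) * u * ((E i)⁻¹ * (E 0)⁻¹) * E i * u⁻¹ * (E i)⁻¹ := by rw [h1, h2]
      _ = E 0 * (E i * u * (E i)⁻¹) * (E 0)⁻¹ * (E i * u * (E i)⁻¹)⁻¹ := by group
  have hconj' : ∀ i, ∀ δ ∈ D', (E i)⁻¹ * δ * E i ∈ D' := by
    rintro i _ ⟨u, hu, rfl⟩
    refine ⟨(E i)⁻¹ * u * E i, ?_, ?_⟩
    · have := f₂.norm _ (F₂.inv_mem (hF₂ i)) _ hu
      rwa [inv_inv] at this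
    unfold cm
    have h1 : (E i)⁻¹ * E 0 = E 0 * (E i)⁻¹ := ((hUcomm _ ⟨i, rfl⟩ _ ⟨0, rfl⟩).inv_left).eq
    have h2 : (E 0)⁻¹ * E i = E i * (E 0)⁻¹ := ((hUcomm _ ⟨0, rfl⟩ _ ⟨i, rfl⟩).inv_left).eq
    calc (E i)⁻¹ * (E 0 * u * (E 0)⁻¹ * u⁻¹) * E i
        = ((E i)⁻¹ * E 0) * u * ((E 0)⁻¹ * E i) * (E i)⁻¹ * u⁻¹ * E i := by group
      _ = (E 0 * (E i)⁻¹) * u * (E i * (E 0)⁻¹) * (E i)⁻¹ * u⁻¹ * E i := by rw [h1, h2]
      _ = E 0 * ((E i)⁻¹ * u * E i) * (E 0)⁻¹ * ((E i)⁻¹ * u * E i)⁻¹ := by group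
  have hnilU : ∀ b ∈ U, NilRank (2 * d₀) ((ρ b).val - 1) := by
    rintro _ ⟨i, rfl⟩
    obtain ⟨n, hn⟩ := htorC f₁ (E i) (hEY i)
    exact nilRank_of hp (hdegE i) hn
  have hnilD : ∀ δ ∈ D', NilRank (2 * (2 * d₀)) ((ρ δ).val - 1) := by
    intro δ hδ
    obtain ⟨n, hn⟩ := htorC f₂ δ (hD'Y δ hδ)
    refine nilRank_of hp ?_ hn
    obtain ⟨u, hu, rfl⟩ := hδ
    exact deg_cm ρ (hdegE 0) u
  obtain ⟨m, hm⟩ : ∃ m, k = m + 1 := ⟨k - 1, by omega⟩
  set z : C := ⟨f₂.na x 1, hcen _ (f₂.cen hx₂ F₂.one_mem)⟩ with hz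
  have hone : (Ls (fun i => E (i + 1)) m).foldr cm (cm (E 0) z) = 1 := by
    refine foldr_cm_eq_one (ρ := ρ) (D := D') (U := U) (d := 2 * d₀) (e := 2 * (2 * d₀))
      ?_ ?_ hUcomm hnilU hnilD ?_ hρ ⟨z, f₂.na_mem hx₂ F₂.one_mem, rfl⟩ ?_ ?_
    · rintro _ ⟨i, rfl⟩
      exact hconj i
    · rintro _ ⟨i, rfl⟩
      exact hconj' i
    · intro δ hδ δ' hδ'
      exact hcomm2 δ δ' (hD'Y δ hδ) (hD'Y δ' hδ')
    · intro b hb
      obtain ⟨i, -, rfl⟩ := mem_ls hb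
      exact ⟨i + 1, rfl⟩
    · rw [length_ls]
      omega
  have hone' : (Ls E (m + 1)).foldr cm z = 1 := by
    rw [ls_succ, List.foldr_append]
    exact hone
  have hcoe : (Ls (fun i => f₁.el x c (g i)) (m + 1)).foldr cm (f₂.na x 1) = 1 := by
    have h1 : (((Ls E (m + 1)).foldr cm z : C) : G) = ((1 : C) : G) := by rw [hone']
    rw [coe_foldr, map_ls] at h1
    exact h1
  have hgood := f₁.good hp hx₁ hc₁ h0 (hCd ▸ hcC) hcx hxD hcD hg hgD (n := m + 1) (by omega)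
  have hne := (f₂.co_foldr hx₂ h0 hp (L := Ls (fun i => f₁.el x c (g i)) (m + 1))
    (fun b hb => by
      obtain ⟨i, -, rfl⟩ := mem_ls hb
      exact hF₂ i) hgood).2
  rw [hcoe, f₂.co_one] at hne
  exact hne rfl

end Pool.Agent.Lib.MP_b9166b_al.Rg
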