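import Pool.Agent.Lib.MP_b9166b_al.Rg.CovB

/-!
# MP_b9166b_al, REG: the free element in the case of a nilpotent kernel not in the centre
-/

set_option autoImplicit false

namespace Pool.Agent.Lib.MP_b9166b_al.Rg

open Equiv Equiv.Perm

open scoped IsMulCommutative

variable {Γ L : Type} [Group Γ] [Group L] [Fintype Γ] [DecidableEq Γ] {k : ℕ}

namespace Cov

variable (c : Cov Γ L k)

/-- a prime `p` for which `M₀ p` is not trivial -/
theorem exists_M₀ [Finite L] (hnil : Group.IsNilpotent c.π.ker)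
    (hP : ¬ c.π.ker ≤ Subgroup.center L) : ∃ p : ℕ, p.Prime ∧ ∃ x ∈ c.M₀ p, x ≠ 1 := by
  have h1 : Group.IsNilpotent c.Pb :=
    Group.nilpotent_of_surjective ((QuotientGroup.mk' (Subgroup.center L)).subgroupMap c.π.ker)
      (MonoidHom.subgroupMap_surjective _ _)
  have h2 : Nontrivial c.Pb := by
    rw [Subgroup.nontrivial_iff_ne_bot]
    intro h
    apply hP
    have h3 := (Subgroup.map_eq_bot_iff _).1 h
    rwa [QuotientGroup.ker_mk'] at h3
  have h3 := Group.IsNilpotent.center_ne_bot (G := c.Pb)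
  have h4 : Nat.card (Subgroup.center c.Pb) ≠ 1 := by
    intro h
    exact h3 (Subgroup.card_eq_one.1 h)
  have hp := Nat.minFac_prime h4
  have : Fact (Nat.minFac (Nat.card (Subgroup.center c.Pb))).Prime := ⟨hp⟩
  obtain ⟨x, hx⟩ := exists_prime_orderOf_dvd_card' _ (Nat.minFac_dvd (Nat.card (Subgroup.center c.Pb)))
  refine ⟨_, hp, x.1.1, ⟨x.1.2, fun r hr => ?_, ?_⟩, ?_⟩
  · exact congrArg Subtype.val (Subgroup.mem_center_iff.1 x.2 ⟨r, hr⟩)
  · have h5 : x ^ Nat.minFac (Nat.card (Subgroup.center c.Pb)) = 1 := by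
      nth_rewrite 1 [← hx]
      exact pow_orderOf_eq_one x
    exact congrArg (fun z : Subgroup.center c.Pb => (z.1.1 : L ⧸ Subgroup.center L)) h5
  · intro h
    have h6 : x = 1 := Subtype.ext (Subtype.ext h)
    rw [h6, orderOf_one] at hx
    exact hp.one_lt.ne hx

theorem modular [Finite L] (hk : 29 ≤ k) (hperf : commutator L = ⊤)
    (hnil : Group.IsNilpotent c.π.ker) (hP : ¬ c.π.ker ≤ Subgroup.center L) : c.Target := by
  obtain ⟨p, hp, x₀, hx₀, hx₀1⟩ := c.exists_M₀ hnil hP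
  have : Fact p.Prime := ⟨hp⟩
  -- the prime `s`
  obtain ⟨s, hs, hs3, hsp⟩ : ∃ s : ℕ, s.Prime ∧ s ≤ 3 ∧ s ≠ p := by
    by_cases h : p = 2
    · exact ⟨3, Nat.prime_three, le_rfl, by omega⟩
    · exact ⟨2, Nat.prime_two, by norm_num, fun h' => h h'.symm⟩
  have hsF : Fact s.Prime := ⟨hs⟩
  have hcop : Nat.Coprime s p := (Nat.coprime_primes hs hp).2 hsp
  have hsK : (s : ZMod p) ≠ 0 := by
    rw [Ne, ZMod.natCast_eq_zero_iff]
    intro h
    exact hsp ((Nat.prime_dvd_prime_iff_eq hp hs).1 h).symm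
  -- the embedding
  obtain ⟨κ⟩ : Nonempty ((Fin 3 × (ZMod s × ZMod s)) ⊕ Bool ↪ Fin k) := by
    apply Function.Embedding.nonempty_of_card_le
    rw [Fintype.card_sum, Fintype.card_prod, Fintype.card_prod, ZMod.card, Fintype.card_fin,
      Fintype.card_fin, Fintype.card_bool]
    have h1 : s * s ≤ 3 * 3 := Nat.mul_le_mul hs3 hs3
    omega
  have h5 : 5 ≤ Nat.card (Γ × Fin k) := by
    rw [Nat.card_prod, Nat.card_eq_fintype_card (α := Fin k), Fintype.card_fin]
    have h1 : 1 ≤ Nat.card Γ := Nat.card_pos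
    nlinarith
  let Δ : Blk (alternatingGroup (Γ × Fin k)) (Γ × Fin 3) s := db κ h5
  let q : L →* L ⧸ Subgroup.center L := QuotientGroup.mk' _
  have hq1 : ∀ x, q x = 1 ↔ x ∈ Subgroup.center L := fun x => QuotientGroup.eq_one_iff x
  have hcomm : IsMulCommutative (c.M₀ p) :=
    ⟨⟨fun a b => Subtype.ext (c.M₀_comm p a.2 b.2)⟩⟩
  -- the action is not trivial
  have hnt : ∃ (a : alternatingGroup (Γ × Fin k)) (m : c.M₀ p), c.ρ₀ p a m ≠ m := by
    by_contra hcon
    push Not at hcon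
    apply hx₀1
    obtain ⟨x, rfl⟩ := QuotientGroup.mk'_surjective _ x₀
    rw [hq1 x]
    apply center_of_comm hperf
    intro g
    rw [← hq1, map_mul, map_mul, map_mul, map_inv, map_inv, mul_inv_eq_one]
    have h1 := congrArg Subtype.val (hcon (c.πA g) ⟨_, hx₀⟩)
    rw [c.ρ₀_coe p (g := g) rfl] at h1
    exact h1
  let B₀ : Finset (Γ × Fin 3) := (Finset.univ.erase (1 : Γ)) ×ˢ {(0 : Fin 3)}
  have hB₀ : B₀.card + 3 ≤ Fintype.card (Γ × Fin 3) := by
    rw [Finset.card_product, Finset.card_singleton, mul_one,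
      Finset.card_erase_of_mem (Finset.mem_univ _), Finset.card_univ, Fintype.card_prod,
      Fintype.card_fin]
    have h1 : 1 ≤ Fintype.card Γ := Fintype.card_pos
    omega
  have hb₀ : ((1 : Γ), (0 : Fin 3)) ∉ B₀ := by
    intro h
    exact (Finset.mem_erase.1 (Finset.mem_product.1 h).1).1 rfl
  obtain ⟨m, hfix, hnorm, χ, hadd, hχm, hχu⟩ := Δ.exists_char hs.two_le hsK
    (fun m : c.M₀ p => Subtype.ext m.2.2.2) (c.ρ₀ p) hnt hB₀ hb₀
  obtain ⟨y, hy⟩ := QuotientGroup.mk'_surjective (Subgroup.center L) m.1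
  obtain ⟨δ, hδ⟩ := c.πA_surjective (Δ.e (1, 0))
  have hδ' : c.π δ = (Δ.e (1, 0) : Perm (Γ × Fin k)) := by
    rw [← hδ]
    rfl
  have hyM : ∀ h, q (c.φ h y) ∈ c.M₀ p := by
    intro h
    have h1 : q (c.φ h y) = c.ψ h (q y) := (c.ψ_mk h y).symm
    rw [h1]
    apply c.ψ_M₀
    change QuotientGroup.mk' (Subgroup.center L) y ∈ c.M₀ p
    rw [hy]
    exact m.2
  -- the element `δ` fixes the conjugates
  have hδu : ∀ h : Γ, h ≠ 1 → q δ * q (c.φ h y) * (q δ)⁻¹ = q (c.φ h y) := by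
    intro h hh
    have h1 : c.π (c.φ h⁻¹ δ) = (Δ.e (h⁻¹, 0) : Perm (Γ × Fin k)) := by
      rw [c.equi, hδ', db_tr, mul_one]
    have h2 : c.ρ₀ p (Δ.e (h⁻¹, 0)) m = m := hfix (h⁻¹, 0) (Finset.mem_product.2
      ⟨Finset.mem_erase.2 ⟨inv_ne_one.2 hh, Finset.mem_univ _⟩, Finset.mem_singleton_self _⟩)
    have h3 := congrArg Subtype.val h2
    rw [c.ρ₀_coe p h1, ← hy] at h3
    have h4 := congrArg (c.ψ h) h3
    have h6 : c.φ h (c.φ h⁻¹ δ) = δ := by
      rw [← MulAut.mul_apply, ← map_mul, mul_inv_cancel, map_one, MulAut.one_apply]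
    rw [map_mul (c.ψ h), map_mul (c.ψ h), map_inv (c.ψ h), c.ψ_mk, c.ψ_mk, h6] at h4
    exact h4
  have hδM : ∀ h : Γ, h ≠ 1 → χ ⟨q (c.φ h y), hyM h⟩ = 0 := by
    intro h hh
    apply hχu
    apply Subtype.ext
    rw [c.ρ₀_coe p hδ']
    exact hδu h hh
  classical
  let χL : L → ZMod p := fun x => if h : q x ∈ c.M₀ p then χ ⟨q x, h⟩ else 0
  have hχL : ∀ x (h : q x ∈ c.M₀ p), χL x = χ ⟨q x, h⟩ := fun x h => dif_pos h
  -- the norm
  have hprod : ∀ n : ℕ, q ((List.map (fun i => δ ^ i * y * (δ ^ i)⁻¹) (List.range n)).prod) =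
      ((∏ i ∈ Finset.range n, c.ρ₀ p (Δ.e (1, 0) ^ i) m : c.M₀ p) : L ⧸ Subgroup.center L) := by
    intro n
    induction n with
    | zero => simp
    | succ n ih =>
      rw [List.range_succ, List.map_append, List.prod_append, map_mul, ih,
        Finset.prod_range_succ, Subgroup.coe_mul]
      congr 1
      have h1 : c.π (δ ^ n) = ((Δ.e (1, 0) ^ n : alternatingGroup (Γ × Fin k)) :
          Perm (Γ × Fin k)) := by
        rw [map_pow, hδ']
        rfl
      rw [c.ρ₀_coe p h1, ← hy, List.map_singleton, List.prod_singleton, map_mul, map_mul, map_inv]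
  refine ⟨p, hp, (c.M₀ p).comap q, χL, y, ?_, fun h => hyM h, ?_, ?_, ?_⟩
  · intro a ha b hb
    have hab : q (a * b) ∈ c.M₀ p := by
      rw [map_mul]
      exact (c.M₀ p).mul_mem ha hb
    rw [hχL a ha, hχL b hb, hχL _ hab, ← hadd]
    congr 1
  · intro h
    by_cases hh : h = 1
    · subst hh
      rw [map_one, MulAut.one_apply]
    · have h1 : q y ∈ c.M₀ p := by
        have h2 := hyM 1
        rwa [map_one, MulAut.one_apply] at h2
      refine comm_of_norm (δ := δ) (s := s) (p := p) hcop ?_ ?_ ?_ ?_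
      · rw [← hq1, map_mul, map_mul, map_mul, map_inv, map_inv, c.M₀_comm p h1 (hyM h)]
        group
      · rw [← hq1, map_mul, map_mul, map_mul, map_inv, map_inv, hδu h hh, mul_inv_cancel]
      · rw [← hq1, hprod s, hnorm]
        rfl
      · rw [← hq1, map_pow]
        exact h1.2.2
  · have h1 : q y ∈ c.M₀ p := by
      have h2 := hyM 1
      rwa [map_one, MulAut.one_apply] at h2
    rw [hχL y h1, ← hχm]
    congr 1
    exact Subtype.ext hy
  · intro h hh
    rw [hχL _ (hyM h)]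
    exact hδM h hh

end Cov

end Pool.Agent.Lib.MP_b9166b_al.Rg
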