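import Mathlib

/-!
# MP_b9166b_al, REG: commuting nilpotent operators of bounded rank

A product of `d + 1` commuting nilpotent operators of rank at most `d` is zero; consequently `2 d + 1`
commuting unipotent operators `b` with `rank (b - 1) ≤ d` give zero when the maps
`T ↦ b T b⁻¹ - T` are applied one after the other.
-/

set_option autoImplicit false

namespace Pool.Agent.Lib.MP_b9166b_al.Rg

variable {K V : Type} [Field K] [AddCommGroup V] [Module K V]

/-- nilpotent of rank at most `d` -/
structure NilRank (d : ℕ) (β : V →ₗ[K] V) : Prop where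
  nil : IsNilpotent β
  fin : FiniteDimensional K (LinearMap.range β)
  le : Module.finrank K (LinearMap.range β) ≤ d

/-- products of commuting nilpotent maps: the rank drops -/
theorem list_aux {d : ℕ} {B : Set (V →ₗ[K] V)} (hB : ∀ β ∈ B, NilRank d β)
    (hcomm : ∀ β ∈ B, ∀ β' ∈ B, Commute β β') (l : List (V →ₗ[K] V)) :
    (∀ β ∈ l, β ∈ B) → l ≠ [] → l.prod = 0 ∨
      (FiniteDimensional K (LinearMap.range l.prod) ∧
        Module.finrank K (LinearMap.range l.prod) + l.length ≤ d + 1) := by
  induction l with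
  | nil => intro _ h; exact absurd rfl h
  | cons β l ih =>
    intro hl _
    have hβ : β ∈ B := hl β List.mem_cons_self
    by_cases hn : l = []
    · right
      subst hn
      rw [List.prod_singleton, List.length_singleton]
      exact ⟨(hB β hβ).fin, Nat.add_le_add_right (hB β hβ).le 1⟩
    have hl' : ∀ γ ∈ l, γ ∈ B := fun γ hγ => hl γ (List.mem_cons_of_mem _ hγ)
    rw [List.prod_cons, List.length_cons]
    rcases ih hl' hn with h0 | ⟨hfin, hle⟩
    · left
      rw [h0, mul_zero]
    · by_cases hz : l.prod = 0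
      · left
        rw [hz, mul_zero]
      right
      have hc : Commute β l.prod := by
        apply Commute.symm
        have : ∀ (l : List (V →ₗ[K] V)), (∀ γ ∈ l, γ ∈ B) → Commute l.prod β := by
          intro l
          induction l with
          | nil => intro _; exact Commute.one_left β
          | cons γ l ih2 =>
            intro h
            rw [List.prod_cons]
            exact (hcomm γ (h γ List.mem_cons_self) β hβ).mul_left
              (ih2 fun γ' h' => h γ' (List.mem_cons_of_mem _ h'))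
        exact this l hl'
      have hsub : LinearMap.range (β * l.prod) ≤ LinearMap.range l.prod := by
        rw [hc.eq]
        rintro v ⟨w, rfl⟩
        exact ⟨β w, rfl⟩
      have hlt : LinearMap.range (β * l.prod) < LinearMap.range l.prod := by
        refine lt_of_le_of_ne hsub fun heq => hz ?_
        have hall : ∀ n : ℕ, ∀ w : V, ∃ v : V, (β ^ n) (l.prod v) = l.prod w := by
          intro n
          induction n with
          | zero => intro w; exact ⟨w, by simp⟩
          | succ n ihn =>
            intro w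
            obtain ⟨v, hv⟩ := ihn w
            have h1 : l.prod v ∈ LinearMap.range (β * l.prod) := by
              rw [heq]
              exact LinearMap.mem_range_self _ _
            obtain ⟨u, hu⟩ := h1
            refine ⟨u, ?_⟩
            rw [pow_succ, Module.End.mul_apply]
            rw [Module.End.mul_apply] at hu
            rw [hu, hv]
        obtain ⟨n, hn0⟩ := (hB β hβ).nil
        ext w
        obtain ⟨v, hv⟩ := hall n w
        rw [← hv, hn0]
        rfl
      refine ⟨Submodule.finiteDimensional_of_le hsub, ?_⟩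
      have := Submodule.finrank_lt_finrank_of_lt hlt
      omega

theorem list_prod_eq_zero {d : ℕ} {B : Set (V →ₗ[K] V)} (hB : ∀ β ∈ B, NilRank d β)
    (hcomm : ∀ β ∈ B, ∀ β' ∈ B, Commute β β') {l : List (V →ₗ[K] V)}
    (hl : ∀ β ∈ l, β ∈ B) (hlen : d < l.length) : l.prod = 0 := by
  have hne : l ≠ [] := by
    rintro rfl
    simp at hlen
  rcases list_aux hB hcomm l hl hne with h | ⟨hfin, hle⟩
  · exact h
  · have h0 : Module.finrank K (LinearMap.range l.prod) = 0 := by omega
    rw [Submodule.finrank_eq_zero] at h0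
    exact LinearMap.range_eq_bot.1 h0

/-- the words `l * T * l'` with `length l + length l' = n` -/
def Wd (B : Set (V →ₗ[K] V)) (T : V →ₗ[K] V) (n : ℕ) : Set (V →ₗ[K] V) :=
  {S | ∃ l l' : List (V →ₗ[K] V), (∀ β ∈ l, β ∈ B) ∧ (∀ β ∈ l', β ∈ B) ∧
    l.length + l'.length = n ∧ S = l.prod * T * l'.prod}

theorem ad_mem {B : Set (V →ₗ[K] V)} {T : V →ₗ[K] V} {n : ℕ} {β : V →ₗ[K] V} (hβ : β ∈ B)
    {S : V →ₗ[K] V} (hS : S ∈ Submodule.span K (Wd B T n)) :
    β * S - S * β ∈ Submodule.span K (Wd B T (n + 1)) := by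
  refine Submodule.span_induction ?_ ?_ ?_ ?_ hS
  · rintro S ⟨l, l', h1, h2, h3, rfl⟩
    refine Submodule.sub_mem _ (Submodule.subset_span ⟨β :: l, l', ?_, h2, ?_, ?_⟩)
      (Submodule.subset_span ⟨l, l' ++ [β], h1, ?_, ?_, ?_⟩)
    · intro γ hγ
      rcases List.mem_cons.1 hγ with rfl | h
      · exact hβ
      · exact h1 γ h
    · rw [List.length_cons]
      omega
    · rw [List.prod_cons, mul_assoc, mul_assoc, mul_assoc]
    · intro γ hγ
      rcases List.mem_append.1 hγ with h | h
      · exact h2 γ h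
      · rw [List.mem_singleton] at h
        rw [h]
        exact hβ
    · rw [List.length_append, List.length_singleton]
      omega
    · rw [List.prod_append, List.prod_singleton, mul_assoc]
  · rw [mul_zero, zero_mul, sub_zero]
    exact Submodule.zero_mem _
  · intro x y _ _ hx hy
    have : β * (x + y) - (x + y) * β = (β * x - x * β) + (β * y - y * β) := by
      noncomm_ring
    rw [this]
    exact Submodule.add_mem _ hx hy
  · intro c x _ hx
    have : β * (c • x) - (c • x) * β = c • (β * x - x * β) := by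
      rw [mul_smul_comm, smul_mul_assoc, smul_sub]
    rw [this]
    exact Submodule.smul_mem _ c hx

theorem span_wd_eq {d : ℕ} {B : Set (V →ₗ[K] V)} (hB : ∀ β ∈ B, NilRank d β)
    (hcomm : ∀ β ∈ B, ∀ β' ∈ B, Commute β β') (T : V →ₗ[K] V) {n : ℕ} (hn : 2 * d + 1 ≤ n)
    {S : V →ₗ[K] V} (hS : S ∈ Submodule.span K (Wd B T n)) : S = 0 := by
  have : Submodule.span K (Wd B T n) ≤ ⊥ := by
    rw [Submodule.span_le]
    rintro S ⟨l, l', h1, h2, h3, rfl⟩
    rw [SetLike.mem_coe, Submodule.mem_bot]
    by_cases h : d < l.length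
    · rw [list_prod_eq_zero hB hcomm h1 h, zero_mul, zero_mul]
    · rw [list_prod_eq_zero hB hcomm h2 (by omega), mul_zero]
  exact (Submodule.mem_bot K).1 (this hS)

/-- `T ↦ b T b⁻¹ - T` -/
def Th (b : (V →ₗ[K] V)ˣ) (T : V →ₗ[K] V) : V →ₗ[K] V := b.val * T * (b⁻¹).val - T

theorem Th_eq (b : (V →ₗ[K] V)ˣ) (T : V →ₗ[K] V) :
    Th b T = ((b.val - 1) * T - T * (b.val - 1)) * (b⁻¹).val := by
  unfold Th
  have : ((b.val - 1) * T - T * (b.val - 1)) = b.val * T - T * b.val := by noncomm_ring
  rw [this, sub_mul, mul_assoc T, Units.mul_inv, mul_one]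

/-- the iterated maps `Th` in terms of words -/
theorem foldr_Th {U : Set (V →ₗ[K] V)ˣ} (hU : ∀ b ∈ U, ∀ b' ∈ U, Commute b b')
    (T : V →ₗ[K] V) (L : List (V →ₗ[K] V)ˣ) : (∀ b ∈ L, b ∈ U) →
    ∃ (A : V →ₗ[K] V) (u : (V →ₗ[K] V)ˣ),
      A ∈ Submodule.span K (Wd {β | ∃ b ∈ U, β = b.val - 1} T L.length) ∧
      (∀ b ∈ U, Commute u b) ∧ L.foldr Th T = A * u.val := by
  induction L with
  | nil =>
    intro _
    refine ⟨T, 1, ?_, fun b _ => Commute.one_left b, ?_⟩
    · apply Submodule.subset_span
      exact ⟨[], [], by simp, by simp, by simp, by simp⟩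
    · simp
  | cons b L ih =>
    intro hL
    have hb : b ∈ U := hL b List.mem_cons_self
    obtain ⟨A, u, hA, hu, h⟩ := ih fun c hc => hL c (List.mem_cons_of_mem _ hc)
    refine ⟨(b.val - 1) * A - A * (b.val - 1), u * b⁻¹, ?_, ?_, ?_⟩
    · rw [List.length_cons]
      exact ad_mem (B := {β | ∃ b ∈ U, β = b.val - 1}) ⟨b, hb, rfl⟩ hA
    · intro c hc
      exact (hu c hc).mul_left ((hU b hb c hc).inv_left)
    · rw [List.foldr_cons, h, Th_eq, Units.val_mul]
      have h1 : u.val * b.val = b.val * u.val := by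
        rw [← Units.val_mul, (hu b hb).eq, Units.val_mul]
      have h2 : A * u.val * (b.val - 1) = A * (b.val - 1) * u.val := by
        rw [mul_assoc, mul_assoc, mul_sub, sub_mul, h1, mul_one, one_mul]
      rw [h2, ← mul_assoc (b.val - 1), ← sub_mul, mul_assoc]

theorem foldr_Th_eq_zero {d : ℕ} {U : Set (V →ₗ[K] V)ˣ} (hU : ∀ b ∈ U, ∀ b' ∈ U, Commute b b')
    (hd : ∀ b ∈ U, NilRank d (b.val - 1)) (T : V →ₗ[K] V) {L : List (V →ₗ[K] V)ˣ}
    (hL : ∀ b ∈ L, b ∈ U) (hlen : 2 * d + 1 ≤ L.length) : L.foldr Th T = 0 := by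
  obtain ⟨A, u, hA, -, h⟩ := foldr_Th hU T L hL
  have hA0 : A = 0 := by
    refine span_wd_eq (d := d) ?_ ?_ T hlen hA
    · rintro β ⟨b, hb, rfl⟩
      exact hd b hb
    · rintro β ⟨b, hb, rfl⟩ β' ⟨b', hb', rfl⟩
      have h1 : Commute b.val b'.val := by
        have := hU b hb b' hb'
        unfold Commute SemiconjBy at this ⊢
        rw [← Units.val_mul, this, Units.val_mul]
      exact (h1.sub_right (Commute.one_right _)).sub_left (Commute.one_left _)
  rw [h, hA0, zero_mul]

end Pool.Agent.Lib.MP_b9166b_al.Rg
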